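import Pool.Agent.Helper60.GT.Defs

/-!
# Geometry of adjacent `k`-sets and a packing (module GE)
-/

set_option autoImplicit false

open Finset

namespace Pool.Agent.Helper60.GT

variable {V : Type} [DecidableEq V] {k : ℕ} {H M : Finset (Finset V)}

theorem Adj.symm {f g : Finset V} (h : Adj k f g) : Adj k g f :=
  ⟨h.1.symm, by rw [inter_comm]; exact h.2⟩

theorem Adj.irrefl (f : Finset V) : ¬ Adj k f f := fun h => h.1 rfl

theorem adj_card_inter {f g : Finset V} (hf : f.card = k) (hg : g.card = k) (h : Adj k f g) :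
    (f ∩ g).card = k - 1 := by
  have h1 : (f ∩ g).card ≤ k := hf ▸ card_le_card inter_subset_left
  have h2 : (f ∩ g).card ≠ k := by
    intro e
    have a : f ∩ g = f := eq_of_subset_of_card_le inter_subset_left (by rw [e, hf])
    have b : f ∩ g = g := eq_of_subset_of_card_le inter_subset_right (by rw [e, hg])
    exact h.1 (a.symm.trans b)
  have h3 := h.2
  omega

theorem adj_card_union {f g : Finset V} (hk : 1 ≤ k) (hf : f.card = k) (hg : g.card = k)
    (h : Adj k f g) : (f ∪ g).card = k + 1 := by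
  have h1 := card_union_add_card_inter f g
  have h2 := adj_card_inter hf hg h
  omega

/-- `g = f - x + y` -/
theorem adj_exists {f g : Finset V} (hk : 1 ≤ k) (hf : f.card = k) (hg : g.card = k)
    (h : Adj k f g) : ∃ x ∈ f, ∃ y, y ∉ f ∧ f ∩ g = f.erase x ∧ f ∪ g = insert y f ∧
      g = insert y (f.erase x) := by
  have h1 : (f \ g).card = 1 := by
    have h3 := card_sdiff_add_card_inter f g
    have h2 := adj_card_inter hf hg h
    omega
  have h1' : (g \ f).card = 1 := by
    have h3 := card_sdiff_add_card_inter g f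
    have h2 := adj_card_inter hf hg h
    rw [inter_comm] at h2
    omega
  obtain ⟨x, hx⟩ := card_eq_one.mp h1
  obtain ⟨y, hy⟩ := card_eq_one.mp h1'
  have hx' : ∀ z, (z ∈ f ∧ z ∉ g) ↔ z = x := by
    intro z
    rw [← mem_sdiff, hx, mem_singleton]
  have hy' : ∀ z, (z ∈ g ∧ z ∉ f) ↔ z = y := by
    intro z
    rw [← mem_sdiff, hy, mem_singleton]
  have hxf := (hx' x).2 rfl
  have hyg := (hy' y).2 rfl
  refine ⟨x, hxf.1, y, hyg.2, ?_, ?_, ?_⟩
  · ext z
    rw [mem_inter, mem_erase]
    have a := hx' z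
    have b := hy' z
    constructor
    · rintro ⟨p, q⟩
      exact ⟨fun e => (a.2 e).2 q, p⟩
    · rintro ⟨p, q⟩
      refine ⟨q, ?_⟩
      by_contra hc
      exact p (a.1 ⟨q, hc⟩)
  · ext z
    rw [mem_union, mem_insert]
    have b := hy' z
    constructor
    · rintro (p | p)
      · exact Or.inr p
      · by_cases q : z ∈ f
        · exact Or.inr q
        · exact Or.inl (b.1 ⟨p, q⟩)
    · rintro (p | p)
      · exact Or.inr (b.2 p).1
      · exact Or.inl p
  · ext z
    rw [mem_insert, mem_erase]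
    have a := hx' z
    have b := hy' z
    constructor
    · intro p
      by_cases q : z ∈ f
      · exact Or.inr ⟨fun e => (a.2 e).2 p, q⟩
      · exact Or.inl (b.1 ⟨p, q⟩)
    · rintro (p | ⟨p, q⟩)
      · exact (b.2 p).1
      · by_contra hc
        exact p (a.1 ⟨q, hc⟩)

/-- a ridge of `f` is `f - x` -/
theorem ridge_eq_erase {f S : Finset V} (hk : 1 ≤ k) (hf : f.card = k) (hS : S.card = k - 1)
    (h : S ⊆ f) : ∃ x ∈ f, S = f.erase x := by
  have h1 : (f \ S).card = 1 := by
    have h2 := card_sdiff_add_card_eq_card h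
    omega
  obtain ⟨x, hx⟩ := card_eq_one.mp h1
  have hx' : ∀ z, (z ∈ f ∧ z ∉ S) ↔ z = x := by
    intro z
    rw [← mem_sdiff, hx, mem_singleton]
  refine ⟨x, ((hx' x).2 rfl).1, ?_⟩
  ext z
  rw [mem_erase]
  have a := hx' z
  constructor
  · intro p
    exact ⟨fun e => (a.2 e).2 p, h p⟩
  · rintro ⟨p, q⟩
    by_contra hc
    exact p (a.1 ⟨q, hc⟩)

/-- G1 -/
theorem card_inter_of_mem_nbr (hM : ∀ m ∈ M, m.card = k) {f m : Finset V} (hf : f.card = k)
    (hfM : f ∉ M) (hm : m ∈ nbr k M f) : (f ∩ m).card = k - 1 := by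
  rw [nbr, mem_filter] at hm
  exact adj_card_inter hf (hM m hm.1) ⟨fun e => hfM (e ▸ hm.1), hm.2⟩

theorem adj_of_mem_nbr {f m : Finset V} (hfM : f ∉ M) (hm : m ∈ nbr k M f) : Adj k f m := by
  rw [nbr, mem_filter] at hm
  exact ⟨fun e => hfM (e ▸ hm.1), hm.2⟩

/-- G2 -/
theorem nbr_inter_inj (hM : ∀ m ∈ M, m.card = k)
    (hP : ∀ m ∈ M, ∀ m' ∈ M, m ≠ m' → (m ∩ m').card < k - 1) {f m m' : Finset V}
    (hf : f.card = k) (hfM : f ∉ M) (hm : m ∈ nbr k M f) (hm' : m' ∈ nbr k M f)
    (h : f ∩ m = f ∩ m') : m = m' := by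
  by_contra hne
  have h1 := card_inter_of_mem_nbr hM hf hfM hm
  have h2 : f ∩ m ⊆ m ∩ m' := by
    intro z hz
    rw [mem_inter]
    refine ⟨(mem_inter.mp hz).2, ?_⟩
    rw [h] at hz
    exact (mem_inter.mp hz).2
  have h3 := card_le_card h2
  have h4 := hP m (mem_filter.mp hm).1 m' (mem_filter.mp hm').1 hne
  omega

/-- G3 -/
theorem common_nbr_of_adj (hk : 2 ≤ k) (hM : ∀ m ∈ M, m.card = k) {f g m : Finset V}
    (hf : f.card = k) (hg : g.card = k) (hfM : f ∉ M) (hgM : g ∉ M) (hfg : Adj k f g)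
    (hm : m ∈ nbr k M f) (hm' : m ∈ nbr k M g) : f ∩ g ⊆ m ∨ m ⊆ f ∪ g := by
  have h2 := adj_of_mem_nbr hfM hm
  have h3 := adj_of_mem_nbr hgM hm'
  have hh := hM m (mem_filter.mp hm).1
  by_contra hcon
  push Not at hcon
  obtain ⟨hc1, hc2⟩ := hcon
  obtain ⟨x, hx, hxh⟩ := not_subset.mp hc1
  obtain ⟨y, hy, hyfg⟩ := not_subset.mp hc2
  rw [mem_inter] at hx
  rw [mem_union, not_or] at hyfg
  have e1 : f ∩ m = m.erase y := by
    apply eq_of_subset_of_card_le
    · intro z hz
      rw [mem_inter] at hz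
      rw [mem_erase]
      exact ⟨fun e => hyfg.1 (e ▸ hz.1), hz.2⟩
    · rw [card_erase_of_mem hy, hh]; exact h2.2
  have e2 : g ∩ m = m.erase y := by
    apply eq_of_subset_of_card_le
    · intro z hz
      rw [mem_inter] at hz
      rw [mem_erase]
      exact ⟨fun e => hyfg.2 (e ▸ hz.1), hz.2⟩
    · rw [card_erase_of_mem hy, hh]; exact h3.2
  have e3 : f ∩ m = f.erase x := by
    apply eq_of_subset_of_card_le
    · intro z hz
      rw [mem_inter] at hz
      rw [mem_erase]
      exact ⟨fun e => hxh (e ▸ hz.2), hz.1⟩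
    · rw [card_erase_of_mem hx.1, hf]; exact h2.2
  have e4 : g ∩ m = g.erase x := by
    apply eq_of_subset_of_card_le
    · intro z hz
      rw [mem_inter] at hz
      rw [mem_erase]
      exact ⟨fun e => hxh (e ▸ hz.2), hz.1⟩
    · rw [card_erase_of_mem hx.2, hg]; exact h3.2
  have e5 : f.erase x = g.erase x := by rw [← e3, ← e4, e1, e2]
  apply hfg.1
  rw [← insert_erase hx.1, e5, insert_erase hx.2]

/-- G4 -/
theorem under_unique (hP : ∀ m ∈ M, ∀ m' ∈ M, m ≠ m' → (m ∩ m').card < k - 1)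
    {R m m' : Finset V} (hR : R.card = k - 1) (hm : m ∈ M) (hm' : m' ∈ M) (h : R ⊆ m)
    (h' : R ⊆ m') : m = m' := by
  by_contra hne
  have h3 := card_le_card (subset_inter h h')
  have h4 := hP m hm m' hm' hne
  omega

/-- G5 -/
theorem inside_unique (hk : 1 ≤ k) (hM : ∀ m ∈ M, m.card = k)
    (hP : ∀ m ∈ M, ∀ m' ∈ M, m ≠ m' → (m ∩ m').card < k - 1)
    {Q m m' : Finset V} (hQ : Q.card = k + 1) (hm : m ∈ M) (hm' : m' ∈ M) (h : m ⊆ Q)
    (h' : m' ⊆ Q) : m = m' := by
  by_contra hne
  have h1 := card_union_add_card_inter m m'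
  have h2 := card_le_card (union_subset h h')
  have h4 := hP m hm m' hm' hne
  have h5 := hM m hm
  have h6 := hM m' hm'
  omega

/-- G6 -/
theorem card_outer_le (hk : 1 ≤ k) (hM : ∀ m ∈ M, m.card = k) {f : Finset V}
    (hf : f.card = k) (hfM : f ∉ M) (Y : Finset V)
    (hY : ∀ y ∈ Y, y ∉ f ∧ ∃ m ∈ M, m ⊆ insert y f) : Y.card ≤ typ k M f := by
  have hex : ∀ y ∈ Y, ∃ m ∈ M, m ⊆ insert y f := fun y hy => (hY y hy).2
  choose! φ hφM hφ using hex
  have hmem : ∀ y ∈ Y, y ∈ φ y := by
    intro y hy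
    by_contra hc
    have h1 : φ y ⊆ f := by
      intro z hz
      have h2 := hφ y hy hz
      rw [mem_insert] at h2
      rcases h2 with h2 | h2
      · exact absurd (h2 ▸ hz) hc
      · exact h2
    have h2 : φ y = f := eq_of_subset_of_card_le h1 (by rw [hf, hM _ (hφM y hy)])
    exact hfM (h2 ▸ hφM y hy)
  unfold typ
  apply card_le_card_of_injOn φ
  · intro y hy
    rw [mem_coe, nbr, mem_filter]
    refine ⟨hφM y hy, ?_⟩
    have h1 : (φ y).erase y ⊆ f ∩ φ y := by
      intro z hz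
      rw [mem_erase] at hz
      rw [mem_inter]
      refine ⟨?_, hz.2⟩
      have h2 := hφ y hy hz.2
      rw [mem_insert] at h2
      exact h2.resolve_left hz.1
    have h2 := card_le_card h1
    rw [card_erase_of_mem (hmem y hy), hM _ (hφM y hy)] at h2
    exact h2
  · intro y hy y' hy' h
    have h1 := hmem y hy
    rw [h] at h1
    have h2 := hφ y' hy' h1
    rw [mem_insert] at h2
    exact h2.resolve_right (hY y hy).1

/-- G7 -/
theorem card_inner_le (hk : 1 ≤ k) (hM : ∀ m ∈ M, m.card = k)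
    (hP : ∀ m ∈ M, ∀ m' ∈ M, m ≠ m' → (m ∩ m').card < k - 1) {f : Finset V}
    (hf : f.card = k) (hfM : f ∉ M) (X : Finset V)
    (hX : ∀ x ∈ X, x ∈ f ∧ Under M (f.erase x)) : X.card ≤ typ k M f := by
  have hex : ∀ x ∈ X, ∃ m ∈ M, f.erase x ⊆ m := fun x hx => (hX x hx).2
  choose! φ hφM hφ using hex
  unfold typ
  apply card_le_card_of_injOn φ
  · intro x hx
    rw [mem_coe, nbr, mem_filter]
    refine ⟨hφM x hx, ?_⟩
    have h1 : f.erase x ⊆ f ∩ φ x := subset_inter (erase_subset _ _) (hφ x hx)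
    have h2 := card_le_card h1
    rw [card_erase_of_mem (hX x hx).1, hf] at h2
    exact h2
  · intro x hx x' hx' h
    by_contra hne
    have h1 : f ⊆ φ x := by
      intro z hz
      by_cases hzx : z = x
      · rw [h]
        apply hφ x' hx'
        rw [mem_erase]
        exact ⟨fun e => hne (hzx ▸ e), hz⟩
      · exact hφ x hx (mem_erase.mpr ⟨hzx, hz⟩)
    have h2 : f = φ x := eq_of_subset_of_card_le h1 (by rw [hf, hM _ (hφM x hx)])
    exact hfM (h2 ▸ hφM x hx)

/-- G8 -/
theorem common_of_three (hk : 2 ≤ k) {f g h : Finset V} (hf : f.card = k) (hg : g.card = k)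
    (hh : h.card = k) (h1 : Adj k f g) (h2 : Adj k f h) (h3 : Adj k g h) :
    f ∩ g ⊆ h ∨ h ⊆ f ∪ g := by
  by_contra hcon
  push Not at hcon
  obtain ⟨hc1, hc2⟩ := hcon
  obtain ⟨x, hx, hxh⟩ := not_subset.mp hc1
  obtain ⟨y, hy, hyfg⟩ := not_subset.mp hc2
  rw [mem_inter] at hx
  rw [mem_union, not_or] at hyfg
  have e1 : f ∩ h = h.erase y := by
    apply eq_of_subset_of_card_le
    · intro z hz
      rw [mem_inter] at hz
      rw [mem_erase]
      exact ⟨fun e => hyfg.1 (e ▸ hz.1), hz.2⟩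
    · rw [card_erase_of_mem hy, hh]; exact h2.2
  have e2 : g ∩ h = h.erase y := by
    apply eq_of_subset_of_card_le
    · intro z hz
      rw [mem_inter] at hz
      rw [mem_erase]
      exact ⟨fun e => hyfg.2 (e ▸ hz.1), hz.2⟩
    · rw [card_erase_of_mem hy, hh]; exact h3.2
  have e3 : f ∩ h = f.erase x := by
    apply eq_of_subset_of_card_le
    · intro z hz
      rw [mem_inter] at hz
      rw [mem_erase]
      exact ⟨fun e => hxh (e ▸ hz.2), hz.1⟩
    · rw [card_erase_of_mem hx.1, hf]; exact h2.2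
  have e4 : g ∩ h = g.erase x := by
    apply eq_of_subset_of_card_le
    · intro z hz
      rw [mem_inter] at hz
      rw [mem_erase]
      exact ⟨fun e => hxh (e ▸ hz.2), hz.1⟩
    · rw [card_erase_of_mem hx.2, hg]; exact h3.2
  have e5 : f.erase x = g.erase x := by rw [← e3, ← e4, e1, e2]
  apply h1.1
  rw [← insert_erase hx.1, e5, insert_erase hx.2]

/-- the ridges of `f` under `M` -/
def tr (k : ℕ) (M : Finset (Finset V)) (f : Finset V) : Finset (Finset V) :=
  (f.powersetCard (k - 1)).filter (fun S => Under M S)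

theorem card_tr (hk : 1 ≤ k) (hM : ∀ m ∈ M, m.card = k)
    (hP : ∀ m ∈ M, ∀ m' ∈ M, m ≠ m' → (m ∩ m').card < k - 1) {f : Finset V}
    (hf : f.card = k) (hfM : f ∉ M) : (tr k M f).card = typ k M f := by
  have himg : (nbr k M f).image (fun m => f ∩ m) = tr k M f := by
    ext S
    simp only [tr, mem_image, mem_filter, mem_powersetCard]
    constructor
    · rintro ⟨m, hm, rfl⟩
      refine ⟨⟨inter_subset_left, card_inter_of_mem_nbr hM hf hfM hm⟩, m, ?_, inter_subset_right⟩
      exact (mem_filter.mp hm).1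
    · rintro ⟨⟨hSf, hSc⟩, m, hm, hSm⟩
      have hsub : S ⊆ f ∩ m := subset_inter hSf hSm
      have hmn : m ∈ nbr k M f := by
        rw [nbr, mem_filter]
        exact ⟨hm, by rw [← hSc]; exact card_le_card hsub⟩
      refine ⟨m, hmn, ?_⟩
      exact (eq_of_subset_of_card_le hsub
        (by rw [card_inter_of_mem_nbr hM hf hfM hmn, hSc])).symm
  rw [← himg, card_image_of_injOn, typ]
  intro m hm m' hm' h
  exact nbr_inter_inj hM hP hf hfM hm hm' h

theorem mem_shadow {S : Finset V} : S ∈ shadow k M ↔ S.card = k - 1 ∧ Under M S := by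
  unfold shadow Under
  simp only [mem_biUnion, mem_powersetCard]
  constructor
  · rintro ⟨m, hm, hS, hc⟩
    exact ⟨hc, m, hm, hS⟩
  · rintro ⟨hc, m, hm, hS⟩
    exact ⟨m, hm, hS, hc⟩

theorem card_shadow (hk : 1 ≤ k) (hM : ∀ m ∈ M, m.card = k)
    (hP : ∀ m ∈ M, ∀ m' ∈ M, m ≠ m' → (m ∩ m').card < k - 1) :
    (shadow k M).card = k * M.card := by
  unfold shadow
  rw [card_biUnion]
  · have : ∀ m ∈ M, (m.powersetCard (k - 1)).card = k := by
      intro m hm
      rw [card_powersetCard, hM m hm]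
      obtain ⟨j, rfl⟩ : ∃ j, k = j + 1 := ⟨k - 1, by omega⟩
      simp
    rw [sum_congr rfl this, sum_const, smul_eq_mul, mul_comm]
  · intro m hm m' hm' hne
    rw [Function.onFun, disjoint_left]
    intro S hS hS'
    rw [mem_powersetCard] at hS hS'
    have h1 := card_le_card (subset_inter hS.1 hS'.1)
    have h2 := hP m hm m' hm' hne
    omega

theorem typ_pos (hk : 2 ≤ k) (hH : ∀ e ∈ H, e.card = k) (hMax : MaxPack k H M) {f : Finset V}
    (hf : f ∈ H \ M) : 1 ≤ typ k M f := by
  by_contra hcon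
  have h0 : nbr k M f = ∅ := by
    rw [← card_eq_zero]
    unfold typ at hcon
    omega
  rw [mem_sdiff] at hf
  have hlt : ∀ m ∈ M, (f ∩ m).card < k - 1 := by
    intro m hm
    by_contra hc
    have : m ∈ nbr k M f := by
      rw [nbr, mem_filter]
      exact ⟨hm, by omega⟩
    rw [h0] at this
    simp at this
  have hpack : Pack k H (insert f M) := by
    refine ⟨?_, ?_⟩
    · rw [insert_subset_iff]
      exact ⟨hf.1, hMax.1.1⟩
    · intro e he g hg hne
      rw [mem_insert] at he hg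
      rcases he with rfl | he
      · rcases hg with rfl | hg
        · exact absurd rfl hne
        · exact hlt g hg
      · rcases hg with rfl | hg
        · rw [inter_comm]; exact hlt e he
        · exact hMax.1.2 e he g hg hne
  have h1 := hMax.2 _ hpack
  rw [card_insert_of_notMem hf.2] at h1
  omega

/-- exchange: a packing outside `M` all of whose neighbours in `M` lie in `M₀` is at most as
large as `M₀` -/
theorem exchange (hMax : MaxPack k H M) {M₀ P : Finset (Finset V)} (hM₀ : M₀ ⊆ M)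
    (hP : P ⊆ H \ M) (hind : ∀ f ∈ P, ∀ g ∈ P, ¬ Adj k f g)
    (hN : ∀ f ∈ P, nbr k M f ⊆ M₀) : P.card ≤ M₀.card := by
  have hdisj : Disjoint (M \ M₀) P := by
    rw [disjoint_left]
    intro e he he'
    exact (mem_sdiff.mp (hP he')).2 (mem_sdiff.mp he).1
  have hcross : ∀ f ∈ P, ∀ m ∈ M \ M₀, (f ∩ m).card < k - 1 := by
    intro f hf m hm
    rw [mem_sdiff] at hm
    by_contra hc
    have : m ∈ nbr k M f := by
      rw [nbr, mem_filter]
      exact ⟨hm.1, by omega⟩
    exact hm.2 (hN f hf this)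
  have hpack : Pack k H (M \ M₀ ∪ P) := by
    refine ⟨?_, ?_⟩
    · apply union_subset
      · exact sdiff_subset.trans hMax.1.1
      · exact hP.trans sdiff_subset
    · intro e he g hg hne
      rw [mem_union] at he hg
      rcases he with he | he
      · rcases hg with hg | hg
        · exact hMax.1.2 e (mem_sdiff.mp he).1 g (mem_sdiff.mp hg).1 hne
        · rw [inter_comm]; exact hcross g hg e he
      · rcases hg with hg | hg
        · exact hcross e he g hg
        · by_contra hc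
          exact hind e he g hg ⟨hne, by omega⟩
  have h1 := hMax.2 _ hpack
  rw [card_union_of_disjoint hdisj, card_sdiff_of_subset hM₀] at h1
  have h2 := card_le_card hM₀
  omega

end Pool.Agent.Helper60.GT
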