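import Pool.Agent.Helper60.GT.Defs

/-!
# Module TY: all types between 2 and J

For `J ≤ 1` the family is empty (`U = C = ∅`). Otherwise `I = Nat.log 2 J`, windows
`a = 2^i`, `b = 2^(i+1) - 1`, `i = 1, ..., I`; they cover `2..J`, `b ≤ 2J - 1`. `η = 1/1000`.
`40*8^b δ^(a-1) = 320 (64 δ)^(a-1) ≤ 320*64 δ ≤ 1/1000`. `θ₀ = (160000 b^2 8^b/k)^(1/(b-1))`
(real power), so `η k θ₀^(b-1) = 160 b^2 8^b`. For `k` large `160000 b^2 8^b ≤ √k` uniformly in
`b ≤ 2J ≤ 2 log k/210000`, so `θ₀ ≤ k^(-1/(2(b-1))) = exp(-log k/(2(b-1))) ≤ 2(b-1)/log k`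
(`exp(-x) ≤ 1/x`) and `θ₀ ≤ 1`. Sums over `i`:
`∑ 513 δ k θ₀ ≤ 513 δ k ∑ 2*2^(i+1)/log k ≤ 513 δ k * 8J/log k ≤ δ k/50`;
`∑ 128/b (η/2^b) ≤ η (128/3) ∑ 2^(-(2i+1)) ≤ (128/18) η ≤ 1/100` (`b ≥ 2i+1`);
`∑ (b clog + 2)(10240 b 4^b) ≤ J (2J clog + 2)(20480 J 16^J) ≤ k/10` for `k ≥ k₀`
(`16^J ≤ k^(3/210000)`, `clog 2 (256k) ≤ 9 + 2 log k`).
-/

set_option autoImplicit false

open Finset

namespace Pool.Agent.Helper60.GT

lemma ty_exp_big {L : ℝ} (hL : 2 * 10 ^ 15 ≤ L) : 10 ^ 10 * L ^ 4 ≤ Real.exp (L / 4) := by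
  have hL0 : 0 ≤ L / 4 := by
    have : (0 : ℝ) ≤ 2 * 10 ^ 15 := by norm_num
    linarith
  have h1 := Real.pow_div_factorial_le_exp (L / 4) hL0 5
  have h2 : (Nat.factorial 5 : ℝ) = 120 := by norm_num [Nat.factorial]
  rw [h2] at h1
  refine le_trans ?_ h1
  have h3 : (L / 4) ^ 5 / 120 = L ^ 4 * (L / 122880) := by ring
  rw [h3]
  have h4 : 0 ≤ L ^ 4 := by positivity
  have h5 : (10 : ℝ) ^ 10 ≤ L / 122880 := by
    rw [le_div_iff₀ (by norm_num)]
    refine le_trans ?_ hL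
    norm_num
  nlinarith [mul_le_mul_of_nonneg_left h5 h4]

lemma ty_eight_pow (b : ℕ) {L : ℝ} (hb : (b : ℝ) ≤ 2 * (L / 210000)) (hL : 0 ≤ L) :
    (8 : ℝ) ^ b ≤ Real.exp (L / 4) := by
  have h1 : (2 : ℝ) ≤ Real.exp 1 := by
    have := Real.add_one_le_exp (1 : ℝ)
    linarith
  have h2 : (8 : ℝ) ≤ Real.exp 3 := by
    have : Real.exp 3 = Real.exp 1 ^ 3 := by
      rw [← Real.exp_nat_mul]; norm_num
    rw [this]
    have := pow_le_pow_left₀ (by norm_num) h1 3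
    linarith
  calc (8 : ℝ) ^ b ≤ Real.exp 3 ^ b := pow_le_pow_left₀ (by norm_num) h2 b
    _ = Real.exp (b * 3) := by rw [← Real.exp_nat_mul]
    _ ≤ Real.exp (L / 4) := by
        apply Real.exp_le_exp.mpr
        linarith

lemma ty_window {k b : ℕ} {L : ℝ} (hk : (k : ℝ) = Real.exp L) (hL : 2 * 10 ^ 15 ≤ L)
    (hb : 3 ≤ b) (hbL : (b : ℝ) ≤ 2 * (L / 210000)) :
    (∃ θ : ℝ, 0 < θ ∧ θ ≤ 1 ∧ 1 / 1000 * k * θ ^ (b - 1) = 160 * (b : ℝ) ^ 2 * 8 ^ b ∧
      θ ≤ 2 * ((b : ℝ) - 1) / L) ∧ (40 : ℝ) * 4 ^ b ≤ k := by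
  have hL0 : 0 < L := by
    have : (0 : ℝ) < 2 * 10 ^ 15 := by norm_num
    linarith
  have h8 := ty_eight_pow b hbL hL0.le
  have hbig := ty_exp_big hL
  have hL1 : 1 ≤ L := by
    have : (1 : ℝ) ≤ 2 * 10 ^ 15 := by norm_num
    linarith
  have hb3 : (3 : ℝ) ≤ b := by exact_mod_cast hb
  have hbL' : (b : ℝ) ≤ L := by linarith
  have hexp2 : Real.exp (L / 4) * Real.exp (L / 4) = Real.exp (L / 2) := by
    rw [← Real.exp_add]; congr 1; ring
  have hL2 : L ^ 2 ≤ L ^ 4 := pow_le_pow_right₀ hL1 (by norm_num)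
  have hx : 160000 * (b : ℝ) ^ 2 * 8 ^ b ≤ Real.exp (L / 2) := by
    rw [← hexp2]
    have h1 : 160000 * (b : ℝ) ^ 2 ≤ Real.exp (L / 4) := by
      have : (b : ℝ) ^ 2 ≤ L ^ 2 := pow_le_pow_left₀ (by positivity) hbL' 2
      have h10 : (160000 : ℝ) * L ^ 4 ≤ 10 ^ 10 * L ^ 4 := by
        apply mul_le_mul_of_nonneg_right (by norm_num) (by positivity)
      linarith
    exact mul_le_mul h1 h8 (by positivity) (by positivity)
  constructor
  · set x : ℝ := 160000 * (b : ℝ) ^ 2 * 8 ^ b / k with hxdef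
    have hkpos : (0 : ℝ) < k := by rw [hk]; exact Real.exp_pos _
    have hxpos : 0 < x := by
      rw [hxdef]; positivity
    have hxle : x ≤ Real.exp (-(L / 2)) := by
      rw [hxdef, div_le_iff₀ hkpos, hk, ← Real.exp_add]
      have : -(L / 2) + L = L / 2 := by ring
      rw [this]; exact hx
    have hlog : Real.log x ≤ -(L / 2) := by
      rw [Real.log_le_iff_le_exp hxpos]; exact hxle
    have hb1 : (0 : ℝ) < (b : ℝ) - 1 := by linarith
    have hcast : ((b - 1 : ℕ) : ℝ) = (b : ℝ) - 1 := by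
      rw [Nat.cast_sub (by omega)]; norm_num
    refine ⟨Real.exp (Real.log x / ((b : ℝ) - 1)), Real.exp_pos _, ?_, ?_, ?_⟩
    · rw [Real.exp_le_one_iff]
      apply div_nonpos_of_nonpos_of_nonneg
      · linarith
      · linarith
    · rw [← Real.exp_nat_mul, hcast, mul_div_cancel₀ _ (ne_of_gt hb1), Real.exp_log hxpos, hxdef]
      field_simp
      ring
    · have hy : Real.log x / ((b : ℝ) - 1) ≤ -(L / (2 * ((b : ℝ) - 1))) := by
        rw [div_le_iff₀ hb1]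
        have : -(L / (2 * ((b : ℝ) - 1))) * ((b : ℝ) - 1) = -(L / 2) := by
          field_simp
        rw [this]; exact hlog
      refine le_trans (Real.exp_le_exp.mpr hy) ?_
      have hypos : 0 < L / (2 * ((b : ℝ) - 1)) := by positivity
      rw [Real.exp_neg]
      have h1 : L / (2 * ((b : ℝ) - 1)) ≤ Real.exp (L / (2 * ((b : ℝ) - 1))) := by
        have := Real.add_one_le_exp (L / (2 * ((b : ℝ) - 1)))
        linarith
      calc (Real.exp (L / (2 * ((b : ℝ) - 1))))⁻¹ ≤ (L / (2 * ((b : ℝ) - 1)))⁻¹ :=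
            inv_anti₀ hypos h1
        _ = 2 * ((b : ℝ) - 1) / L := by rw [inv_div]
  · have h4 : (4 : ℝ) ^ b ≤ 8 ^ b := pow_le_pow_left₀ (by norm_num) (by norm_num) b
    have h5 : Real.exp (L / 2) ≤ Real.exp L := Real.exp_le_exp.mpr (by linarith)
    rw [hk]
    refine le_trans ?_ h5
    refine le_trans ?_ hx
    have hb2 : (1 : ℝ) ≤ (b : ℝ) ^ 2 := by nlinarith
    have h80 : (0 : ℝ) < 8 ^ b := by positivity
    calc (40 : ℝ) * 4 ^ b ≤ 40 * 8 ^ b := by linarith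
      _ ≤ 160000 * 1 * 8 ^ b := by linarith
      _ ≤ 160000 * (b : ℝ) ^ 2 * 8 ^ b := by
        apply mul_le_mul_of_nonneg_right _ h80.le
        linarith

lemma ty_delta {δ : ℝ} (h0 : 0 < δ) (h1 : δ ≤ 1 / (3 * 10 ^ 7)) (a b : ℕ) (ha : 2 ≤ a)
    (hab : b + 1 = 2 * a) : 40 * (8 : ℝ) ^ b * δ ^ (a - 1) ≤ 1 / 1000 := by
  obtain ⟨c, rfl⟩ : ∃ c, a = c + 2 := ⟨a - 2, by omega⟩
  have hb : b = 2 * c + 3 := by omega
  subst hb
  have e1 : (8 : ℝ) ^ (2 * c + 3) = 512 * 64 ^ c := by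
    rw [pow_add, pow_mul]; norm_num; ring
  have e2 : c + 2 - 1 = c + 1 := by omega
  rw [e1, e2, pow_succ]
  have e3 : 40 * (512 * (64 : ℝ) ^ c) * (δ ^ c * δ) = 20480 * (64 * δ) ^ c * δ := by
    rw [mul_pow]; ring
  rw [e3]
  have h64 : 64 * δ ≤ 1 := by
    have : (64 : ℝ) * (1 / (3 * 10 ^ 7)) ≤ 1 := by norm_num
    linarith
  have hp : (64 * δ) ^ c ≤ 1 := pow_le_one₀ (by positivity) h64
  calc 20480 * (64 * δ) ^ c * δ ≤ 20480 * 1 * δ := by
        apply mul_le_mul_of_nonneg_right _ h0.le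
        linarith
    _ ≤ 20480 * 1 * (1 / (3 * 10 ^ 7)) := by
        apply mul_le_mul_of_nonneg_left h1 (by norm_num)
    _ ≤ 1 / 1000 := by norm_num

lemma ty_clog {k : ℕ} {L : ℝ} (hk : (k : ℝ) = Real.exp L) (hL : 9 ≤ L) :
    (Nat.clog 2 (256 * k) : ℝ) ≤ 3 * L := by
  have hkpos : 0 < k := by
    have : (0 : ℝ) < k := by rw [hk]; exact Real.exp_pos _
    exact_mod_cast this
  have h1 : 2 ^ (Nat.clog 2 (256 * k) - 1) < 256 * k :=
    Nat.pow_pred_clog_lt_self (by norm_num) (by omega)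
  have h2 : ((2 : ℝ)) ^ (Nat.clog 2 (256 * k) - 1) < 256 * k := by exact_mod_cast h1
  have h3 : Real.log ((2 : ℝ) ^ (Nat.clog 2 (256 * k) - 1)) ≤ Real.log (256 * k) :=
    Real.log_le_log (by positivity) h2.le
  rw [Real.log_pow, Real.log_mul (by norm_num) (by positivity), hk, Real.log_exp] at h3
  have h4 : Real.log 256 = 8 * Real.log 2 := by
    rw [show (256 : ℝ) = 2 ^ 8 by norm_num, Real.log_pow]; norm_num
  rw [h4] at h3
  have h5 : (Nat.clog 2 (256 * k) : ℝ) ≤ ((Nat.clog 2 (256 * k) - 1 : ℕ) : ℝ) + 1 := by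
    have : Nat.clog 2 (256 * k) ≤ (Nat.clog 2 (256 * k) - 1) + 1 := by omega
    exact_mod_cast this
  have hl2 : 1 / 2 < Real.log 2 := by
    have := Real.log_two_gt_d9; linarith
  have hl2' : 0 < Real.log 2 := by linarith
  set n : ℝ := ((Nat.clog 2 (256 * k) - 1 : ℕ) : ℝ)
  have h6 : (n - 8) * Real.log 2 ≤ L := by linarith
  have h7 : n - 8 ≤ 2 * L := by
    by_contra hcon
    push Not at hcon
    have : 2 * L * Real.log 2 < (n - 8) * Real.log 2 := mul_lt_mul_of_pos_right hcon hl2'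
    nlinarith
  linarith

lemma ty_sum_pow (I : ℕ) : ∑ i ∈ range I, (2 : ℝ) ^ (i + 2) = 4 * 2 ^ I - 4 := by
  induction I with
  | zero => norm_num
  | succ n ih => rw [sum_range_succ, ih]; ring

lemma ty_sum_quarter (I : ℕ) :
    ∑ i ∈ range I, (1 / 4 : ℝ) ^ i = 4 / 3 * (1 - (1 / 4) ^ I) := by
  induction I with
  | zero => norm_num
  | succ n ih => rw [sum_range_succ, ih]; ring

lemma ty_b_lower (i : ℕ) : 2 * i + 4 ≤ 2 ^ (i + 2) := by
  induction i with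
  | zero => norm_num
  | succ n ih =>
    have : 2 ^ (n + 1 + 2) = 2 * 2 ^ (n + 2) := by ring
    omega

lemma ty_wsum (i : ℕ) : 128 / ((2 ^ (i + 2) - 1 : ℕ) : ℝ) * (1 / 1000 / 2 ^ (2 ^ (i + 2) - 1)) ≤
    16 / 3000 * (1 / 4) ^ i := by
  have h := ty_b_lower i
  set b : ℕ := 2 ^ (i + 2) - 1 with hb
  have hb3 : 3 ≤ b := by omega
  have hbi : 2 * i + 3 ≤ b := by omega
  have h1 : 128 / (b : ℝ) ≤ 128 / 3 := by
    apply div_le_div_of_nonneg_left (by norm_num) (by norm_num)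
    exact_mod_cast hb3
  have h2 : (2 : ℝ) ^ (2 * i + 3) ≤ 2 ^ b := pow_le_pow_right₀ (by norm_num) hbi
  have h3 : 1 / 1000 / (2 : ℝ) ^ b ≤ 1 / 1000 / 2 ^ (2 * i + 3) :=
    div_le_div_of_nonneg_left (by norm_num) (by positivity) h2
  have h4 : 1 / 1000 / (2 : ℝ) ^ (2 * i + 3) = 1 / 8000 * (1 / 4) ^ i := by
    rw [pow_add, pow_mul, one_div_pow]
    norm_num
    ring
  calc 128 / (b : ℝ) * (1 / 1000 / 2 ^ b) ≤ 128 / 3 * (1 / 8000 * (1 / 4) ^ i) := by
        rw [← h4]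
        apply mul_le_mul h1 h3 (by positivity) (by norm_num)
    _ = 16 / 3000 * (1 / 4) ^ i := by ring

lemma ty_sum_biUnion {α : Type} [DecidableEq α] (I : ℕ) (F : ℕ → Finset α) (w : α → ℝ)
    (hw : ∀ x, 0 ≤ w x) :
    ∑ x ∈ (range I).biUnion F, w x ≤ ∑ i ∈ range I, ∑ x ∈ F i, w x := by
  induction I with
  | zero => simp
  | succ n ih =>
    rw [range_add_one, biUnion_insert, sum_insert notMem_range_self]
    have h1 := sum_union_inter (s₁ := F n) (s₂ := (range n).biUnion F) (f := w)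
    have h2 : 0 ≤ ∑ x ∈ F n ∩ (range n).biUnion F, w x := sum_nonneg (fun x _ => hw x)
    linarith

/-- A wrapper for the largeness assumption. -/
def TyBig (L : ℝ) : Prop := 2 * 10 ^ 15 ≤ L

theorem types (hW : StWindow) : StTypes := by
  classical
  refine ⟨max 3 ⌈Real.exp (2 * 10 ^ 15)⌉₊, ?_⟩
  intro k hk J hJ δ hδ0 hδ1 V _ H M hH hM
  have hk3 : 3 ≤ k := le_trans (le_max_left _ _) hk
  have hkE : Real.exp (2 * 10 ^ 15) ≤ k :=
    le_trans (Nat.le_ceil _) (by exact_mod_cast le_trans (le_max_right _ _) hk)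
  obtain ⟨L, hLdef⟩ : ∃ L : ℝ, L = Real.log k := ⟨_, rfl⟩
  rw [← hLdef] at hJ
  have hkpos : (0 : ℝ) < k := lt_of_lt_of_le (Real.exp_pos _) hkE
  have hkL : (k : ℝ) = Real.exp L := by rw [hLdef]; exact (Real.exp_log hkpos).symm
  have hL : 2 * 10 ^ 15 ≤ L := by
    rw [hLdef, Real.le_log_iff_exp_le hkpos]; exact hkE
  have hL0 : 0 < L := by
    have : (0 : ℝ) < 2 * 10 ^ 15 := by norm_num
    linarith
  have hL9 : 9 ≤ L := by
    have : (9 : ℝ) ≤ 2 * 10 ^ 15 := by norm_num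
    linarith
  have hLB : TyBig L := hL
  clear hkE hk hL hLdef
  have hMc : (0 : ℝ) ≤ (M.card : ℝ) := by positivity
  have hδle1 : δ ≤ 1 := by
    have : (1 : ℝ) / (3 * 10 ^ 7) ≤ 1 := by norm_num
    linarith
  rcases Nat.lt_or_ge J 2 with hJ2 | hJ2
  · refine ⟨∅, ∅, by simp, by simp, ?_, ?_, ?_⟩
    · simp only [card_empty, Nat.cast_zero]; positivity
    · simp only [card_empty, Nat.cast_zero]; positivity
    · have : ((H \ M).filter (fun f => (2 ≤ typ k M f ∧ typ k M f ≤ J) ∧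
          (∀ S ∈ (∅ : Finset (Finset V)), ¬ S ⊆ f) ∧
          ∀ R ∈ (∅ : Finset (Finset V)), ¬ R ⊆ f)) = ∅ := by
        apply filter_eq_empty_iff.mpr
        rintro f - ⟨⟨h1, h2⟩, -⟩
        omega
      rw [this]
      simp only [wt, sum_empty]
      positivity
  -- the windows
  have hpow : ∀ i, i < Nat.log 2 J → 2 ^ (i + 1) ≤ J := by
    intro i hi
    calc 2 ^ (i + 1) ≤ 2 ^ Nat.log 2 J := Nat.pow_le_pow_right (by norm_num) hi
      _ ≤ J := Nat.pow_log_le_self 2 (by omega)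
  have key : ∀ i, i < Nat.log 2 J → ∃ U C : Finset (Finset V), U ⊆ shadow k M ∧
      (∀ R ∈ C, R.card = k - 1) ∧
      (U.card : ℝ) ≤ 40960 * L ^ 3 * Real.exp (L / 4) * M.card ∧
      (C.card : ℝ) ≤ 513 * δ * k * (2 * 2 ^ (i + 2) / L) * M.card ∧
      wt k M ((H \ M).filter (fun f => (2 ^ (i + 1) ≤ typ k M f ∧
        typ k M f ≤ 2 ^ (i + 2) - 1) ∧ (∀ S ∈ U, ¬ S ⊆ f) ∧ ∀ R ∈ C, ¬ R ⊆ f)) δ ≤
          16 / 3000 * (1 / 4) ^ i * δ * k * M.card := by
    intro i hi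
    have h4 := ty_b_lower i
    have hJi := hpow i hi
    have hpp : 2 ^ (i + 2) = 2 * 2 ^ (i + 1) := by ring
    have h2i : 1 ≤ 2 ^ i := Nat.one_le_two_pow
    have hpp1 : 2 ^ (i + 1) = 2 * 2 ^ i := by ring
    set b : ℕ := 2 ^ (i + 2) - 1 with hbdef
    have hb3 : 3 ≤ b := by omega
    have hbJ : b ≤ 2 * J := by omega
    have hbL : (b : ℝ) ≤ 2 * (L / 210000) := by
      have : (b : ℝ) ≤ 2 * (J : ℝ) := by exact_mod_cast hbJ
      linarith
    obtain ⟨⟨θ, hθ0, hθ1, hθe, hθL⟩, h40⟩ := ty_window hkL hLB hb3 hbL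
    have hd : 40 * (8 : ℝ) ^ b * δ ^ (2 ^ (i + 1) - 1) ≤ 1 / 1000 :=
      ty_delta hδ0 hδ1 _ _ (by omega) (by omega)
    obtain ⟨U, C, hU, hC, hUc, hCc, hwt⟩ := hW V k (2 ^ (i + 1)) b H M δ (1 / 1000) θ
      (by omega) hb3 (by omega) (by omega) hH hM hδ0 hδle1 (by norm_num) hθ0 hθ1 hθe h40 hd
    refine ⟨U, C, hU, hC, le_trans hUc ?_, le_trans hCc ?_, le_trans hwt ?_⟩
    · apply mul_le_mul_of_nonneg_right _ hMc
      have hcl := ty_clog hkL hL9
      have hbL' : (b : ℝ) ≤ L := by linarith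
      have h8 := ty_eight_pow b hbL hL0.le
      have h48 : (4 : ℝ) ^ b ≤ Real.exp (L / 4) :=
        le_trans (pow_le_pow_left₀ (by norm_num) (by norm_num) b) h8
      have hb0 : (0 : ℝ) ≤ b := by positivity
      have hc0 : (0 : ℝ) ≤ (Nat.clog 2 (256 * k) : ℝ) := by positivity
      have h1 : (b : ℝ) * (Nat.clog 2 (256 * k) : ℝ) + 2 ≤ 4 * L ^ 2 := by
        have := mul_le_mul hbL' hcl hc0 hL0.le
        nlinarith
      have h2 : 10240 * (b : ℝ) * 4 ^ b ≤ 10240 * L * Real.exp (L / 4) := by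
        apply mul_le_mul _ h48 (by positivity) (by positivity)
        linarith
      calc ((b : ℝ) * (Nat.clog 2 (256 * k) : ℝ) + 2) * (10240 * b * 4 ^ b) ≤
          (4 * L ^ 2) * (10240 * L * Real.exp (L / 4)) :=
            mul_le_mul h1 h2 (by positivity) (by positivity)
        _ = 40960 * L ^ 3 * Real.exp (L / 4) := by ring
    · apply mul_le_mul_of_nonneg_right _ hMc
      apply mul_le_mul_of_nonneg_left _ (by positivity)
      refine le_trans hθL ?_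
      apply div_le_div_of_nonneg_right _ hL0.le
      have : (b : ℝ) ≤ 2 ^ (i + 2) := by
        have : b ≤ 2 ^ (i + 2) := by omega
        exact_mod_cast this
      linarith
    · have hws := ty_wsum i
      rw [← hbdef] at hws
      apply mul_le_mul_of_nonneg_right _ hMc
      apply mul_le_mul_of_nonneg_right _ hkpos.le
      apply mul_le_mul_of_nonneg_right _ hδ0.le
      exact hws
  choose! U C hU hC hUc hCc hwt using key
  set I := Nat.log 2 J with hI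
  have hIJ : (I : ℝ) ≤ J := by
    have : I ≤ J := Nat.log_le_self 2 J
    exact_mod_cast this
  have hJL : (J : ℝ) ≤ L := by linarith
  refine ⟨(range I).biUnion U, (range I).biUnion C, ?_, ?_, ?_, ?_, ?_⟩
  · intro S hS
    rw [mem_biUnion] at hS
    obtain ⟨i, hi, hS⟩ := hS
    exact hU i (mem_range.mp hi) hS
  · intro R hR
    rw [mem_biUnion] at hR
    obtain ⟨i, hi, hR⟩ := hR
    exact hC i (mem_range.mp hi) R hR
  · have h1 : (((range I).biUnion U).card : ℝ) ≤ ∑ i ∈ range I, ((U i).card : ℝ) := by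
      exact_mod_cast card_biUnion_le
    have h2 : ∑ i ∈ range I, ((U i).card : ℝ) ≤
        ∑ i ∈ range I, 40960 * L ^ 3 * Real.exp (L / 4) * M.card :=
      sum_le_sum (fun i hi => hUc i (mem_range.mp hi))
    rw [sum_const, card_range, nsmul_eq_mul] at h2
    have hbig := ty_exp_big hLB
    have hexp : Real.exp (L / 4) * Real.exp (L / 4) ≤ Real.exp L := by
      rw [← Real.exp_add]
      apply Real.exp_le_exp.mpr
      linarith
    have h3 : (I : ℝ) * (40960 * L ^ 3 * Real.exp (L / 4) * M.card) ≤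
        (40960 * L ^ 4 * Real.exp (L / 4)) * M.card := by
      have : (I : ℝ) ≤ L := le_trans hIJ hJL
      calc (I : ℝ) * (40960 * L ^ 3 * Real.exp (L / 4) * M.card) ≤
          L * (40960 * L ^ 3 * Real.exp (L / 4) * M.card) :=
            mul_le_mul_of_nonneg_right this (by positivity)
        _ = _ := by ring
    have h4 : 40960 * L ^ 4 * Real.exp (L / 4) ≤ (k : ℝ) / 10 := by
      rw [hkL]
      have h5 : 40960 * L ^ 4 ≤ Real.exp (L / 4) / 10 := by
        have : (0 : ℝ) ≤ L ^ 4 := by positivity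
        nlinarith
      have h6 := mul_le_mul_of_nonneg_right h5 (Real.exp_pos (L / 4)).le
      calc 40960 * L ^ 4 * Real.exp (L / 4) ≤ Real.exp (L / 4) / 10 * Real.exp (L / 4) := h6
        _ = (Real.exp (L / 4) * Real.exp (L / 4)) / 10 := by ring
        _ ≤ _ := by linarith
    have h7 := mul_le_mul_of_nonneg_right h4 hMc
    linarith
  · have h1 : (((range I).biUnion C).card : ℝ) ≤ ∑ i ∈ range I, ((C i).card : ℝ) := by
      exact_mod_cast card_biUnion_le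
    have h2 : ∑ i ∈ range I, ((C i).card : ℝ) ≤
        ∑ i ∈ range I, 513 * δ * k * (2 * 2 ^ (i + 2) / L) * M.card :=
      sum_le_sum (fun i hi => hCc i (mem_range.mp hi))
    have h3 : ∑ i ∈ range I, 513 * δ * k * (2 * 2 ^ (i + 2) / L) * (M.card : ℝ) =
        (513 * δ * k * (2 / L) * M.card) * ∑ i ∈ range I, (2 : ℝ) ^ (i + 2) := by
      rw [mul_sum]
      apply sum_congr rfl
      intro i _
      ring
    have h4 : (2 : ℝ) ^ I ≤ J := by
      have : 2 ^ I ≤ J := Nat.pow_log_le_self 2 (by omega)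
      exact_mod_cast this
    rw [h3, ty_sum_pow] at h2
    have h5 : 4 * (2 : ℝ) ^ I - 4 ≤ 4 * (L / 210000) := by linarith
    have h6 : (513 * δ * k * (2 / L) * M.card) * (4 * (2 : ℝ) ^ I - 4) ≤
        (513 * δ * k * (2 / L) * M.card) * (4 * (L / 210000)) :=
      mul_le_mul_of_nonneg_left h5 (by positivity)
    have h7 : (513 * δ * k * (2 / L) * M.card) * (4 * (L / 210000)) =
        (4104 / 210000) * (δ * k * M.card) := by
      field_simp
      ring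
    have h8 : (4104 / 210000 : ℝ) * (δ * k * M.card) ≤ 1 / 50 * (δ * k * M.card) :=
      mul_le_mul_of_nonneg_right (by norm_num) (by positivity)
    have h9 : 1 / 50 * (δ * k * (M.card : ℝ)) = 1 / 50 * δ * k * M.card := by ring
    linarith
  · have hsub : ((H \ M).filter (fun f => (2 ≤ typ k M f ∧ typ k M f ≤ J) ∧
          (∀ S ∈ (range I).biUnion U, ¬ S ⊆ f) ∧
          ∀ R ∈ (range I).biUnion C, ¬ R ⊆ f)) ⊆
        (range I).biUnion (fun i => (H \ M).filter (fun f => (2 ^ (i + 1) ≤ typ k M f ∧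
          typ k M f ≤ 2 ^ (i + 2) - 1) ∧ (∀ S ∈ U i, ¬ S ⊆ f) ∧ ∀ R ∈ C i, ¬ R ⊆ f)) := by
      intro f hf
      rw [mem_filter] at hf
      obtain ⟨hfH, ⟨h2, hfJ⟩, hfU, hfC⟩ := hf
      rw [mem_biUnion]
      have hl1 : 1 ≤ Nat.log 2 (typ k M f) :=
        Nat.log_pos (by norm_num) h2
      have hl2 : Nat.log 2 (typ k M f) ≤ I := Nat.log_mono_right hfJ
      have hp1 : 2 ^ Nat.log 2 (typ k M f) ≤ typ k M f :=
        Nat.pow_log_le_self 2 (by omega)
      have hp2 : typ k M f < 2 ^ (Nat.log 2 (typ k M f) + 1) :=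
        Nat.lt_pow_succ_log_self (by norm_num) _
      obtain ⟨i, hi⟩ : ∃ i, Nat.log 2 (typ k M f) = i + 1 := ⟨_, (Nat.sub_add_cancel hl1).symm⟩
      rw [hi] at hp1 hp2 hl2
      have hiI : i ∈ range I := mem_range.mpr (by omega)
      refine ⟨i, hiI, ?_⟩
      rw [mem_filter]
      refine ⟨hfH, ⟨hp1, ?_⟩, ?_, ?_⟩
      · have : 2 ^ (i + 1 + 1) = 2 ^ (i + 2) := rfl
        omega
      · intro S hS
        exact hfU S (mem_biUnion.mpr ⟨i, hiI, hS⟩)
      · intro R hR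
        exact hfC R (mem_biUnion.mpr ⟨i, hiI, hR⟩)
    have h1 : wt k M ((H \ M).filter (fun f => (2 ≤ typ k M f ∧ typ k M f ≤ J) ∧
          (∀ S ∈ (range I).biUnion U, ¬ S ⊆ f) ∧
          ∀ R ∈ (range I).biUnion C, ¬ R ⊆ f)) δ ≤
        ∑ i ∈ range I, wt k M ((H \ M).filter (fun f => (2 ^ (i + 1) ≤ typ k M f ∧
          typ k M f ≤ 2 ^ (i + 2) - 1) ∧ (∀ S ∈ U i, ¬ S ⊆ f) ∧ ∀ R ∈ C i, ¬ R ⊆ f)) δ := by
      unfold wt
      refine le_trans (sum_le_sum_of_subset_of_nonneg hsub (fun f _ _ => by positivity)) ?_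
      exact ty_sum_biUnion I _ (fun f => δ ^ typ k M f) (fun f => by positivity)
    refine le_trans h1 ?_
    refine le_trans (sum_le_sum (fun i hi => hwt i (mem_range.mp hi))) ?_
    have h3 : ∑ i ∈ range I, 16 / 3000 * (1 / 4) ^ i * δ * k * (M.card : ℝ) =
        (16 / 3000 * δ * k * M.card) * ∑ i ∈ range I, (1 / 4 : ℝ) ^ i := by
      rw [mul_sum]
      apply sum_congr rfl
      intro i _
      ring
    rw [h3, ty_sum_quarter]
    have h4 : 4 / 3 * (1 - (1 / 4 : ℝ) ^ I) ≤ 4 / 3 := by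
      have : (0 : ℝ) ≤ (1 / 4) ^ I := by positivity
      linarith
    have h5 := mul_le_mul_of_nonneg_left h4
      (show 0 ≤ 16 / 3000 * δ * k * (M.card : ℝ) by positivity)
    have h6 : 16 / 3000 * δ * k * (M.card : ℝ) * (4 / 3) = (64 / 9000) * (δ * k * M.card) := by
      ring
    have h8 : (64 / 9000 : ℝ) * (δ * k * M.card) ≤ 1 / 100 * (δ * k * M.card) :=
      mul_le_mul_of_nonneg_right (by norm_num) (by positivity)
    have h9 : 1 / 100 * (δ * k * (M.card : ℝ)) = 1 / 100 * δ * k * M.card := by ring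
    linarith

end Pool.Agent.Helper60.GT
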