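import Pool.Agent.Helper60.GT.Defs

/-!
# Module AK: linear form of the bound for arbitrary graphs

Let `F'` be the set of `v ∈ F` whose degree in `F` is at most `2^(b+2)` and which lie in no
triangle of `F`. The number of `v` of degree `> 2^(b+2)` is at most `e / 2^(b+2)`, `e` the number
of ordered adjacent pairs (`∑ v, deg v = e`); the number of `v` in triangles is at most the number
of ordered triangles (injection into the filtered product, or `card_le_card_of_surjOn`, or sums of
indicators). Apply the hypothesis to `F'`.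
-/

set_option autoImplicit false

open Finset

namespace Pool.Agent.Helper60.GT

theorem aks (hA : StAlon) : StAks := by
  classical
  intro ι _ F A _ b hsym hirr
  set B1 := F.filter fun v => 2 ^ (b + 2) < (F.filter fun u => A v u).card with hB1
  set B2 := F.filter fun v => ∃ y ∈ F, ∃ z ∈ F, A v y ∧ A y z ∧ A v z with hB2
  set F' := F \ (B1 ∪ B2) with hF'
  have hF'F : F' ⊆ F := Finset.sdiff_subset
  have hno : ∀ v ∈ F', v ∉ B1 ∧ v ∉ B2 := by
    intro v hv
    rw [hF', Finset.mem_sdiff, Finset.mem_union, not_or] at hv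
    exact hv.2
  obtain ⟨P, hPF, hPi, hPc⟩ := hA ι F' A b hsym hirr
    (by
      intro v hv
      have h1 := (hno v hv).1
      rw [hB1, Finset.mem_filter, not_and, not_lt] at h1
      exact (Finset.card_le_card (Finset.filter_subset_filter _ hF'F)).trans (h1 (hF'F hv)))
    (by
      intro x hx y hy z hz hxy hyz hxz
      apply (hno x hx).2
      rw [hB2, Finset.mem_filter]
      exact ⟨hF'F hx, y, hF'F hy, z, hF'F hz, hxy, hyz, hxz⟩)
  refine ⟨P, hPF.trans hF'F, hPi, le_trans ?_ hPc⟩
  have hc0 : (0 : ℝ) ≤ (b : ℝ) / (32 * 2 ^ b) := by positivity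
  refine mul_le_mul_of_nonneg_left ?_ hc0
  -- triangles
  have ht : B2.card ≤ ((F ×ˢ F ×ˢ F).filter
      (fun p => A p.1 p.2.1 ∧ A p.2.1 p.2.2 ∧ A p.1 p.2.2)).card := by
    have h1 : B2 ⊆ ((F ×ˢ F ×ˢ F).filter
        (fun p => A p.1 p.2.1 ∧ A p.2.1 p.2.2 ∧ A p.1 p.2.2)).image Prod.fst := by
      intro v hv
      rw [hB2, Finset.mem_filter] at hv
      obtain ⟨hv, y, hy, z, hz, h1, h2, h3⟩ := hv
      rw [Finset.mem_image]
      refine ⟨(v, y, z), ?_, rfl⟩
      rw [Finset.mem_filter]
      exact ⟨Finset.mem_product.2 ⟨hv, Finset.mem_product.2 ⟨hy, hz⟩⟩, h1, h2, h3⟩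
    exact (Finset.card_le_card h1).trans Finset.card_image_le
  -- degrees
  have he : ((F ×ˢ F).filter (fun p => A p.1 p.2)).card =
      ∑ v ∈ F, (F.filter fun u => A v u).card := by
    rw [Finset.card_filter, Finset.sum_product]
    refine Finset.sum_congr rfl fun v _ => ?_
    rw [Finset.card_filter]
  have hd : B1.card * 2 ^ (b + 2) ≤ ((F ×ˢ F).filter (fun p => A p.1 p.2)).card := by
    rw [he, ← smul_eq_mul, ← Finset.sum_const]
    refine (Finset.sum_le_sum fun v hv => ?_).trans
      (Finset.sum_le_sum_of_subset (f := fun v => (F.filter fun u => A v u).card)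
        (Finset.filter_subset _ F))
    rw [hB1, Finset.mem_filter] at hv
    exact hv.2.le
  have hcard : F.card ≤ F'.card + (B1.card + B2.card) := by
    have h1 : F ⊆ F' ∪ (B1 ∪ B2) := by
      intro v hv
      by_cases h : v ∈ B1 ∪ B2
      · exact Finset.mem_union_right _ h
      · exact Finset.mem_union_left _ (Finset.mem_sdiff.2 ⟨hv, h⟩)
    refine (Finset.card_le_card h1).trans ((Finset.card_union_le _ _).trans ?_)
    exact Nat.add_le_add_left (Finset.card_union_le _ _) _
  have h2 : (0 : ℝ) < 4 * 2 ^ b := by positivity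
  have hd' : (B1.card : ℝ) ≤ (((F ×ˢ F).filter (fun p => A p.1 p.2)).card : ℝ) / (4 * 2 ^ b) := by
    rw [le_div_iff₀ h2]
    have h3 : ((B1.card * 2 ^ (b + 2) : ℕ) : ℝ) ≤
        (((F ×ˢ F).filter (fun p => A p.1 p.2)).card : ℝ) := by exact_mod_cast hd
    push_cast at h3
    calc (B1.card : ℝ) * (4 * 2 ^ b) = (B1.card : ℝ) * 2 ^ (b + 2) := by ring
      _ ≤ _ := h3
  have ht' : (B2.card : ℝ) ≤ (((F ×ˢ F ×ˢ F).filter
      (fun p => A p.1 p.2.1 ∧ A p.2.1 p.2.2 ∧ A p.1 p.2.2)).card : ℝ) := by exact_mod_cast ht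
  have hcard' : (F.card : ℝ) ≤ F'.card + (B1.card + B2.card) := by exact_mod_cast hcard
  linarith

end Pool.Agent.Helper60.GT
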