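import Pool.Agent.Helper60.GT.Defs

/-!
# Modules CA, GR: maximal subfamily, greedy cover

CA: `G ⊆ F` of maximum size with `load G R ≤ cap R` for all ridges `R` (the empty family is
admissible). If `f ∈ F \ G` then `insert f G` violates the cap at some ridge `R`; then `R ⊆ f` and
`load (insert f G) R = load G R + δ^(typ f)`.

GR: strong induction on `|F|`: if some ridge `R`, not under `M`, has load `> T`, remove all
`f ⊇ R` from `F` (the weight drops by more than `T`), add `R` to `C`.
-/

set_option autoImplicit false

open Finset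

namespace Pool.Agent.Helper60.GT

theorem cap : StCap := by
  intro V _ k M F δ cap hδ hcap
  classical
  set 𝒢 : Finset (Finset (Finset V)) := F.powerset.filter
    (fun G => ∀ R : Finset V, R.card = k - 1 → load k M G δ R ≤ cap R) with h𝒢
  have hne : 𝒢.Nonempty := by
    refine ⟨∅, ?_⟩
    rw [h𝒢, mem_filter, mem_powerset]
    refine ⟨empty_subset _, fun R _ => ?_⟩
    rw [load, filter_empty, sum_empty]
    exact hcap R
  obtain ⟨G, hG, hmax⟩ := exists_max_image 𝒢 card hne
  rw [h𝒢, mem_filter, mem_powerset] at hG
  refine ⟨G, hG.1, hG.2, fun f hf hfG => ?_⟩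
  by_contra hno
  push Not at hno
  have h1 : insert f G ∈ 𝒢 := by
    rw [h𝒢, mem_filter, mem_powerset]
    refine ⟨insert_subset hf hG.1, fun R hR => ?_⟩
    rw [load, filter_insert]
    split_ifs with h2
    · rw [sum_insert (fun h => hfG (mem_of_mem_filter _ h)), add_comm]
      exact hno R h2 hR
    · exact hG.2 R hR
  have h2 := hmax _ h1
  rw [card_insert_of_notMem hfG] at h2
  omega

theorem greedy : StGreedy := by
  intro V _ k M F δ T hδ hT
  induction hn : F.card using Nat.strong_induction_on generalizing F with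
  | _ n ih =>
    have hwt : ∀ F' : Finset (Finset V), 0 ≤ wt k M F' δ := fun F' =>
      sum_nonneg fun f _ => pow_nonneg hδ _
    by_cases hall : ∀ R : Finset V, R.card = k - 1 → ¬ Under M R → load k M F δ R ≤ T
    · refine ⟨F, Subset.refl _, ∅, by simp, hall, fun f hf hfG => absurd hf hfG, ?_⟩
      simpa using hwt F
    push Not at hall
    obtain ⟨R, hR, hRM, hRT⟩ := hall
    have hlt : (F.filter fun f => ¬ R ⊆ f).card < n := by
      rw [← hn]
      refine card_lt_card ⟨filter_subset _ _, fun h => ?_⟩
      have h1 : F.filter (fun f => R ⊆ f) = ∅ := by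
        rw [filter_eq_empty_iff]
        intro f hf
        exact (mem_filter.1 (h hf)).2
      rw [load, h1, sum_empty] at hRT
      linarith
    obtain ⟨G, hG, C, hC1, hC2, hC3, hC4⟩ := ih _ hlt (F.filter fun f => ¬ R ⊆ f) rfl
    refine ⟨G, hG.trans (filter_subset _ _), insert R C, ?_, hC2, ?_, ?_⟩
    · intro S hS
      rcases mem_insert.1 hS with rfl | hS
      · exact hR
      · exact hC1 S hS
    · intro f hf hfG
      by_cases hRf : R ⊆ f
      · exact ⟨R, mem_insert_self _ _, hRf⟩
      · obtain ⟨S, hS, hSf⟩ := hC3 f (mem_filter.2 ⟨hf, hRf⟩) hfG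
        exact ⟨S, mem_insert_of_mem hS, hSf⟩
    · have h1 : ((insert R C).card : ℝ) ≤ C.card + 1 := by
        exact_mod_cast card_insert_le _ _
      have h2 : wt k M F δ = load k M F δ R + wt k M (F.filter fun f => ¬ R ⊆ f) δ := by
        rw [wt, load, wt]
        exact (sum_filter_add_sum_filter_not F (fun f => R ⊆ f) _).symm
      calc ((insert R C).card : ℝ) * T ≤ (C.card + 1) * T :=
            mul_le_mul_of_nonneg_right h1 hT.le
        _ = T + C.card * T := by ring
        _ ≤ load k M F δ R + wt k M (F.filter fun f => ¬ R ⊆ f) δ := add_le_add hRT.le hC4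
        _ = wt k M F δ := h2.symm

end Pool.Agent.Helper60.GT
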