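import Pool.Agent.Helper60.GT.Defs
import Pool.Agent.Helper60.GT.Geo

/-!
# Module CO: the codegree sum

Put `α h = ξ θ^b δ^(typ h)`, `q = θ δ`, `R = f ∩ g`, `Q = f ∪ g` (`|R| = k-1`, `|Q| = k+1`),
`s h = |nbr h ∩ (nbr f ∪ nbr g)|`. Always `s h ≤ typ h ≤ b`, so
`α h / q^(s h) = ξ θ^(b-s) δ^(typ h - s) ≤ ξ`. By `common_of_three` either `R ⊆ h` or `h ⊆ Q`.
* `R ⊆ h`: `h = insert z R`, `z ∉ f`, `z ∉ g`, `f ∪ h = insert z f`, `g ∪ h = insert z g`,
  `f ∩ h = R = g ∩ h`. Special: some member of `M` is contained in `insert z f` or in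
  `insert z g`; at most `typ f + typ g ≤ 2b` such `z` (`card_outer_le`), each term `≤ ξ`. If `h` is
  not special then `m ∈ nbr h ∩ (nbr f ∪ nbr g)` contains `R` (`common_nbr_of_adj`), so
  `s h ≤ 1` (`under_unique`) and `s h = 0` if `R` is not under `M`. The sum over these `h` is at
  most `ξ θ^b load(R) ≤ ξ θ^b T` (not under) resp. `ξ θ^b load(R)/(θ δ) ≤ ξ θ^(b-1) Λ/δ` (under).
* `h ⊆ Q`: `h = Q.erase c`, `c ∈ f ∩ g`, `f ∩ h = f.erase c`, `g ∩ h = g.erase c`,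
  `f ∪ h = Q = g ∪ h`. Special: `f.erase c` or `g.erase c` under `M`: at most `2b` such `c`
  (`card_inner_le`), each term `≤ ξ`. If `h` is not special then `m ∈ nbr h ∩ (nbr f ∪ nbr g)` is
  contained in `Q`, so `s h ≤ 1` (`inside_unique`), and `s h = 0` if no member is in `Q`. At most
  `k` such `h`, each term `≤ ξ θ^b δ^a` resp. `≤ ξ θ^(b-1) δ^(a-1)`.
Every case bound is at most the right side (all terms are nonnegative).
-/

set_option autoImplicit false

open Finset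

namespace Pool.Agent.Helper60.GT

section aux

variable {V : Type} [DecidableEq V] {k a b : ℕ} {M F : Finset (Finset V)} {ξ θ δ T Λ : ℝ}

/-- the term of the sum -/
private noncomputable def tm (k b : ℕ) (M : Finset (Finset V)) (ξ θ δ : ℝ) (f g h : Finset V) : ℝ :=
  ξ * θ ^ b * δ ^ typ k M h / (θ * δ) ^ (nbr k M h ∩ (nbr k M f ∪ nbr k M g)).card

private theorem tm_nonneg (hξ : 0 < ξ) (hθ : 0 < θ) (hδ : 0 < δ) (f g h : Finset V) :
    0 ≤ tm k b M ξ θ δ f g h := by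
  unfold tm
  positivity

private theorem tm_le (hξ : 0 < ξ) (hθ : 0 < θ) (hθ1 : θ ≤ 1) (hδ : 0 < δ) (hδ1 : δ ≤ 1)
    (f g h : Finset V) (hb : typ k M h ≤ b) : tm k b M ξ θ δ f g h ≤ ξ := by
  unfold tm
  set s := (nbr k M h ∩ (nbr k M f ∪ nbr k M g)).card with hs
  have h1 : s ≤ typ k M h := card_le_card inter_subset_left
  rw [div_le_iff₀ (by positivity), mul_pow]
  have h2 : θ ^ b ≤ θ ^ s := pow_le_pow_of_le_one hθ.le hθ1 (h1.trans hb)
  have h3 : δ ^ typ k M h ≤ δ ^ s := pow_le_pow_of_le_one hδ.le hδ1 h1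
  calc ξ * θ ^ b * δ ^ typ k M h = ξ * (θ ^ b * δ ^ typ k M h) := by ring
    _ ≤ ξ * (θ ^ s * δ ^ s) := by
      refine mul_le_mul_of_nonneg_left ?_ hξ.le
      exact mul_le_mul h2 h3 (by positivity) (by positivity)

private theorem tm_zero (f g h : Finset V)
    (hs : (nbr k M h ∩ (nbr k M f ∪ nbr k M g)).card = 0) :
    tm k b M ξ θ δ f g h = ξ * θ ^ b * δ ^ typ k M h := by
  unfold tm
  rw [hs, pow_zero, div_one]

private theorem tm_one (hξ : 0 < ξ) (hθ : 0 < θ) (hθ1 : θ ≤ 1) (hδ : 0 < δ) (hδ1 : δ ≤ 1)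
    (hb : 1 ≤ b) (f g h : Finset V)
    (hs : (nbr k M h ∩ (nbr k M f ∪ nbr k M g)).card ≤ 1) :
    tm k b M ξ θ δ f g h ≤ ξ * θ ^ (b - 1) * δ ^ typ k M h / δ := by
  unfold tm
  have e : ξ * θ ^ (b - 1) * δ ^ typ k M h / δ = ξ * θ ^ b * δ ^ typ k M h / (θ * δ) ^ 1 := by
    obtain ⟨c, rfl⟩ : ∃ c, b = c + 1 := ⟨b - 1, by omega⟩
    rw [Nat.add_sub_cancel, pow_one, pow_succ, div_eq_div_iff hδ.ne' (by positivity)]
    ring
  rw [e]
  refine div_le_div_of_nonneg_left (by positivity) (by positivity) ?_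
  exact pow_le_pow_of_le_one (by positivity) (mul_le_one₀ hθ1 hδ.le hδ1) hs

end aux

theorem cod : StCod := by
  classical
  intro V _ k a b M F ξ θ δ T Λ hk ha hab hM hP hF hξ hθ hθ1 hδ hδ1 hT hΛ hl1 hl2 f hf g hg hfg
  change ∑ h ∈ F.filter (fun h => Adj k f h ∧ Adj k g h), tm k b M ξ θ δ f g h ≤ _
  have hb1 : 1 ≤ b := by omega
  obtain ⟨hfk, hfM, hfa, hfb⟩ := hF f hf
  obtain ⟨hgk, hgM, hga, hgb⟩ := hF g hg
  have hRc : (f ∩ g).card = k - 1 := adj_card_inter hfk hgk hfg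
  have hQc : (f ∪ g).card = k + 1 := adj_card_union (by omega) hfk hgk hfg
  set S := F.filter (fun h => Adj k f h ∧ Adj k g h) with hS
  have hSF : ∀ h ∈ S, h ∈ F ∧ Adj k f h ∧ Adj k g h := fun h hh => mem_filter.1 hh
  have hnn : ∀ h, 0 ≤ tm k b M ξ θ δ f g h := fun h => tm_nonneg hξ hθ hδ f g h
  have hle : ∀ h ∈ S, tm k b M ξ θ δ f g h ≤ ξ := fun h hh =>
    tm_le hξ hθ hθ1 hδ hδ1 f g h (hF h (hSF h hh).1).2.2.2
  -- geometry in the two cases
  have geoA : ∀ h ∈ S, f ∩ g ⊆ h → f ∩ h = f ∩ g ∧ g ∩ h = f ∩ g := by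
    intro h hh hR
    obtain ⟨h1, h2, h3⟩ := hSF h hh
    have hhk := (hF h h1).1
    constructor
    · refine (eq_of_subset_of_card_le ?_ ?_).symm
      · exact subset_inter inter_subset_left hR
      · rw [adj_card_inter hfk hhk h2, hRc]
    · refine (eq_of_subset_of_card_le ?_ ?_).symm
      · exact subset_inter inter_subset_right hR
      · rw [adj_card_inter hgk hhk h3, hRc]
  have geoB : ∀ h ∈ S, ¬ f ∩ g ⊆ h → f ∪ h = f ∪ g ∧ g ∪ h = f ∪ g ∧
      ∃ c ∈ f ∩ g, h = (f ∪ g).erase c ∧ f ∩ h = f.erase c ∧ g ∩ h = g.erase c := by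
    intro h hh hR
    obtain ⟨h1, h2, h3⟩ := hSF h hh
    have hhk := (hF h h1).1
    have hQ : h ⊆ f ∪ g := (common_of_three hk hfk hgk hhk hfg h2 h3).resolve_left hR
    have e1 : f ∪ h = f ∪ g := by
      refine eq_of_subset_of_card_le (union_subset subset_union_left hQ) ?_
      rw [adj_card_union (by omega) hfk hhk h2, hQc]
    have e2 : g ∪ h = f ∪ g := by
      refine eq_of_subset_of_card_le (union_subset subset_union_right hQ) ?_
      rw [adj_card_union (by omega) hgk hhk h3, hQc]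
    obtain ⟨c, hcQ, hc⟩ : ∃ c ∈ f ∪ g, c ∉ h := by
      by_contra hcon
      push Not at hcon
      have := card_le_card (show f ∪ g ⊆ h from hcon)
      omega
    have hcf : c ∈ f := by
      rw [← e1] at hcQ
      exact (mem_union.1 hcQ).resolve_right hc
    have hcg : c ∈ g := by
      rw [← e2] at hcQ
      exact (mem_union.1 hcQ).resolve_right hc
    have hhe : h = (f ∪ g).erase c := by
      refine eq_of_subset_of_card_le (fun x hx => mem_erase.2 ⟨?_, hQ hx⟩) ?_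
      · rintro rfl
        exact hc hx
      · rw [card_erase_of_mem hcQ, hQc, hhk]
        omega
    refine ⟨e1, e2, c, mem_inter.2 ⟨hcf, hcg⟩, hhe, ?_, ?_⟩
    · rw [hhe]
      ext x
      simp only [mem_inter, mem_erase, mem_union]
      tauto
    · rw [hhe]
      ext x
      simp only [mem_inter, mem_erase, mem_union]
      tauto
  -- special sets in the first case
  have cardA : ((S.filter (fun h => f ∩ g ⊆ h)).filter
      (fun h => ∃ m ∈ M, m ⊆ f ∪ h ∨ m ⊆ g ∪ h)).card ≤ 2 * b := by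
    set A := (S.filter (fun h => f ∩ g ⊆ h)).filter
      (fun h => ∃ m ∈ M, m ⊆ f ∪ h ∨ m ⊆ g ∪ h) with hA
    set Z1 := ((A.biUnion id) \ f).filter (fun z => ∃ m ∈ M, m ⊆ insert z f) with hZ1
    set Z2 := ((A.biUnion id) \ g).filter (fun z => ∃ m ∈ M, m ⊆ insert z g) with hZ2
    have c1 : Z1.card ≤ typ k M f := by
      refine card_outer_le (by omega) hM hfk hfM Z1 fun y hy => ?_
      obtain ⟨hy1, hy2⟩ := mem_filter.1 hy
      exact ⟨(mem_sdiff.1 hy1).2, hy2⟩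
    have c2 : Z2.card ≤ typ k M g := by
      refine card_outer_le (by omega) hM hgk hgM Z2 fun y hy => ?_
      obtain ⟨hy1, hy2⟩ := mem_filter.1 hy
      exact ⟨(mem_sdiff.1 hy1).2, hy2⟩
    have hsub : A ⊆ (Z1 ∪ Z2).image (fun z => insert z (f ∩ g)) := by
      intro h hh
      obtain ⟨hh1, m, hm, hmm⟩ := mem_filter.1 hh
      obtain ⟨hh2, hh3⟩ := mem_filter.1 hh1
      obtain ⟨hhF, ha1, ha2⟩ := hSF h hh2
      have hhk := (hF h hhF).1
      obtain ⟨g1, g2⟩ := geoA h hh2 hh3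
      -- the new point
      have hcard : (h \ (f ∩ g)).card = 1 := by
        rw [card_sdiff_of_subset hh3, hhk, hRc]
        omega
      obtain ⟨z, hz⟩ := card_eq_one.1 hcard
      have hzh : z ∈ h \ (f ∩ g) := by rw [hz]; exact mem_singleton_self z
      obtain ⟨hz1, hz2⟩ := mem_sdiff.1 hzh
      have hins : h = insert z (f ∩ g) := by
        rw [insert_eq, ← hz, sdiff_union_of_subset hh3]
      have hzf : z ∉ f := fun hh => hz2 (by rw [← g1]; exact mem_inter.2 ⟨hh, hz1⟩)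
      have hzg : z ∉ g := fun hh => hz2 (by rw [← g2]; exact mem_inter.2 ⟨hh, hz1⟩)
      have u1 : f ∪ h = insert z f := by
        rw [hins]
        ext x
        simp only [mem_union, mem_insert, mem_inter]
        tauto
      have u2 : g ∪ h = insert z g := by
        rw [hins]
        ext x
        simp only [mem_union, mem_insert, mem_inter]
        tauto
      have hzU : z ∈ A.biUnion id := mem_biUnion.2 ⟨h, hh, hz1⟩
      refine mem_image.2 ⟨z, ?_, hins.symm⟩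
      rcases hmm with hmm | hmm
      · refine mem_union_left _ (mem_filter.2 ⟨mem_sdiff.2 ⟨hzU, hzf⟩, m, hm, ?_⟩)
        rwa [← u1]
      · refine mem_union_right _ (mem_filter.2 ⟨mem_sdiff.2 ⟨hzU, hzg⟩, m, hm, ?_⟩)
        rwa [← u2]
    calc A.card ≤ ((Z1 ∪ Z2).image (fun z => insert z (f ∩ g))).card := card_le_card hsub
      _ ≤ (Z1 ∪ Z2).card := card_image_le
      _ ≤ Z1.card + Z2.card := card_union_le _ _
      _ ≤ 2 * b := by omega
  -- special sets in the second case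
  have cardB : ((S.filter (fun h => ¬ f ∩ g ⊆ h)).filter
      (fun h => Under M (f ∩ h) ∨ Under M (g ∩ h))).card ≤ 2 * b := by
    set B := (S.filter (fun h => ¬ f ∩ g ⊆ h)).filter
      (fun h => Under M (f ∩ h) ∨ Under M (g ∩ h)) with hB
    set X1 := f.filter (fun x => Under M (f.erase x)) with hX1
    set X2 := g.filter (fun x => Under M (g.erase x)) with hX2
    have c1 : X1.card ≤ typ k M f :=
      card_inner_le (by omega) hM hP hfk hfM X1 fun x hx => mem_filter.1 hx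
    have c2 : X2.card ≤ typ k M g :=
      card_inner_le (by omega) hM hP hgk hgM X2 fun x hx => mem_filter.1 hx
    have hsub : B ⊆ (X1 ∪ X2).image (fun c => (f ∪ g).erase c) := by
      intro h hh
      obtain ⟨hh1, hU⟩ := mem_filter.1 hh
      obtain ⟨hh2, hh3⟩ := mem_filter.1 hh1
      obtain ⟨-, -, c, hc, hhe, i1, i2⟩ := geoB h hh2 hh3
      obtain ⟨hcf, hcg⟩ := mem_inter.1 hc
      refine mem_image.2 ⟨c, ?_, hhe.symm⟩
      rcases hU with hU | hU
      · refine mem_union_left _ (mem_filter.2 ⟨hcf, ?_⟩)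
        rwa [← i1]
      · refine mem_union_right _ (mem_filter.2 ⟨hcg, ?_⟩)
        rwa [← i2]
    calc B.card ≤ ((X1 ∪ X2).image (fun c => (f ∪ g).erase c)).card := card_le_card hsub
      _ ≤ (X1 ∪ X2).card := card_image_le
      _ ≤ X1.card + X2.card := card_union_le _ _
      _ ≤ 2 * b := by omega
  have cardB' : (S.filter (fun h => ¬ f ∩ g ⊆ h)).card ≤ k := by
    have hsub : S.filter (fun h => ¬ f ∩ g ⊆ h) ⊆ (f ∩ g).image (fun c => (f ∪ g).erase c) := by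
      intro h hh
      obtain ⟨hh2, hh3⟩ := mem_filter.1 hh
      obtain ⟨-, -, c, hc, hhe, -, -⟩ := geoB h hh2 hh3
      exact mem_image.2 ⟨c, hc, hhe.symm⟩
    calc (S.filter (fun h => ¬ f ∩ g ⊆ h)).card
        ≤ ((f ∩ g).image (fun c => (f ∪ g).erase c)).card := card_le_card hsub
      _ ≤ (f ∩ g).card := card_image_le
      _ ≤ k := by omega
  -- ordinary sets in the first case
  have ordA : ∀ h ∈ S, f ∩ g ⊆ h → (¬ ∃ m ∈ M, m ⊆ f ∪ h ∨ m ⊆ g ∪ h) →
      ∀ m ∈ nbr k M h ∩ (nbr k M f ∪ nbr k M g), m ∈ M ∧ f ∩ g ⊆ m := by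
    intro h hh hR hns m hm
    obtain ⟨h1, h2, h3⟩ := hSF h hh
    obtain ⟨hhk, hhM, -, -⟩ := hF h h1
    obtain ⟨g1, g2⟩ := geoA h hh hR
    obtain ⟨hm1, hm2⟩ := mem_inter.1 hm
    have hmM : m ∈ M := (mem_filter.1 hm1).1
    refine ⟨hmM, ?_⟩
    rcases mem_union.1 hm2 with hm3 | hm3
    · rcases common_nbr_of_adj hk hM hfk hhk hfM hhM h2 hm3 hm1 with h5 | h5
      · rwa [g1] at h5
      · exact absurd ⟨m, hmM, Or.inl h5⟩ hns
    · rcases common_nbr_of_adj hk hM hgk hhk hgM hhM h3 hm3 hm1 with h5 | h5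
      · rwa [g2] at h5
      · exact absurd ⟨m, hmM, Or.inr h5⟩ hns
  have sumA : ∑ h ∈ (S.filter (fun h => f ∩ g ⊆ h)).filter
      (fun h => ¬ ∃ m ∈ M, m ⊆ f ∪ h ∨ m ⊆ g ∪ h), tm k b M ξ θ δ f g h ≤
      ξ * θ ^ b * T + ξ * θ ^ (b - 1) * Λ / δ := by
    set A := (S.filter (fun h => f ∩ g ⊆ h)).filter
      (fun h => ¬ ∃ m ∈ M, m ⊆ f ∪ h ∨ m ⊆ g ∪ h) with hA
    have hAl : ∑ h ∈ A, δ ^ typ k M h ≤ load k M F δ (f ∩ g) := by
      unfold load
      refine sum_le_sum_of_subset_of_nonneg ?_ fun h _ _ => by positivity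
      intro h hh
      obtain ⟨hh1, -⟩ := mem_filter.1 hh
      obtain ⟨hh2, hh3⟩ := mem_filter.1 hh1
      exact mem_filter.2 ⟨(hSF h hh2).1, hh3⟩
    by_cases hU : Under M (f ∩ g)
    · have h1 : ∑ h ∈ A, tm k b M ξ θ δ f g h ≤ ∑ h ∈ A, ξ * θ ^ (b - 1) * δ ^ typ k M h / δ := by
        refine sum_le_sum fun h hh => ?_
        obtain ⟨hh1, hns⟩ := mem_filter.1 hh
        obtain ⟨hh2, hh3⟩ := mem_filter.1 hh1
        refine tm_one hξ hθ hθ1 hδ hδ1 hb1 f g h ?_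
        refine card_le_one.2 fun m hm m' hm' => ?_
        obtain ⟨q1, q2⟩ := ordA h hh2 hh3 hns m hm
        obtain ⟨q3, q4⟩ := ordA h hh2 hh3 hns m' hm'
        exact under_unique hP hRc q1 q3 q2 q4
      have h2 : ∑ h ∈ A, ξ * θ ^ (b - 1) * δ ^ typ k M h / δ
          = ξ * θ ^ (b - 1) * (∑ h ∈ A, δ ^ typ k M h) / δ := by
        rw [mul_sum, sum_div]
      have h3 : ξ * θ ^ (b - 1) * (∑ h ∈ A, δ ^ typ k M h) / δ ≤ ξ * θ ^ (b - 1) * Λ / δ := by
        refine div_le_div_of_nonneg_right ?_ hδ.le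
        exact mul_le_mul_of_nonneg_left (hAl.trans (hl2 _ hRc hU)) (by positivity)
      have h4 : 0 ≤ ξ * θ ^ b * T := by positivity
      linarith
    · have h1 : ∑ h ∈ A, tm k b M ξ θ δ f g h = ∑ h ∈ A, ξ * θ ^ b * δ ^ typ k M h := by
        refine sum_congr rfl fun h hh => ?_
        obtain ⟨hh1, hns⟩ := mem_filter.1 hh
        obtain ⟨hh2, hh3⟩ := mem_filter.1 hh1
        refine tm_zero f g h ?_
        refine card_eq_zero.2 (eq_empty_of_forall_notMem fun m hm => ?_)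
        obtain ⟨q1, q2⟩ := ordA h hh2 hh3 hns m hm
        exact hU ⟨m, q1, q2⟩
      rw [h1, ← mul_sum]
      have h3 : ξ * θ ^ b * (∑ h ∈ A, δ ^ typ k M h) ≤ ξ * θ ^ b * T :=
        mul_le_mul_of_nonneg_left (hAl.trans (hl1 _ hRc hU)) (by positivity)
      have h4 : 0 ≤ ξ * θ ^ (b - 1) * Λ / δ := by positivity
      linarith
  -- ordinary sets in the second case
  have sumB : ∑ h ∈ (S.filter (fun h => ¬ f ∩ g ⊆ h)).filter
      (fun h => ¬ (Under M (f ∩ h) ∨ Under M (g ∩ h))), tm k b M ξ θ δ f g h ≤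
      k * (ξ * θ ^ b * δ ^ a) + k * (ξ * θ ^ (b - 1) * δ ^ (a - 1)) := by
    set B := (S.filter (fun h => ¬ f ∩ g ⊆ h)).filter
      (fun h => ¬ (Under M (f ∩ h) ∨ Under M (g ∩ h))) with hB
    have hterm : ∀ h ∈ B, tm k b M ξ θ δ f g h ≤
        ξ * θ ^ b * δ ^ a + ξ * θ ^ (b - 1) * δ ^ (a - 1) := by
      intro h hh
      obtain ⟨hh1, hns⟩ := mem_filter.1 hh
      obtain ⟨hh2, hh3⟩ := mem_filter.1 hh1
      obtain ⟨h1, h2, h3⟩ := hSF h hh2
      obtain ⟨hhk, hhM, hha, -⟩ := hF h h1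
      obtain ⟨e1, e2, -⟩ := geoB h hh2 hh3
      push Not at hns
      have hin : ∀ m ∈ nbr k M h ∩ (nbr k M f ∪ nbr k M g), m ∈ M ∧ m ⊆ f ∪ g := by
        intro m hm
        obtain ⟨hm1, hm2⟩ := mem_inter.1 hm
        have hmM : m ∈ M := (mem_filter.1 hm1).1
        refine ⟨hmM, ?_⟩
        rcases mem_union.1 hm2 with hm3 | hm3
        · rcases common_nbr_of_adj hk hM hfk hhk hfM hhM h2 hm3 hm1 with h5 | h5
          · exact absurd ⟨m, hmM, h5⟩ hns.1
          · rwa [e1] at h5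
        · rcases common_nbr_of_adj hk hM hgk hhk hgM hhM h3 hm3 hm1 with h5 | h5
          · exact absurd ⟨m, hmM, h5⟩ hns.2
          · rwa [e2] at h5
      have hs : (nbr k M h ∩ (nbr k M f ∪ nbr k M g)).card ≤ 1 := by
        refine card_le_one.2 fun m hm m' hm' => ?_
        obtain ⟨q1, q2⟩ := hin m hm
        obtain ⟨q3, q4⟩ := hin m' hm'
        exact inside_unique (by omega) hM hP hQc q1 q3 q2 q4
      have p1 : 0 ≤ ξ * θ ^ b * δ ^ a := by positivity
      have p2 : 0 ≤ ξ * θ ^ (b - 1) * δ ^ (a - 1) := by positivity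
      rcases Nat.le_one_iff_eq_zero_or_eq_one.1 hs with hs0 | hs1
      · rw [tm_zero f g h hs0]
        have h6 : δ ^ typ k M h ≤ δ ^ a := pow_le_pow_of_le_one hδ.le hδ1 hha
        have h7 : ξ * θ ^ b * δ ^ typ k M h ≤ ξ * θ ^ b * δ ^ a :=
          mul_le_mul_of_nonneg_left h6 (by positivity)
        linarith
      · have h6 := tm_one hξ hθ hθ1 hδ hδ1 hb1 f g h hs
        have h7 : δ ^ typ k M h / δ ≤ δ ^ (a - 1) := by
          rw [div_le_iff₀ hδ, ← pow_succ, Nat.sub_add_cancel (by omega)]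
          exact pow_le_pow_of_le_one hδ.le hδ1 hha
        have h8 : ξ * θ ^ (b - 1) * δ ^ typ k M h / δ ≤ ξ * θ ^ (b - 1) * δ ^ (a - 1) := by
          rw [mul_div_assoc]
          exact mul_le_mul_of_nonneg_left h7 (by positivity)
        linarith
    have hcard : (B.card : ℝ) ≤ k := by
      have : B.card ≤ k := (card_le_card (filter_subset _ _)).trans cardB'
      exact_mod_cast this
    have h1 := sum_le_card_nsmul B (fun h => tm k b M ξ θ δ f g h) _ hterm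
    rw [nsmul_eq_mul] at h1
    refine h1.trans ?_
    rw [← mul_add]
    exact mul_le_mul_of_nonneg_right hcard (by positivity)
  have spA : ∑ h ∈ (S.filter (fun h => f ∩ g ⊆ h)).filter
      (fun h => ∃ m ∈ M, m ⊆ f ∪ h ∨ m ⊆ g ∪ h), tm k b M ξ θ δ f g h ≤ 2 * b * ξ := by
    have h1 := sum_le_card_nsmul _ (fun h => tm k b M ξ θ δ f g h) ξ
      (fun h hh => hle h (mem_filter.1 (mem_filter.1 hh).1).1 : ∀ h ∈
        (S.filter (fun h => f ∩ g ⊆ h)).filter
          (fun h => ∃ m ∈ M, m ⊆ f ∪ h ∨ m ⊆ g ∪ h), tm k b M ξ θ δ f g h ≤ ξ)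
    rw [nsmul_eq_mul] at h1
    refine h1.trans (mul_le_mul_of_nonneg_right ?_ hξ.le)
    exact_mod_cast cardA
  have spB : ∑ h ∈ (S.filter (fun h => ¬ f ∩ g ⊆ h)).filter
      (fun h => Under M (f ∩ h) ∨ Under M (g ∩ h)), tm k b M ξ θ δ f g h ≤ 2 * b * ξ := by
    have h1 := sum_le_card_nsmul _ (fun h => tm k b M ξ θ δ f g h) ξ
      (fun h hh => hle h (mem_filter.1 (mem_filter.1 hh).1).1 : ∀ h ∈
        (S.filter (fun h => ¬ f ∩ g ⊆ h)).filter
          (fun h => Under M (f ∩ h) ∨ Under M (g ∩ h)), tm k b M ξ θ δ f g h ≤ ξ)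
    rw [nsmul_eq_mul] at h1
    refine h1.trans (mul_le_mul_of_nonneg_right ?_ hξ.le)
    exact_mod_cast cardB
  have e0 := sum_filter_add_sum_filter_not S (fun h => f ∩ g ⊆ h) (tm k b M ξ θ δ f g)
  have e1 := sum_filter_add_sum_filter_not (S.filter (fun h => f ∩ g ⊆ h))
    (fun h => ∃ m ∈ M, m ⊆ f ∪ h ∨ m ⊆ g ∪ h) (tm k b M ξ θ δ f g)
  have e2 := sum_filter_add_sum_filter_not (S.filter (fun h => ¬ f ∩ g ⊆ h))
    (fun h => Under M (f ∩ h) ∨ Under M (g ∩ h)) (tm k b M ξ θ δ f g)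
  rw [← e0, ← e1, ← e2]
  linarith

end Pool.Agent.Helper60.GT
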