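import Pool.Agent.Helper60.GT.Defs
import Pool.Agent.Helper60.GT.Geo

/-!
# Module CH: the trivial bound on the number of edges

Every `e ∈ H` contains a ridge under `M` (`e ∈ M`, or `typ_pos`), so
`|H| ≤ ∑ S ∈ shadow k M, #{e ∈ H : S ⊆ e} ≤ k |M| D` (`card_shadow`).
-/

set_option autoImplicit false

open Finset

namespace Pool.Agent.Helper60.GT

theorem count : StCount := by
  intro V _ k D H M hk hH hMax hD
  have hM : ∀ m ∈ M, m.card = k := fun m hm => hH m (hMax.1.1 hm)
  have hsub : H ⊆ (shadow k M).biUnion (fun S => H.filter (fun e => S ⊆ e)) := by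
    intro e he
    rw [mem_biUnion]
    by_cases heM : e ∈ M
    · have hne : e.Nonempty := by
        rw [← card_pos, hH e he]
        omega
      obtain ⟨x, hx⟩ := hne
      refine ⟨e.erase x, mem_shadow.mpr ⟨?_, e, heM, erase_subset _ _⟩,
        mem_filter.mpr ⟨he, erase_subset _ _⟩⟩
      rw [card_erase_of_mem hx, hH e he]
    · have h1 := typ_pos hk hH hMax (mem_sdiff.mpr ⟨he, heM⟩)
      unfold typ at h1
      obtain ⟨m, hm⟩ := card_pos.mp (by omega : 0 < (nbr k M e).card)
      exact ⟨e ∩ m, mem_shadow.mpr ⟨card_inter_of_mem_nbr hM (hH e he) heM hm, m,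
        (mem_filter.mp hm).1, inter_subset_right⟩, mem_filter.mpr ⟨he, inter_subset_left⟩⟩
  calc H.card ≤ _ := card_le_card hsub
    _ ≤ ∑ S ∈ shadow k M, (H.filter (fun e => S ⊆ e)).card := card_biUnion_le
    _ ≤ ∑ _S ∈ shadow k M, D := sum_le_sum (fun S hS => hD S (mem_shadow.mp hS).1)
    _ = k * M.card * D := by
      rw [sum_const, smul_eq_mul, card_shadow (by omega) hM hMax.1.2]

end Pool.Agent.Helper60.GT
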