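import Pool.Agent.Helper60.GT.Defs
import Pool.Agent.Helper60.GT.Geo

/-!
# Module FL: the cover

For `m ∈ M` let `R m` be the ridge of `StSingle` in the first alternative, and any ridge of `m`
otherwise. `E = shadow k M \ (U ∪ image R M)`, `|E| ≥ (k-1)|M| - |U|` (`card_shadow`).
`F = (H \ M).filter (2 ≤ typ ≤ J, no member of U, no member of C)`, `tr = tr k M` (`card_tr`).
`StSel` gives `I`. Cover
`D = (shadow k M \ I) ∪ C ∪ {one ridge of each f ∈ F with tr f ⊆ I} ∪ ⋃_m D m`,
where for `m` of the second alternative `D m` is the family of `StPair` for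
`Q m` and `L m = {c ∈ m : m.erase c ∈ I}` (`∑ m, |L m| = |I|`), and `∅` otherwise.
Every `e ∈ H` is covered: `e ∈ M` by `R e ∉ I`. For `e ∉ M`: if `tr e ⊄ I` clear. If `tr e ⊆ I`,
then `typ e = |tr e| ≤ J` by the first property of `I`; `typ e ≥ 1` (`typ_pos`). If
`typ e ≥ 2`: no member of `U` is contained in `e` (it would be in `tr e ⊆ I`, but `I ∩ U = ∅`);
if a member of `C` is contained in `e`, fine; otherwise `e ∈ F` with `tr e ⊆ I`. If `typ e = 1`,
`nbr e = {m}` and `e ∩ m ∈ I`, so `e ∩ m ≠ R m`, `m` is of the second alternative, `e ⊆ Q m`,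
`e = (Q m).erase c` with `c ∈ L m`.
Size: `k|M| - |I| + |C| + |Res| + ∑ m, (|L m|+1)/2`.
-/

set_option autoImplicit false

open Finset

namespace Pool.Agent.Helper60.GT

private theorem sum_L_le {V : Type} [DecidableEq V] {k : ℕ} {M I : Finset (Finset V)}
    (hM : ∀ m ∈ M, m.card = k)
    (hP : ∀ m ∈ M, ∀ m' ∈ M, m ≠ m' → (m ∩ m').card < k - 1) :
    ∑ m ∈ M, (m.filter (fun c => m.erase c ∈ I)).card ≤ I.card := by
  have h1 : ∀ m ∈ M, (m.filter (fun c => m.erase c ∈ I)).card =
      ((m.filter (fun c => m.erase c ∈ I)).image (fun c => m.erase c)).card := by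
    intro m _
    rw [card_image_of_injOn]
    intro c hc c' hc' h
    exact erase_injOn m (mem_filter.1 (mem_coe.1 hc)).1 (mem_filter.1 (mem_coe.1 hc')).1 h
  rw [sum_congr rfl h1, ← card_biUnion]
  · apply card_le_card
    intro S hS
    obtain ⟨m, _, hS⟩ := mem_biUnion.1 hS
    obtain ⟨c, hc, rfl⟩ := mem_image.1 hS
    exact (mem_filter.1 hc).2
  · intro m hm m' hm' hne
    refine disjoint_left.2 ?_
    intro S hS hS'
    obtain ⟨c, hc, rfl⟩ := mem_image.1 hS
    obtain ⟨c', hc', h⟩ := mem_image.1 hS'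
    have hcm : c ∈ m := (mem_filter.1 hc).1
    have hcard : (m.erase c).card = k - 1 := by rw [card_erase_of_mem hcm, hM m hm]
    exact hne (under_unique hP hcard hm hm' (erase_subset _ _) (by rw [← h]; exact erase_subset _ _))

theorem cover (h1 : StSingle) (h2 : StPair) (h3 : StSel) : StCover := by
  intro V _ _ k K J H M U C hk hK hJ hKJ hH hMax hU hC
  have hk1 : 1 ≤ k := by omega
  have hM : ∀ m ∈ M, m.card = k := fun m hm => hH m (hMax.1.1 hm)
  have hP : ∀ m ∈ M, ∀ m' ∈ M, m ≠ m' → (m ∩ m').card < k - 1 := hMax.1.2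
  have hR : ∀ m ∈ M, ∃ R : Finset V, R ⊆ m ∧ R.card = k - 1 ∧
      ((∀ f ∈ H \ M, nbr k M f = {m} → R ⊆ f) ∨
        ∃ Q : Finset V, m ⊆ Q ∧ Q.card = k + 1 ∧ ∀ f ∈ H \ M, nbr k M f = {m} → f ⊆ Q) := by
    intro m hm
    rcases h1 V k H M hk hH hMax m hm with ⟨S, hS1, hS2, hS3⟩ | hQ
    · exact ⟨S, hS1, hS2, Or.inl hS3⟩
    · obtain ⟨R, hR1, hR2⟩ := exists_subset_card_eq (s := m) (n := k - 1)
        (by rw [hM m hm]; omega)
      exact ⟨R, hR1, hR2, Or.inr hQ⟩
  choose! R hR1 hR2 hR3 using hR
  obtain ⟨E, hE⟩ : ∃ E, E = shadow k M \ (U ∪ M.image R) := ⟨_, rfl⟩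
  obtain ⟨F, hF⟩ : ∃ F, F = (H \ M).filter (fun f => (2 ≤ typ k M f ∧ typ k M f ≤ J) ∧
          (∀ S ∈ U, ¬ S ⊆ f) ∧ ∀ R ∈ C, ¬ R ⊆ f) := ⟨_, rfl⟩
  have hEs : E ⊆ shadow k M := by rw [hE]; exact sdiff_subset
  have hFH : ∀ f ∈ F, f ∈ H \ M := by
    intro f hf
    rw [hF] at hf
    exact (mem_filter.1 hf).1
  have hFc : ∀ f ∈ F, f.card = k := fun f hf => hH f (mem_sdiff.1 (hFH f hf)).1
  have hFM : ∀ f ∈ F, f ∉ M := fun f hf => (mem_sdiff.1 (hFH f hf)).2
  have htr : ∀ f ∈ F, (tr k M f).card = typ k M f := fun f hf =>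
    card_tr hk1 hM hP (hFc f hf) (hFM f hf)
  obtain ⟨I, hIE, hI1, hI2⟩ := h3 V k K J E F (tr k M) hk hK hJ
    (fun S hS => (mem_shadow.1 (hEs hS)).1) hFc (by
      intro f hf
      refine ⟨?_, ?_⟩
      · rw [← card_pos, htr f hf]
        rw [hF] at hf
        have := (mem_filter.1 hf).2.1.1
        omega
      · intro S hS
        unfold tr at hS
        exact mem_powersetCard.1 (mem_filter.1 hS).1)
  have hwt : ∑ f ∈ F, (1 / (K : ℝ)) ^ (tr k M f).card = wt k M F (1 / (K : ℝ)) := by
    unfold wt
    exact sum_congr rfl fun f hf => by rw [htr f hf]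
  rw [hwt] at hI2
  have hIs : I ⊆ shadow k M := hIE.trans hEs
  have hIU : ∀ S ∈ I, S ∉ U := by
    intro S hS hSU
    have := hIE hS
    rw [hE, mem_sdiff, mem_union] at this
    exact this.2 (Or.inl hSU)
  have hIR : ∀ m ∈ M, R m ∉ I := by
    intro m hm hmI
    have := hIE hmI
    rw [hE, mem_sdiff, mem_union] at this
    exact this.2 (Or.inr (mem_image_of_mem R hm))
  -- the pairing families
  have hDm : ∀ m ∈ M, ∃ Dm : Finset (Finset V), (∀ S ∈ Dm, S.card = k - 1) ∧
      2 * Dm.card ≤ (m.filter (fun c => m.erase c ∈ I)).card + 1 ∧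
      ((∀ f ∈ H \ M, nbr k M f = {m} → R m ⊆ f) ∨
        ∃ Q : Finset V, m ⊆ Q ∧ Q.card = k + 1 ∧ (∀ f ∈ H \ M, nbr k M f = {m} → f ⊆ Q) ∧
          ∀ c ∈ m.filter (fun c => m.erase c ∈ I), ∃ S ∈ Dm, S ⊆ Q.erase c) := by
    intro m hm
    rcases hR3 m hm with h | ⟨Q, hQ1, hQ2, hQ3⟩
    · exact ⟨∅, by simp, by simp, Or.inl h⟩
    · obtain ⟨D, hD1, hD2, hD3⟩ := h2 V k Q (m.filter (fun c => m.erase c ∈ I)) hk1 hQ2
        ((filter_subset _ _).trans hQ1)
      exact ⟨D, hD1, hD2, Or.inr ⟨Q, hQ1, hQ2, hQ3, hD3⟩⟩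
  choose! Dm hDm1 hDm2 hDm3 using hDm
  -- one ridge of each residual set
  have hrid : ∀ f ∈ F, ∃ S : Finset V, S ⊆ f ∧ S.card = k - 1 := by
    intro f hf
    obtain ⟨S, hS1, hS2⟩ := exists_subset_card_eq (s := f) (n := k - 1)
      (by rw [hFc f hf]; omega)
    exact ⟨S, hS1, hS2⟩
  choose! rid hrid1 hrid2 using hrid
  refine ⟨(shadow k M \ I) ∪ C ∪ (F.filter (fun f => tr k M f ⊆ I)).image rid ∪
    M.biUnion Dm, ?_, ?_, ?_⟩
  · intro S hS
    rw [mem_union, mem_union, mem_union] at hS
    rcases hS with ((hS | hS) | hS) | hS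
    · exact (mem_shadow.1 (mem_sdiff.1 hS).1).1
    · exact hC S hS
    · obtain ⟨f, hf, rfl⟩ := mem_image.1 hS
      exact hrid2 f (mem_filter.1 hf).1
    · obtain ⟨m, hm, hS⟩ := mem_biUnion.1 hS
      exact hDm1 m hm S hS
  · intro e he
    by_cases heM : e ∈ M
    · refine ⟨R e, ?_, hR1 e heM⟩
      rw [mem_union, mem_union, mem_union]
      left; left; left
      exact mem_sdiff.2 ⟨mem_shadow.2 ⟨hR2 e heM, e, heM, hR1 e heM⟩, hIR e heM⟩
    · have hec : e.card = k := hH e he
      have heHM : e ∈ H \ M := mem_sdiff.2 ⟨he, heM⟩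
      by_cases htI : tr k M e ⊆ I
      · have htc : (tr k M e).card = typ k M e := card_tr hk1 hM hP hec heM
        have htJ : typ k M e ≤ J := by
          rw [← htc]
          refine le_trans (card_le_card ?_) (hI1 e hec)
          intro S hS
          refine mem_filter.2 ⟨htI hS, ?_⟩
          unfold tr at hS
          exact (mem_powersetCard.1 (mem_filter.1 hS).1).1
        have htp : 1 ≤ typ k M e := typ_pos hk hH hMax heHM
        rcases Nat.lt_or_ge 1 (typ k M e) with h4 | h4
        · by_cases hCe : ∃ R ∈ C, R ⊆ e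
          · obtain ⟨R, hRC, hRe⟩ := hCe
            refine ⟨R, ?_, hRe⟩
            rw [mem_union, mem_union, mem_union]
            left; left; right
            exact hRC
          · have heF : e ∈ F := by
              rw [hF]
              refine mem_filter.2 ⟨heHM, ⟨by omega, htJ⟩, ?_, ?_⟩
              · intro S hS hSe
                have h5 := mem_shadow.1 (hU hS)
                have h6 : S ∈ tr k M e := by
                  unfold tr
                  exact mem_filter.2 ⟨mem_powersetCard.2 ⟨hSe, h5.1⟩, h5.2⟩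
                exact hIU S (htI h6) hS
              · intro R hRC hRe
                exact hCe ⟨R, hRC, hRe⟩
            refine ⟨rid e, ?_, hrid1 e heF⟩
            rw [mem_union, mem_union, mem_union]
            left; right
            exact mem_image_of_mem rid (mem_filter.2 ⟨heF, htI⟩)
        · have h5 : typ k M e = 1 := le_antisymm h4 htp
          obtain ⟨m, hm⟩ := card_eq_one.1 (show (nbr k M e).card = 1 from h5)
          have hmn : m ∈ nbr k M e := by rw [hm]; exact mem_singleton_self m
          have hmM : m ∈ M := (mem_filter.1 hmn).1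
          have hSc : (e ∩ m).card = k - 1 := card_inter_of_mem_nbr hM hec heM hmn
          have hSt : e ∩ m ∈ tr k M e := by
            unfold tr
            exact mem_filter.2 ⟨mem_powersetCard.2 ⟨inter_subset_left, hSc⟩,
              m, hmM, inter_subset_right⟩
          have hSI : e ∩ m ∈ I := htI hSt
          rcases hDm3 m hmM with h6 | ⟨Q, hQ1, hQ2, hQ3, hQ4⟩
          · exfalso
            have h7 : R m ⊆ e ∩ m := subset_inter (h6 e heHM hm) (hR1 m hmM)
            have h8 : R m = e ∩ m := eq_of_subset_of_card_le h7 (by rw [hSc, hR2 m hmM])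
            exact hIR m hmM (h8 ▸ hSI)
          · have heQ : e ⊆ Q := hQ3 e heHM hm
            obtain ⟨c, hcm, hce⟩ : ∃ c ∈ m, c ∉ e := by
              by_contra hcon
              push Not at hcon
              have h7 : e ∩ m = m := inter_eq_right.2 hcon
              rw [h7, hM m hmM] at hSc
              omega
            have h8 : e = Q.erase c := by
              refine eq_of_subset_of_card_le ?_ ?_
              · intro x hx
                refine mem_erase.2 ⟨?_, heQ hx⟩
                rintro rfl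
                exact hce hx
              · rw [card_erase_of_mem (hQ1 hcm), hQ2, hec]
                omega
            have h9 : m.erase c = e ∩ m := by
              symm
              refine eq_of_subset_of_card_le ?_ ?_
              · intro x hx
                refine mem_erase.2 ⟨?_, (mem_inter.1 hx).2⟩
                rintro rfl
                exact hce (mem_inter.1 hx).1
              · rw [card_erase_of_mem hcm, hM m hmM, hSc]
            obtain ⟨S, hS1, hS2⟩ := hQ4 c (mem_filter.2 ⟨hcm, by rw [h9]; exact hSI⟩)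
            refine ⟨S, ?_, by rw [h8]; exact hS2⟩
            rw [mem_union]
            right
            exact mem_biUnion.2 ⟨m, hmM, hS1⟩
      · obtain ⟨S, hS1, hS2⟩ := not_subset.1 htI
        unfold tr at hS1
        have h5 := mem_powersetCard.1 (mem_filter.1 hS1).1
        refine ⟨S, ?_, h5.1⟩
        rw [mem_union, mem_union, mem_union]
        left; left; left
        exact mem_sdiff.2 ⟨mem_shadow.2 ⟨h5.2, (mem_filter.1 hS1).2⟩, hS2⟩
  · -- the size
    have hsh : (shadow k M).card = k * M.card := card_shadow hk1 hM hP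
    have c1 : (shadow k M \ I).card + I.card = k * M.card := by
      rw [card_sdiff_add_card_eq_card hIs, hsh]
    have c2 : ((F.filter (fun f => tr k M f ⊆ I)).image rid).card ≤
        (F.filter (fun f => tr k M f ⊆ I)).card := card_image_le
    have c3 : 2 * (M.biUnion Dm).card ≤ I.card + M.card := by
      have h5 : (M.biUnion Dm).card ≤ ∑ m ∈ M, (Dm m).card := card_biUnion_le
      have h6 : 2 * ∑ m ∈ M, (Dm m).card ≤
          ∑ m ∈ M, ((m.filter (fun c => m.erase c ∈ I)).card + 1) := by
        rw [mul_sum]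
        exact sum_le_sum fun m hm => hDm2 m hm
      have h7 : ∑ m ∈ M, (m.filter (fun c => m.erase c ∈ I)).card ≤ I.card := sum_L_le hM hP
      rw [sum_add_distrib, sum_const, smul_eq_mul, mul_one] at h6
      omega
    have c4 : ((shadow k M \ I) ∪ C ∪ (F.filter (fun f => tr k M f ⊆ I)).image rid ∪
        M.biUnion Dm).card ≤ (shadow k M \ I).card + C.card +
          (F.filter (fun f => tr k M f ⊆ I)).card + (M.biUnion Dm).card := by
      refine (card_union_le _ _).trans ?_
      refine Nat.add_le_add_right ?_ _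
      refine (card_union_le _ _).trans ?_
      refine Nat.add_le_add ?_ c2
      exact card_union_le _ _
    have c5 : k * M.card ≤ E.card + (U.card + M.card) := by
      have h5 : (shadow k M).card ≤ E.card + (U ∪ M.image R).card := by
        rw [hE]
        have := card_le_card (show shadow k M ⊆ (shadow k M \ (U ∪ M.image R)) ∪
          (U ∪ M.image R) by
            intro x hx
            by_cases hx' : x ∈ U ∪ M.image R
            · exact mem_union_right _ hx'
            · exact mem_union_left _ (mem_sdiff.2 ⟨hx, hx'⟩))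
        exact this.trans (card_union_le _ _)
      have h6 : (U ∪ M.image R).card ≤ U.card + M.card :=
        (card_union_le _ _).trans (Nat.add_le_add_left card_image_le _)
      rw [hsh] at h5
      omega
    have r1 : ((shadow k M \ I).card : ℝ) + I.card = k * M.card := by exact_mod_cast c1
    have r3 : 2 * ((M.biUnion Dm).card : ℝ) ≤ I.card + M.card := by exact_mod_cast c3
    have r4 : ((((shadow k M \ I) ∪ C ∪ (F.filter (fun f => tr k M f ⊆ I)).image rid ∪
        M.biUnion Dm).card : ℕ) : ℝ) ≤ (shadow k M \ I).card + C.card +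
          (F.filter (fun f => tr k M f ⊆ I)).card + (M.biUnion Dm).card := by
      exact_mod_cast c4
    have r5 : (k : ℝ) * M.card ≤ E.card + (U.card + M.card) := by exact_mod_cast c5
    have hK0 : (0 : ℝ) < K := by exact_mod_cast hK
    have hcoef : 0 ≤ 1 / (2 * (K : ℝ)) * (1 - K * (k.choose J : ℝ) / K ^ J) := by
      refine mul_nonneg (by positivity) ?_
      rw [sub_nonneg, div_le_one (by positivity)]
      exact hKJ
    have r6 := mul_le_mul_of_nonneg_left
      (show ((k : ℝ) - 1) * M.card - U.card ≤ E.card by linarith) hcoef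
    rw [← hF]
    linarith

end Pool.Agent.Helper60.GT
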