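import Pool.Agent.Helper60.GT.Defs
import Pool.Agent.Helper60.GT.Geo

/-!
# Module DG: the degree sum

Put `α g = ξ θ^b δ^(typ g)`, `q = θ δ`. For `g ∈ F` adjacent to `f` write `R = f ∩ g = f - x`,
`f ∪ g = f + y`, `g = insert y (f.erase x)` (`adj_exists`). By `common_nbr_of_adj`,
`under_unique`, `inside_unique`:
`s := |nbr f ∩ nbr g| ≤ [Under M (f ∩ g)] + [∃ m ∈ M, m ⊆ f ∪ g]`. Always `s ≤ typ g ≤ b`, hence
`α g / q^s = ξ θ^(b-s) δ^(typ g - s) ≤ ξ`; `1/q^s` is monotone in `s` (`q ≤ 1`).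
* neither: `s = 0`; the sum over all such `g` is at most `∑ R (ridges of f, not under M)
  ξ θ^b load(R) ≤ k ξ θ^b T` (`g ↦ f ∩ g`, fibres are contained in the filter of the load).
* `R` under `M`, no member in `f ∪ g`: `s ≤ 1`, `α g/q^s ≤ (ξ θ^(b-1)/δ) δ^(typ g)`; at most
  `typ f ≤ b` ridges (`card_tr`), each with load `≤ Λ`: total `≤ b (ξ θ^(b-1) Λ/δ)`.
* `R` not under `M`, a member in `f ∪ g`: `s ≤ 1`, `α g / q^s ≤ ξ θ^(b-1) δ^(typ g - 1)
  ≤ ξ θ^(b-1) δ^(a-1)`; at most `b` choices of `y` (`card_outer_le`), `k` choices of `x`.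
* both: at most `b` choices of `x` (`card_inner_le`), `b` choices of `y`, each term `≤ ξ`.
-/

set_option autoImplicit false

open Finset

namespace Pool.Agent.Helper60.GT

namespace DG

variable {V : Type} [DecidableEq V] {k : ℕ} {M F : Finset (Finset V)}

open Classical in
theorem card_common_le (hk : 2 ≤ k) (hM : ∀ m ∈ M, m.card = k)
    (hP : ∀ m ∈ M, ∀ m' ∈ M, m ≠ m' → (m ∩ m').card < k - 1) {f g : Finset V}
    (hf : f.card = k) (hg : g.card = k) (hfM : f ∉ M) (hgM : g ∉ M) (h : Adj k f g) :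
    (nbr k M f ∩ nbr k M g).card ≤
      (if Under M (f ∩ g) then 1 else 0) + (if ∃ m ∈ M, m ⊆ f ∪ g then 1 else 0) := by
  have h1 : nbr k M f ∩ nbr k M g ⊆
      M.filter (fun m => f ∩ g ⊆ m) ∪ M.filter (fun m => m ⊆ f ∪ g) := by
    intro m hm
    rw [mem_inter] at hm
    have hmM : m ∈ M := (mem_filter.1 hm.1).1
    rw [mem_union, mem_filter, mem_filter]
    rcases common_nbr_of_adj hk hM hf hg hfM hgM h hm.1 hm.2 with h2 | h2
    · exact Or.inl ⟨hmM, h2⟩
    · exact Or.inr ⟨hmM, h2⟩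
  refine (card_le_card h1).trans ((card_union_le _ _).trans (Nat.add_le_add ?_ ?_))
  · split_ifs with hU
    · rw [card_le_one]
      intro m hm m' hm'
      rw [mem_filter] at hm hm'
      exact under_unique hP (adj_card_inter hf hg h) hm.1 hm'.1 hm.2 hm'.2
    · rw [Nat.le_zero, card_eq_zero, filter_eq_empty_iff]
      intro m hm h2
      exact hU ⟨m, hm, h2⟩
  · split_ifs with hI
    · rw [card_le_one]
      intro m hm m' hm'
      rw [mem_filter] at hm hm'
      exact inside_unique (by omega) hM hP (adj_card_union (by omega) hf hg h) hm.1 hm'.1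
        hm.2 hm'.2
    · rw [Nat.le_zero, card_eq_zero, filter_eq_empty_iff]
      intro m hm h2
      exact hI ⟨m, hm, h2⟩

theorem fibre_bound {δ L : ℝ} (hδ : 0 ≤ δ) (f : Finset V) (N P : Finset (Finset V))
    (hN : N ⊆ F) (hNP : ∀ g ∈ N, f ∩ g ∈ P) (hL : ∀ R ∈ P, load k M F δ R ≤ L) :
    ∑ g ∈ N, δ ^ typ k M g ≤ P.card * L := by
  rw [← Finset.sum_fiberwise_of_maps_to (g := fun g => f ∩ g) hNP]
  have h1 : ∀ R ∈ P, ∑ g ∈ N.filter (fun g => f ∩ g = R), δ ^ typ k M g ≤ L := by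
    intro R hR
    refine le_trans ?_ (hL R hR)
    unfold load
    refine Finset.sum_le_sum_of_subset_of_nonneg ?_ (fun _ _ _ => pow_nonneg hδ _)
    intro g hg
    rw [mem_filter] at hg ⊢
    refine ⟨hN hg.1, ?_⟩
    rw [← hg.2]
    exact inter_subset_right
  calc ∑ R ∈ P, ∑ g ∈ N.filter (fun g => f ∩ g = R), δ ^ typ k M g ≤ ∑ _R ∈ P, L :=
        Finset.sum_le_sum h1
    _ = P.card * L := by rw [sum_const, nsmul_eq_mul]

section terms

variable {ξ θ δ : ℝ} {a b t s : ℕ}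

theorem pw (hθ : 0 < θ) (hθ1 : θ ≤ 1) (hδ : 0 < δ) (hδ1 : δ ≤ 1) (hξ : 0 < ξ) (hs : s ≤ 1) :
    ξ * θ ^ b * δ ^ t / (θ * δ) ^ s ≤ ξ * θ ^ b * δ ^ t / (θ * δ) := by
  have hq : 0 < θ * δ := mul_pos hθ hδ
  have hq1 : θ * δ ≤ 1 := mul_le_one₀ hθ1 hδ.le hδ1
  refine div_le_div_of_nonneg_left (by positivity) hq ?_
  calc θ * δ = (θ * δ) ^ 1 := (pow_one _).symm
    _ ≤ (θ * δ) ^ s := pow_le_pow_of_le_one hq.le hq1 hs

theorem term2 (hθ : 0 < θ) (hθ1 : θ ≤ 1) (hδ : 0 < δ) (hδ1 : δ ≤ 1) (hξ : 0 < ξ) (hs : s ≤ 1)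
    (hb : 1 ≤ b) :
    ξ * θ ^ b * δ ^ t / (θ * δ) ^ s ≤ ξ * θ ^ (b - 1) / δ * δ ^ t := by
  refine (pw hθ hθ1 hδ hδ1 hξ hs).trans (le_of_eq ?_)
  obtain ⟨b', rfl⟩ : ∃ b', b = b' + 1 := ⟨b - 1, by omega⟩
  rw [Nat.add_sub_cancel]
  have h1 := hθ.ne'
  have h2 := hδ.ne'
  field_simp
  ring

theorem term3 (hθ : 0 < θ) (hθ1 : θ ≤ 1) (hδ : 0 < δ) (hδ1 : δ ≤ 1) (hξ : 0 < ξ) (hs : s ≤ 1)
    (hb : 1 ≤ b) (ha : 1 ≤ a) (hat : a ≤ t) :
    ξ * θ ^ b * δ ^ t / (θ * δ) ^ s ≤ ξ * θ ^ (b - 1) * δ ^ (a - 1) := by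
  refine (pw hθ hθ1 hδ hδ1 hξ hs).trans ?_
  obtain ⟨b', rfl⟩ : ∃ b', b = b' + 1 := ⟨b - 1, by omega⟩
  obtain ⟨t', rfl⟩ : ∃ t', t = t' + 1 := ⟨t - 1, by omega⟩
  rw [Nat.add_sub_cancel]
  have h1 := hθ.ne'
  have h2 := hδ.ne'
  have h3 : ξ * θ ^ (b' + 1) * δ ^ (t' + 1) / (θ * δ) = ξ * θ ^ b' * δ ^ t' := by
    field_simp
    ring
  rw [h3]
  exact mul_le_mul_of_nonneg_left (pow_le_pow_of_le_one hδ.le hδ1 (by omega)) (by positivity)

theorem term4 (hθ : 0 < θ) (hθ1 : θ ≤ 1) (hδ : 0 < δ) (hδ1 : δ ≤ 1) (hξ : 0 < ξ)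
    (hsb : s ≤ b) (hst : s ≤ t) :
    ξ * θ ^ b * δ ^ t / (θ * δ) ^ s ≤ ξ := by
  have hq : 0 < θ * δ := mul_pos hθ hδ
  rw [div_le_iff₀ (pow_pos hq s), mul_pow, mul_assoc]
  refine mul_le_mul_of_nonneg_left ?_ hξ.le
  exact mul_le_mul (pow_le_pow_of_le_one hθ.le hθ1 hsb) (pow_le_pow_of_le_one hδ.le hδ1 hst)
    (by positivity) (by positivity)

end terms

end DG

open DG in
open Classical in
theorem deg : StDeg := by
  intro V _ k a b M F ξ θ δ T Λ hk ha hab hM hP hF hξ hθ hθ1 hδ hδ1 hT hΛ hR hRU f hf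
  obtain ⟨hfk, hfM, hfa, hfb⟩ := hF f hf
  have hk1 : 1 ≤ k := by omega
  -- abbreviations
  set N : Finset (Finset V) := F.filter (fun g => Adj k f g) with hN
  have hNF : N ⊆ F := filter_subset _ _
  have hNadj : ∀ g ∈ N, Adj k f g := fun g hg => (mem_filter.1 hg).2
  set I : Finset V → Prop := fun g => ∃ m ∈ M, m ⊆ f ∪ g with hI
  set Un : Finset V → Prop := fun g => Under M (f ∩ g) with hUn
  -- termwise bound
  have hterm : ∀ g ∈ N, ξ * θ ^ b * δ ^ typ k M g / (θ * δ) ^ (nbr k M f ∩ nbr k M g).card ≤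
      (if ¬ Un g then ξ * θ ^ b * δ ^ typ k M g else 0) +
      (if Un g then ξ * θ ^ (b - 1) / δ * δ ^ typ k M g else 0) +
      (if ¬ Un g ∧ I g then ξ * θ ^ (b - 1) * δ ^ (a - 1) else 0) +
      (if Un g ∧ I g then ξ else 0) := by
    intro g hg
    obtain ⟨hgk, hgM, hga, hgb⟩ := hF g (hNF hg)
    have hc := card_common_le hk hM hP hfk hgk hfM hgM (hNadj g hg)
    have hst : (nbr k M f ∩ nbr k M g).card ≤ typ k M g := card_le_card inter_subset_right
    have hsb := hst.trans hgb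
    have p1 : 0 ≤ ξ * θ ^ b * δ ^ typ k M g := by positivity
    have p2 : 0 ≤ ξ * θ ^ (b - 1) / δ * δ ^ typ k M g := by positivity
    by_cases hU : Un g
    · by_cases hIg : I g
      · rw [if_neg (not_not.2 hU), if_pos hU, if_neg (fun h => h.1 hU), if_pos ⟨hU, hIg⟩]
        have := term4 hθ hθ1 hδ hδ1 hξ hsb hst
        linarith
      · rw [if_neg (not_not.2 hU), if_pos hU, if_neg (fun h => h.1 hU),
          if_neg (fun h => hIg h.2)]
        have h1 : (nbr k M f ∩ nbr k M g).card ≤ 1 := by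
          rw [if_pos hU, if_neg hIg] at hc
          omega
        have := term2 (t := typ k M g) hθ hθ1 hδ hδ1 hξ h1 (by omega : 1 ≤ b)
        linarith
    · by_cases hIg : I g
      · rw [if_pos hU, if_neg hU, if_pos ⟨hU, hIg⟩, if_neg (fun h => hU h.1)]
        have h1 : (nbr k M f ∩ nbr k M g).card ≤ 1 := by
          rw [if_neg hU, if_pos hIg] at hc
          omega
        have := term3 (t := typ k M g) hθ hθ1 hδ hδ1 hξ h1 (by omega : 1 ≤ b)
          (by omega : 1 ≤ a) hga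
        linarith
      · rw [if_pos hU, if_neg hU, if_neg (fun h => hIg h.2), if_neg (fun h => hU h.1)]
        have h1 : (nbr k M f ∩ nbr k M g).card = 0 := by
          rw [if_neg hU, if_neg hIg] at hc
          omega
        rw [h1, pow_zero, div_one]
        linarith
  refine (Finset.sum_le_sum hterm).trans ?_
  rw [sum_add_distrib, sum_add_distrib, sum_add_distrib, ← sum_filter, ← sum_filter,
    ← sum_filter, ← sum_filter]
  -- the choices of `y`
  set Y : Finset V := (F.biUnion id).filter (fun y => y ∉ f ∧ ∃ m ∈ M, m ⊆ insert y f) with hY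
  have hYc : Y.card ≤ b :=
    (card_outer_le hk1 hM hfk hfM Y (fun y hy => (mem_filter.1 hy).2)).trans hfb
  set X : Finset V := f.filter (fun x => Under M (f.erase x)) with hX
  have hXc : X.card ≤ b :=
    (card_inner_le hk1 hM hP hfk hfM X (fun x hx => mem_filter.1 hx)).trans hfb
  have hform : ∀ g ∈ N, I g → ∃ x ∈ f, ∃ y ∈ Y, f ∩ g = f.erase x ∧ g = insert y (f.erase x) := by
    intro g hg hIg
    obtain ⟨x, hx, y, hy, h1, h2, h3⟩ := adj_exists hk1 hfk (hF g (hNF hg)).1 (hNadj g hg)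
    refine ⟨x, hx, y, ?_, h1, h3⟩
    rw [hY, mem_filter]
    refine ⟨?_, hy, ?_⟩
    · rw [mem_biUnion]
      refine ⟨g, hNF hg, ?_⟩
      have : y ∈ g := by rw [h3]; exact mem_insert_self _ _
      exact this
    · obtain ⟨m, hm, hmf⟩ := hIg
      exact ⟨m, hm, by rw [← h2]; exact hmf⟩
  refine add_le_add (add_le_add (add_le_add ?_ ?_) ?_) ?_
  · -- not under `M`
    rw [← mul_sum]
    have h1 := fibre_bound (k := k) (M := M) (F := F) (L := T) hδ.le f
      (N.filter (fun g => ¬ Un g))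
      ((f.image (fun x => f.erase x)).filter (fun R => ¬ Under M R))
      ((filter_subset _ _).trans hNF) (by
        intro g hg
        rw [mem_filter] at hg
        obtain ⟨x, hx, y, hy, e1, e2, e3⟩ :=
          adj_exists hk1 hfk (hF g (hNF hg.1)).1 (hNadj g hg.1)
        rw [mem_filter]
        refine ⟨?_, hg.2⟩
        rw [e1]
        exact mem_image_of_mem _ hx) (by
        intro R hRm
        rw [mem_filter, mem_image] at hRm
        obtain ⟨⟨x, hx, rfl⟩, h2⟩ := hRm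
        exact hR _ (by rw [card_erase_of_mem hx, hfk]) h2)
    have h2 : (((f.image (fun x => f.erase x)).filter (fun R => ¬ Under M R)).card : ℝ) ≤ k := by
      have := ((card_filter_le (f.image (fun x => f.erase x)) (fun R => ¬ Under M R)).trans
        card_image_le)
      rw [hfk] at this
      exact_mod_cast this
    calc ξ * θ ^ b * ∑ g ∈ N.filter (fun g => ¬ Un g), δ ^ typ k M g
        ≤ ξ * θ ^ b * (k * T) := by
          refine mul_le_mul_of_nonneg_left (h1.trans ?_) (by positivity)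
          exact mul_le_mul_of_nonneg_right h2 hT
      _ = k * (ξ * θ ^ b * T) := by ring
  · -- under `M`
    rw [← mul_sum]
    have h1 := fibre_bound (k := k) (M := M) (F := F) (L := Λ) hδ.le f
      (N.filter (fun g => Un g)) (tr k M f)
      ((filter_subset _ _).trans hNF) (by
        intro g hg
        rw [mem_filter] at hg
        unfold tr
        rw [mem_filter, mem_powersetCard]
        exact ⟨⟨inter_subset_left, adj_card_inter hfk (hF g (hNF hg.1)).1 (hNadj g hg.1)⟩,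
          hg.2⟩) (by
        intro R hRm
        unfold tr at hRm
        rw [mem_filter, mem_powersetCard] at hRm
        exact hRU R hRm.1.2 hRm.2)
    have h2 : ((tr k M f).card : ℝ) ≤ b := by
      rw [card_tr hk1 hM hP hfk hfM]
      exact_mod_cast hfb
    calc ξ * θ ^ (b - 1) / δ * ∑ g ∈ N.filter (fun g => Un g), δ ^ typ k M g
        ≤ ξ * θ ^ (b - 1) / δ * (b * Λ) := by
          refine mul_le_mul_of_nonneg_left (h1.trans ?_) (by positivity)
          exact mul_le_mul_of_nonneg_right h2 hΛ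
      _ = b * (ξ * θ ^ (b - 1) * Λ / δ) := by ring
  · -- not under `M`, a member in the union
    rw [sum_const, nsmul_eq_mul]
    refine mul_le_mul_of_nonneg_right ?_ (by positivity)
    have h1 : N.filter (fun g => ¬ Un g ∧ I g) ⊆
        (f ×ˢ Y).image (fun p => insert p.2 (f.erase p.1)) := by
      intro g hg
      rw [mem_filter] at hg
      obtain ⟨x, hx, y, hy, e1, e2⟩ := hform g hg.1 hg.2.2
      rw [mem_image]
      exact ⟨(x, y), mem_product.2 ⟨hx, hy⟩, e2.symm⟩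
    have h2 : (N.filter (fun g => ¬ Un g ∧ I g)).card ≤ b * k := by
      refine (card_le_card h1).trans (card_image_le.trans ?_)
      rw [card_product, hfk, mul_comm]
      exact Nat.mul_le_mul_right _ hYc
    exact_mod_cast h2
  · -- both
    rw [sum_const, nsmul_eq_mul]
    refine mul_le_mul_of_nonneg_right ?_ hξ.le
    have h1 : N.filter (fun g => Un g ∧ I g) ⊆
        (X ×ˢ Y).image (fun p => insert p.2 (f.erase p.1)) := by
      intro g hg
      rw [mem_filter] at hg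
      obtain ⟨x, hx, y, hy, e1, e2⟩ := hform g hg.1 hg.2.2
      rw [mem_image]
      refine ⟨(x, y), mem_product.2 ⟨?_, hy⟩, e2.symm⟩
      rw [hX, mem_filter]
      refine ⟨hx, ?_⟩
      rw [← e1]
      exact hg.2.1
    have h2 : (N.filter (fun g => Un g ∧ I g)).card ≤ b ^ 2 := by
      refine (card_le_card h1).trans (card_image_le.trans ?_)
      rw [card_product, sq]
      exact Nat.mul_le_mul hXc hYc
    exact_mod_cast h2

end Pool.Agent.Helper60.GT
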