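import Pool.Agent.Helper60.GT.Defs

/-!
# Module FA: the bound for every hypergraph

`L = log k`, `J = ⌊L/210000⌋₊ ≥ L/420000`, `c₁ = 420000 e exp(840000)`, `K = ⌈c₁ k/L⌉₊`, `k`
large: `K ≤ k`, `K ≥ 3*10^7`, `k/K ≥ L/(2 c₁) ≥ 10`. `C(k,J) ≤ k^J/J! ≤ (e k/J)^J`
(`Real.pow_div_factorial_le_exp` for `J^J/J! ≤ e^J`), so
`K C(k,J)/K^J ≤ K (e k/(J K))^J ≤ K (e L/(c₁ J))^J ≤ K exp(-840000 J) ≤ K/k^2 ≤ 1/10`.
`δ = 1/K`; `hT` gives `U, C`; `hC`:
`|D| ≤ k|M| + (1/50)(k/K)|M| + |M|/2 - (1/(2K))(9/10)((k-1) - k/10)|M| + (1/100)(k/K)|M|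
 ≤ (k - 0.28 k/K)|M| ≤ (k - (0.14/c₁) L)|M|`.
-/

set_option autoImplicit false

open Finset

namespace Pool.Agent.Helper60.GT

/-- `C(k,J) J^J ≤ (e k)^J` -/
theorem finA_choose (k J : ℕ) (hJ : 1 ≤ J) :
    (k.choose J : ℝ) ≤ (Real.exp 1 * k / J) ^ J := by
  have hJ0 : (0 : ℝ) < J := by exact_mod_cast hJ
  have h1 : (k.choose J : ℝ) ≤ (k : ℝ) ^ J / (J.factorial : ℝ) := Nat.choose_le_pow_div J k
  have h2 : (J : ℝ) ^ J / (J.factorial : ℝ) ≤ Real.exp (J : ℝ) :=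
    Real.pow_div_factorial_le_exp (J : ℝ) hJ0.le J
  have hf : (0 : ℝ) < (J.factorial : ℝ) := by exact_mod_cast J.factorial_pos
  have h3 : Real.exp (J : ℝ) = Real.exp 1 ^ J := by
    rw [← Real.exp_nat_mul]; simp
  have h4 : (1 : ℝ) / (J.factorial : ℝ) ≤ Real.exp 1 ^ J / (J : ℝ) ^ J := by
    rw [h3] at h2
    rw [div_le_div_iff₀ hf (pow_pos hJ0 J)]
    rw [div_le_iff₀ hf] at h2
    linarith
  calc (k.choose J : ℝ) ≤ (k : ℝ) ^ J / (J.factorial : ℝ) := h1
    _ = (k : ℝ) ^ J * (1 / (J.factorial : ℝ)) := by ring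
    _ ≤ (k : ℝ) ^ J * (Real.exp 1 ^ J / (J : ℝ) ^ J) :=
        mul_le_mul_of_nonneg_left h4 (by positivity)
    _ = (Real.exp 1 * k / J) ^ J := by
        rw [div_pow, mul_pow]; ring

/-- The numerical facts. -/
theorem finA_num (c₁ : ℝ) (hc₁ : c₁ = 420000 * Real.exp 1 * Real.exp 840000) (k : ℕ)
    (hk : 20 * c₁ ≤ Real.log k) :
    ∃ K J : ℕ, 1 ≤ K ∧ 1 ≤ J ∧ 2 ≤ k ∧ (J : ℝ) ≤ Real.log k / 210000 ∧
      (3 * 10 ^ 7 : ℝ) ≤ K ∧ (10 : ℝ) ≤ k / K ∧ Real.log k / (2 * c₁) ≤ k / K ∧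
      (K : ℝ) * (k.choose J : ℝ) / K ^ J ≤ 1 / 10 := by
  have he1 : (2 : ℝ) ≤ Real.exp 1 := by
    have := Real.add_one_le_exp (1 : ℝ)
    linarith
  have he2 : (840001 : ℝ) ≤ Real.exp 840000 := by
    have := Real.add_one_le_exp (840000 : ℝ)
    linarith
  have hc0 : (3 * 10 ^ 7 : ℝ) ≤ c₁ := by
    rw [hc₁]
    nlinarith [Real.exp_pos 1, Real.exp_pos 840000]
  have hc : 0 < c₁ := by linarith
  have hL : (6 * 10 ^ 8 : ℝ) ≤ Real.log k := by linarith
  have hL0 : 0 < Real.log k := by linarith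
  have hk0 : (0 : ℝ) < k := by
    by_contra h
    have h0 : (k : ℝ) = 0 := le_antisymm (not_lt.1 h) (Nat.cast_nonneg k)
    rw [h0, Real.log_zero] at hL0
    exact lt_irrefl _ hL0
  have hLk : Real.log k ≤ k := by
    have := Real.log_le_sub_one_of_pos hk0
    linarith
  have hk1 : (6 * 10 ^ 8 : ℝ) ≤ k := le_trans hL hLk
  -- K
  have hx1 : c₁ ≤ c₁ * k / Real.log k := by
    rw [le_div_iff₀ hL0]
    exact mul_le_mul_of_nonneg_left hLk hc.le
  set K : ℕ := ⌈c₁ * k / Real.log k⌉₊ with hKdef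
  have hK1 : c₁ * k / Real.log k ≤ K := Nat.le_ceil _
  have hK2 : (K : ℝ) < c₁ * k / Real.log k + 1 := Nat.ceil_lt_add_one (by linarith)
  have hK3 : (K : ℝ) ≤ 2 * c₁ * k / Real.log k := by
    have : 2 * c₁ * k / Real.log k = c₁ * k / Real.log k + c₁ * k / Real.log k := by ring
    rw [this]
    linarith
  have hK4 : (3 * 10 ^ 7 : ℝ) ≤ K := by linarith
  have hK0 : (0 : ℝ) < K := by linarith
  have hKk : Real.log k / (2 * c₁) ≤ k / K := by
    rw [div_le_div_iff₀ (by positivity) hK0]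
    have h := mul_le_mul_of_nonneg_left hK3 hL0.le
    have h2 : Real.log k * (2 * c₁ * k / Real.log k) = k * (2 * c₁) := by
      field_simp
    linarith
  have h10 : (10 : ℝ) ≤ k / K := by
    refine le_trans ?_ hKk
    rw [le_div_iff₀ (by positivity)]
    linarith
  -- J
  set J : ℕ := ⌊Real.log k / 210000⌋₊ with hJdef
  have hJ1 : (J : ℝ) ≤ Real.log k / 210000 := Nat.floor_le (by positivity)
  have hJ2 : Real.log k / 210000 < J + 1 := Nat.lt_floor_add_one _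
  have hJ3 : Real.log k / 420000 ≤ J := by
    have : Real.log k / 210000 = 2 * (Real.log k / 420000) := by ring
    have h1 : 1 ≤ Real.log k / 420000 := by
      rw [le_div_iff₀ (by norm_num)]
      linarith
    linarith
  have hJ4 : (1 : ℝ) ≤ J := by
    have h1 : 1 ≤ Real.log k / 420000 := by
      rw [le_div_iff₀ (by norm_num)]
      linarith
    linarith
  have hJ5 : 1 ≤ J := by exact_mod_cast hJ4
  have hJ0 : (0 : ℝ) < J := by linarith
  refine ⟨K, J, ?_, hJ5, ?_, hJ1, hK4, h10, hKk, ?_⟩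
  · have : (1 : ℝ) ≤ K := by linarith
    exact_mod_cast this
  · have : (2 : ℝ) ≤ k := by linarith
    exact_mod_cast this
  · -- the binomial estimate
    have hb : Real.exp 1 * k / J / K ≤ Real.exp (-840000) := by
      have h1 : c₁ * k / 420000 ≤ J * K := by
        calc c₁ * k / 420000 = (Real.log k / 420000) * (c₁ * k / Real.log k) := by
              field_simp
          _ ≤ J * K := by
              apply mul_le_mul hJ3 hK1 _ hJ0.le
              positivity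
      have h2 : c₁ * k / 420000 = Real.exp 840000 * (Real.exp 1 * k) := by
        rw [hc₁]; ring
      rw [h2] at h1
      rw [div_div, div_le_iff₀ (by positivity)]
      have h3 := mul_le_mul_of_nonneg_left h1 (Real.exp_pos (-840000)).le
      have h4 : Real.exp (-840000) * (Real.exp 840000 * (Real.exp 1 * k)) = Real.exp 1 * k := by
        rw [← mul_assoc, ← Real.exp_add]
        norm_num
      rw [h4] at h3
      exact h3
    have hq : (k.choose J : ℝ) / K ^ J ≤ Real.exp (-840000) ^ J := by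
      calc (k.choose J : ℝ) / K ^ J ≤ (Real.exp 1 * k / J) ^ J / K ^ J :=
            div_le_div_of_nonneg_right (finA_choose k J hJ5) (by positivity)
        _ = (Real.exp 1 * k / J / K) ^ J := by rw [← div_pow]
        _ ≤ Real.exp (-840000) ^ J := pow_le_pow_left₀ (by positivity) hb J
    have hr : Real.exp (-840000) ^ J ≤ 1 / (k : ℝ) ^ 2 := by
      rw [← Real.exp_nat_mul]
      have h1 : (J : ℝ) * (-840000) ≤ -(2 * Real.log k) := by
        have := hJ3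
        rw [div_le_iff₀ (by norm_num)] at this
        linarith
      have h2 : Real.exp (-(2 * Real.log k)) = 1 / (k : ℝ) ^ 2 := by
        rw [Real.exp_neg, two_mul, Real.exp_add, Real.exp_log hk0]
        rw [one_div, sq]
      rw [← h2]
      exact Real.exp_le_exp.2 h1
    have hKk2 : (K : ℝ) ≤ k / 10 := by
      rw [le_div_iff₀ hK0] at h10
      linarith
    calc (K : ℝ) * (k.choose J : ℝ) / K ^ J = K * ((k.choose J : ℝ) / K ^ J) := by ring
      _ ≤ K * (1 / (k : ℝ) ^ 2) := mul_le_mul_of_nonneg_left (hq.trans hr) hK0.le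
      _ ≤ (k / 10) * (1 / (k : ℝ) ^ 2) := mul_le_mul_of_nonneg_right hKk2 (by positivity)
      _ = (1 / 10) * (1 / k) := by field_simp
      _ ≤ (1 / 10) * 1 := by
          apply mul_le_mul_of_nonneg_left _ (by norm_num)
          rw [div_le_one hk0]
          linarith
      _ = 1 / 10 := by norm_num

theorem finA (hT : StTypes) (hC : StCover) : StFinA := by
  obtain ⟨k₀, hk₀⟩ := hT
  obtain ⟨c₁, hc₁⟩ : ∃ c : ℝ, c = 420000 * Real.exp 1 * Real.exp 840000 := ⟨_, rfl⟩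
  have hc : 0 < c₁ := by rw [hc₁]; positivity
  refine ⟨14 / 100 / c₁, by positivity, max k₀ ⌈Real.exp (20 * c₁)⌉₊, ?_⟩
  intro k hk V _ _ H M hH hM
  have hkk₀ : k₀ ≤ k := le_trans (le_max_left _ _) hk
  have hkexp : Real.exp (20 * c₁) ≤ k := by
    refine le_trans (Nat.le_ceil _) ?_
    exact_mod_cast le_trans (le_max_right _ _) hk
  have hlog : 20 * c₁ ≤ Real.log k := by
    have h0 : (0 : ℝ) < k := lt_of_lt_of_le (Real.exp_pos _) hkexp
    rw [Real.le_log_iff_exp_le h0]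
    exact hkexp
  obtain ⟨K, J, hK1, hJ1, hk2, hJL, hKbig, h10, hKk, hX⟩ := finA_num c₁ hc₁ k hlog
  have hK0 : (0 : ℝ) < K := by linarith
  have hk0 : (2 : ℝ) ≤ k := by exact_mod_cast hk2
  have hδ0 : (0 : ℝ) < 1 / K := by positivity
  have hδ1 : (1 : ℝ) / K ≤ 1 / (3 * 10 ^ 7) :=
    one_div_le_one_div_of_le (by norm_num) hKbig
  obtain ⟨U, C, hU, hCr, hUc, hCc, hw⟩ := hk₀ k hkk₀ J hJL (1 / K) hδ0 hδ1 V H M hH hM
  have hX2 : (K : ℝ) * (k.choose J : ℝ) ≤ K ^ J := by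
    have hp : (0 : ℝ) < (K : ℝ) ^ J := by positivity
    rw [div_le_iff₀ hp] at hX
    linarith
  obtain ⟨D, hD1, hD2, hD3⟩ := hC V k K J H M U C hk2 hK1 hJ1 hX2 hH hM hU hCr
  refine ⟨D, hD1, hD2, ?_⟩
  set m : ℝ := (M.card : ℝ) with hm
  have hm0 : 0 ≤ m := Nat.cast_nonneg _
  set X : ℝ := (K : ℝ) * (k.choose J : ℝ) / K ^ J with hXd
  have hX0 : 0 ≤ X := by rw [hXd]; positivity
  set W : ℝ := wt k M ((H \ M).filter (fun f => (2 ≤ typ k M f ∧ typ k M f ≤ J) ∧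
          (∀ S ∈ U, ¬ S ⊆ f) ∧ ∀ R ∈ C, ¬ R ⊆ f)) (1 / (K : ℝ)) with hWd
  set t : ℝ := (k : ℝ) / K with htd
  have hkK : (1 : ℝ) / K * k = t := by rw [htd]; ring
  have hCc' : (C.card : ℝ) ≤ 1 / 50 * t * m := by
    calc (C.card : ℝ) ≤ 1 / 50 * (1 / K) * k * m := hCc
      _ = 1 / 50 * t * m := by rw [← hkK]; ring
  have hw' : W ≤ 1 / 100 * t * m := by
    calc W ≤ 1 / 100 * (1 / K) * k * m := by
          rw [hWd]
          convert hw
      _ = 1 / 100 * t * m := by rw [← hkK]; ring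
  -- the main gain
  have hA0 : (9 / 10 * k - 1) * m ≤ ((k : ℝ) - 1) * m - U.card := by
    have : (U.card : ℝ) ≤ k / 10 * m := hUc
    linarith
  have hA1 : 0 ≤ (9 / 10 * (k : ℝ) - 1) * m := mul_nonneg (by linarith) hm0
  have hgain : (1 / (2 * (K : ℝ))) * (9 / 10) * ((9 / 10 * k - 1) * m) ≤
      1 / (2 * (K : ℝ)) * (1 - X) * (((k : ℝ) - 1) * m - U.card) := by
    have h1 : (9 / 10 : ℝ) * ((9 / 10 * k - 1) * m) ≤ (1 - X) * (((k : ℝ) - 1) * m - U.card) :=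
      mul_le_mul (by linarith) hA0 hA1 (by linarith)
    have h2 := mul_le_mul_of_nonneg_left h1 (show (0 : ℝ) ≤ 1 / (2 * (K : ℝ)) by positivity)
    calc (1 / (2 * (K : ℝ))) * (9 / 10) * ((9 / 10 * k - 1) * m)
        = 1 / (2 * (K : ℝ)) * (9 / 10 * ((9 / 10 * k - 1) * m)) := by ring
      _ ≤ 1 / (2 * (K : ℝ)) * ((1 - X) * (((k : ℝ) - 1) * m - U.card)) := h2
      _ = _ := by ring
  have hgain2 : (1 / (2 * (K : ℝ))) * (9 / 10) * ((9 / 10 * k - 1) * m) =
      81 / 200 * t * m - 9 / 20 * (1 / K) * m := by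
    rw [← hkK]
    field_simp
    ring
  have hsm : (1 : ℝ) / K ≤ 1 / 100 := hδ1.trans (by norm_num)
  have hsm2 : 9 / 20 * (1 / (K : ℝ)) * m ≤ 9 / 20 * (1 / 100) * m := by
    apply mul_le_mul_of_nonneg_right _ hm0
    linarith
  have ht : 10 * m ≤ t * m := mul_le_mul_of_nonneg_right h10 hm0
  have hfin : (D.card : ℝ) ≤ k * m - 28 / 100 * (t * m) := by
    have h3 : (D.card : ℝ) ≤ k * m + C.card + m / 2
        - 1 / (2 * (K : ℝ)) * (1 - X) * (((k : ℝ) - 1) * m - U.card) + W := hD3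
    have h4 := hgain
    rw [hgain2] at h4
    linarith
  have hlast : 14 / 100 / c₁ * Real.log k ≤ 28 / 100 * t := by
    have h5 := mul_le_mul_of_nonneg_left hKk (show (0 : ℝ) ≤ 28 / 100 by norm_num)
    have h6 : 28 / 100 * (Real.log k / (2 * c₁)) = 14 / 100 / c₁ * Real.log k := by
      field_simp
      ring
    linarith
  have hlast2 := mul_le_mul_of_nonneg_right hlast hm0
  calc (D.card : ℝ) ≤ k * m - 28 / 100 * (t * m) := hfin
    _ ≤ (k - 14 / 100 / c₁ * Real.log k) * m := by linarith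

end Pool.Agent.Helper60.GT
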