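import Pool.Agent.Helper60.GT.Defs

/-!
# Module FB: bounded degrees of the ridges

`C = 420000`, `L = log k`, `J = ⌊L/210000⌋₊ ≥ L/420000`, `K = max (3*10^7) ⌈(100 N)^(1/J)⌉₊`.
`K^J ≥ 100 N`; `(100 N)^(1/J) ≤ exp(420000 (log 100 + log N)/L) ≤ 2 exp(C log N/L)`, so
`K ≤ 3*10^7 exp(C log N/L)`, and `k/K ≥ L/(3*10^7) ≥ 10` by the hypothesis
`L ≤ k exp(-(C log N/L))`. `hC` with `J := k`: `K C(k,k)/K^k ≤ 1/10`. The weight of
the family of types `2..k` at `δ = 1/K` is at most that of types `2..J` (`hT` with `J`: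
`≤ (1/100)(k/K)|M|`) plus `|H| K^(-(J+1)) ≤ k |M| N/K^(J+1) ≤ (1/100)(k/K)|M|` (`hN`). Total
`|D| ≤ (k - 0.27 k/K)|M| ≤ (k - (0.27/(3*10^7)) k exp(-(C log N/L)))|M|`.
-/

set_option autoImplicit false

open Finset

namespace Pool.Agent.Helper60.GT

theorem finB_wt {V : Type} [DecidableEq V] (k J N : ℕ) (K : ℝ) (hK : 1 ≤ K)
    (hKJ : 100 * (N : ℝ) ≤ K ^ J) (hN1 : 1 ≤ N) (H M U C : Finset (Finset V))
    {i1 : DecidablePred (fun f : Finset V => (2 ≤ typ k M f ∧ typ k M f ≤ J) ∧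
          (∀ S ∈ U, ¬ S ⊆ f) ∧ ∀ R ∈ C, ¬ R ⊆ f)}
    {i2 : DecidablePred (fun f : Finset V => (2 ≤ typ k M f ∧ typ k M f ≤ k) ∧
          (∀ S ∈ U, ¬ S ⊆ f) ∧ ∀ R ∈ C, ¬ R ⊆ f)}
    (hH : H.card ≤ k * M.card * N)
    (hw : wt k M ((H \ M).filter (fun f => (2 ≤ typ k M f ∧ typ k M f ≤ J) ∧
          (∀ S ∈ U, ¬ S ⊆ f) ∧ ∀ R ∈ C, ¬ R ⊆ f)) (1 / K) ≤ 1 / 100 * (1 / K) * k * M.card) :
    wt k M ((H \ M).filter (fun f => (2 ≤ typ k M f ∧ typ k M f ≤ k) ∧
          (∀ S ∈ U, ¬ S ⊆ f) ∧ ∀ R ∈ C, ¬ R ⊆ f)) (1 / K) ≤ 2 / 100 * (1 / K) * k * M.card := by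
  classical
  have hK0 : 0 < K := by linarith
  have hδ0 : 0 ≤ 1 / K := by positivity
  have hδ1 : 1 / K ≤ 1 := by
    rw [div_le_one hK0]
    exact hK
  unfold wt at hw ⊢
  rw [← sum_filter_add_sum_filter_not _ (fun f => typ k M f ≤ J)]
  have h1 : ∑ f ∈ ((H \ M).filter (fun f => (2 ≤ typ k M f ∧ typ k M f ≤ k) ∧
          (∀ S ∈ U, ¬ S ⊆ f) ∧ ∀ R ∈ C, ¬ R ⊆ f)).filter (fun f => typ k M f ≤ J),
          (1 / K) ^ typ k M f ≤ 1 / 100 * (1 / K) * k * M.card := by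
    refine le_trans (sum_le_sum_of_subset_of_nonneg ?_ fun _ _ _ => by positivity) hw
    intro f hf
    rw [mem_filter, mem_filter] at hf
    rw [mem_filter]
    exact ⟨hf.1.1, ⟨hf.1.2.1.1, hf.2⟩, hf.1.2.2⟩
  have h2 : ∑ f ∈ ((H \ M).filter (fun f => (2 ≤ typ k M f ∧ typ k M f ≤ k) ∧
          (∀ S ∈ U, ¬ S ⊆ f) ∧ ∀ R ∈ C, ¬ R ⊆ f)).filter (fun f => ¬ typ k M f ≤ J),
          (1 / K) ^ typ k M f ≤ H.card • (1 / K) ^ (J + 1) := by
    have h3 : ∀ f ∈ ((H \ M).filter (fun f => (2 ≤ typ k M f ∧ typ k M f ≤ k) ∧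
          (∀ S ∈ U, ¬ S ⊆ f) ∧ ∀ R ∈ C, ¬ R ⊆ f)).filter (fun f => ¬ typ k M f ≤ J),
          (1 / K) ^ typ k M f ≤ (1 / K) ^ (J + 1) := by
      intro f hf
      rw [mem_filter] at hf
      exact pow_le_pow_of_le_one hδ0 hδ1 (by omega)
    refine (sum_le_card_nsmul _ _ _ h3).trans ?_
    refine nsmul_le_nsmul_left (by positivity) (card_le_card ?_)
    intro f hf
    rw [mem_filter, mem_filter, mem_sdiff] at hf
    exact hf.1.1.1
  have h4 : H.card • (1 / K) ^ (J + 1) ≤ 1 / 100 * (1 / K) * k * M.card := by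
    rw [nsmul_eq_mul, pow_succ]
    have h5 : (H.card : ℝ) ≤ k * M.card * N := by exact_mod_cast hH
    have hN0 : (0 : ℝ) < N := by
      have : (1 : ℝ) ≤ N := by exact_mod_cast hN1
      linarith
    have h6 : (1 / K) ^ J ≤ 1 / (100 * N) := by
      rw [one_div_pow]
      exact one_div_le_one_div_of_le (by positivity) hKJ
    calc (H.card : ℝ) * ((1 / K) ^ J * (1 / K))
        ≤ (k * M.card * N) * (1 / (100 * N) * (1 / K)) := by
          apply mul_le_mul h5 _ (by positivity) (by positivity)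
          exact mul_le_mul_of_nonneg_right h6 hδ0
      _ = 1 / 100 * (1 / K) * k * M.card := by
          field_simp
  linarith

theorem finB (hT : StTypes) (hC : StCover) (hN : StCount) : StFinB := by
  obtain ⟨k₁, hT⟩ := hT
  obtain ⟨k₂, hk₂⟩ : ∃ k₂ : ℕ, ∀ k : ℕ, k₂ ≤ k → (3 * 10 ^ 8 : ℝ) ≤ Real.log k := by
    have h := (Real.tendsto_log_atTop.comp tendsto_natCast_atTop_atTop).eventually_ge_atTop
      (3 * 10 ^ 8 : ℝ)
    obtain ⟨k₂, h⟩ := Filter.eventually_atTop.mp h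
    exact ⟨k₂, fun k hk => h k hk⟩
  refine ⟨1 / 10 ^ 8, 420000, by norm_num, by norm_num, max k₁ (max k₂ 100), ?_⟩
  intro k hk N hN2 hLk V _ _ H M hH hM hdeg
  have hk1 : k₁ ≤ k := (le_max_left _ _).trans hk
  have hk3 : 100 ≤ k := ((le_max_right _ _).trans (le_max_right _ _)).trans hk
  have hL : (3 * 10 ^ 8 : ℝ) ≤ Real.log k :=
    hk₂ k (((le_max_left _ _).trans (le_max_right _ _)).trans hk)
  generalize hLdef : Real.log k = L at hLk hL ⊢
  have hL0 : 0 < L := by linarith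
  have hkR : (100 : ℝ) ≤ k := by exact_mod_cast hk3
  -- the number `J`
  obtain ⟨J, hJ⟩ : ∃ J : ℕ, J = ⌊L / 210000⌋₊ := ⟨_, rfl⟩
  have hJle : (J : ℝ) ≤ L / 210000 := by
    rw [hJ]
    exact Nat.floor_le (by positivity)
  have hJlt : L / 210000 < J + 1 := by
    rw [hJ]
    exact Nat.lt_floor_add_one _
  have hJge : L / 420000 ≤ J := by linarith
  have hJ1 : (1 : ℝ) ≤ J := by linarith
  have hJ0 : (0 : ℝ) < J := by linarith
  have hNR : (2 : ℝ) ≤ N := by exact_mod_cast hN2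
  have hlogN : 0 ≤ Real.log N := Real.log_nonneg (by linarith)
  -- the number `K`
  obtain ⟨y, hy⟩ : ∃ y : ℝ, y = (100 * (N : ℝ)) ^ ((1 : ℝ) / J) := ⟨_, rfl⟩
  have hy0 : 0 ≤ y := by
    rw [hy]
    positivity
  obtain ⟨K, hK⟩ : ∃ K : ℕ, K = max (3 * 10 ^ 7) ⌈y⌉₊ := ⟨_, rfl⟩
  have hK3 : 3 * 10 ^ 7 ≤ K := by
    rw [hK]
    exact le_max_left _ _
  have hKR : (3 * 10 ^ 7 : ℝ) ≤ K := by exact_mod_cast hK3
  have hK0 : (0 : ℝ) < K := by linarith
  have hKy : y ≤ K := by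
    refine (Nat.le_ceil y).trans ?_
    rw [hK]
    exact_mod_cast le_max_right _ _
  have hKJ : 100 * (N : ℝ) ≤ (K : ℝ) ^ J := by
    have h1 : y ^ J = 100 * (N : ℝ) := by
      rw [hy, ← Real.rpow_natCast, ← Real.rpow_mul (by positivity), one_div,
        inv_mul_cancel₀ hJ0.ne', Real.rpow_one]
    rw [← h1]
    exact pow_le_pow_left₀ hy0 hKy J
  -- the exponential
  obtain ⟨Y, hY⟩ : ∃ Y : ℝ, Y = Real.exp (420000 * Real.log N / L) := ⟨_, rfl⟩
  obtain ⟨X, hX⟩ : ∃ X : ℝ, X = Real.exp (-(420000 * Real.log N / L)) := ⟨_, rfl⟩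
  have hXY : X * Y = 1 := by
    rw [hX, hY, ← Real.exp_add, neg_add_cancel, Real.exp_zero]
  have hX0 : 0 < X := by
    rw [hX]
    exact Real.exp_pos _
  have hY1 : 1 ≤ Y := by
    rw [hY]
    exact Real.one_le_exp (by positivity)
  have hyY : y ≤ 2 * Y := by
    have h100 : Real.log 100 ≤ 99 := by
      have := Real.log_le_sub_one_of_pos (show (0 : ℝ) < 100 by norm_num)
      linarith
    have hlog2 : (1 : ℝ) / 2 ≤ Real.log 2 := by
      have := Real.log_two_gt_d9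
      linarith
    have h2 : (2 : ℝ) * Y = Real.exp (Real.log 2 + 420000 * Real.log N / L) := by
      rw [Real.exp_add, Real.exp_log (by norm_num), hY]
    rw [h2, hy, Real.rpow_def_of_pos (by positivity)]
    apply Real.exp_le_exp.mpr
    rw [Real.log_mul (by norm_num) (by positivity), mul_one_div]
    have h100' : 0 ≤ Real.log 100 := Real.log_nonneg (by norm_num)
    calc (Real.log 100 + Real.log N) / J ≤ (Real.log 100 + Real.log N) / (L / 420000) := by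
          apply div_le_div_of_nonneg_left (by positivity) (by positivity) hJge
      _ = 420000 * Real.log 100 / L + 420000 * Real.log N / L := by
          field_simp
      _ ≤ Real.log 2 + 420000 * Real.log N / L := by
          have : 420000 * Real.log 100 / L ≤ 1 / 2 := by
            rw [div_le_iff₀ hL0]
            linarith
          linarith
  have hKY : (K : ℝ) ≤ 3 * 10 ^ 7 * Y := by
    rw [hK, Nat.cast_max]
    apply max_le
    · push_cast
      linarith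
    · have := (Nat.ceil_lt_add_one hy0).le
      linarith
  have hXK : X / (3 * 10 ^ 7) ≤ 1 / K := by
    rw [div_le_div_iff₀ (by norm_num) hK0]
    calc X * K ≤ X * (3 * 10 ^ 7 * Y) := mul_le_mul_of_nonneg_left hKY hX0.le
      _ = X * Y * (3 * 10 ^ 7) := by ring
      _ = 1 * (3 * 10 ^ 7) := by rw [hXY]
  have hLX : L ≤ k * X := by
    rw [hX]
    exact hLk
  have hr1 : k * X / (3 * 10 ^ 7) ≤ (1 / K) * k := by
    have := mul_le_mul_of_nonneg_right hXK (show (0 : ℝ) ≤ k by linarith)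
    calc k * X / (3 * 10 ^ 7) = X / (3 * 10 ^ 7) * k := by ring
      _ ≤ _ := this
  have hr2 : 10 ≤ (1 / (K : ℝ)) * k := by
    have : (10 : ℝ) ≤ k * X / (3 * 10 ^ 7) := by
      rw [le_div_iff₀ (by norm_num)]
      linarith
    linarith
  have hlast : (1 / 10 ^ 8 : ℝ) * (k * X) ≤ 31 / 100 * ((1 / K) * k) := by
    have h1 : (31 / 100 : ℝ) * (k * X / (3 * 10 ^ 7)) ≤ 31 / 100 * ((1 / K) * k) :=
      mul_le_mul_of_nonneg_left hr1 (by norm_num)
    have h2 : (1 / 10 ^ 8 : ℝ) * (k * X) ≤ 31 / 100 * (k * X / (3 * 10 ^ 7)) := by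
      have : 0 ≤ k * X := by positivity
      linarith
    linarith
  -- the two covers
  obtain ⟨U, C, hU, hC', hUc, hCc, hw⟩ := hT k hk1 J (by rw [hLdef]; exact hJle) (1 / K)
    (by positivity) (one_div_le_one_div_of_le (by norm_num) hKR) V H M hH hM
  have hKk : (K : ℝ) * (k.choose k : ℝ) ≤ 1 / 10 * (K : ℝ) ^ k := by
    rw [Nat.choose_self, Nat.cast_one, mul_one]
    obtain ⟨j, rfl⟩ : ∃ j, k = j + 2 := ⟨k - 2, by omega⟩
    have h1 : (1 : ℝ) ≤ (K : ℝ) ^ j := one_le_pow₀ (by linarith)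
    have h2 : (K : ℝ) ^ (j + 2) = (K : ℝ) ^ j * (K * K) := by ring
    have h3 : (K : ℝ) * K ≤ (K : ℝ) ^ j * (K * K) := le_mul_of_one_le_left (by positivity) h1
    have h4 : (10 : ℝ) * K ≤ K * K := mul_le_mul_of_nonneg_right (by linarith) hK0.le
    rw [h2]
    linarith
  have hKpow : (0 : ℝ) < (K : ℝ) ^ k := by positivity
  obtain ⟨D, hD1, hD2, hD3⟩ := hC V k K k H M U C (by omega) (by omega) (by omega)
    (by linarith) hH hM hU hC'
  refine ⟨D, hD1, hD2, ?_⟩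
  have hcount := hN V k N H M (by omega) hH hM hdeg
  have hD4 := hD3.trans (add_le_add le_rfl (finB_wt k J N K (by linarith) hKJ (by omega)
    H M U C hcount hw))
  clear hD3
  rw [← hX]
  -- the final inequality
  generalize hm : (M.card : ℝ) = m at hUc hCc hD4 ⊢
  have hm0 : 0 ≤ m := by
    rw [← hm]
    positivity
  have hε : (K : ℝ) * (k.choose k : ℝ) / K ^ k ≤ 1 / 10 := by
    rw [div_le_iff₀ hKpow]
    exact hKk
  have hprod : 1 / (2 * (K : ℝ)) * (9 / 10) * (89 / 100 * k * m) ≤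
      1 / (2 * (K : ℝ)) * (1 - K * (k.choose k : ℝ) / K ^ k) * (((k : ℝ) - 1) * m - U.card) := by
    apply mul_le_mul
    · exact mul_le_mul_of_nonneg_left (by linarith) (by positivity)
    · have h1 : 0 ≤ ((k : ℝ) - 100) * m := mul_nonneg (by linarith) hm0
      have h2 : (U.card : ℝ) ≤ k / 10 * m := hUc
      nlinarith
    · positivity
    · apply mul_nonneg (by positivity)
      linarith
  have hmr : m * 10 ≤ m * ((1 / (K : ℝ)) * k) := mul_le_mul_of_nonneg_left hr2 hm0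
  have hml : m * ((1 / 10 ^ 8 : ℝ) * (k * X)) ≤ m * (31 / 100 * ((1 / K) * k)) :=
    mul_le_mul_of_nonneg_left hlast hm0
  have e1 : 1 / (2 * (K : ℝ)) * (9 / 10) * (89 / 100 * k * m) =
      801 / 2000 * (m * ((1 / (K : ℝ)) * k)) := by
    field_simp
    ring
  have e2 : 1 / 50 * (1 / (K : ℝ)) * k * m = 1 / 50 * (m * ((1 / (K : ℝ)) * k)) := by ring
  have e3 : 2 / 100 * (1 / (K : ℝ)) * k * m = 1 / 50 * (m * ((1 / (K : ℝ)) * k)) := by ring
  have e4 : m * (31 / 100 * ((1 / (K : ℝ)) * k)) = 31 / 100 * (m * ((1 / (K : ℝ)) * k)) := by ring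
  rw [e1] at hprod
  rw [e2] at hCc
  rw [e3] at hD4
  rw [e4] at hml
  have e5 : (k - 1 / 10 ^ 8 * (k * X)) * m = k * m - m * (1 / 10 ^ 8 * (k * X)) := by ring
  rw [e5]
  linarith

end Pool.Agent.Helper60.GT
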