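import Pool.Agent.Helper60.GT.Defs
import Pool.Agent.Helper60.GT.Geo

/-!
# Module FS: the first step

`Λ = 4 b δ/θ^(b-1)`; `hC` with `cap R = if Under M R then Λ else T` gives `G ⊆ F`. If `f ∈ F \ G`
the violated ridge `R` is either under `M` with `load G R ≥ Λ/2` (it goes to `U`, as in module ST),
or not under `M` with `load G R > T - δ^(typ f) ≥ T/2`, because
`δ^(typ f) ≤ δ^(a-1) ≤ T θ/(40*4^b) ≤ T/2`. `C` = all ridges `R` of members of `G` with
`load G R ≥ T/2` (a ridge with positive load is contained in a member of `G`); `hH`: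
`|C| T/2 ≤ k wt G ≤ k * 128/b δ k T θ |M|`.
-/

set_option autoImplicit false

open Finset

namespace Pool.Agent.Helper60.GT

theorem first_mem_shadow {V : Type} [DecidableEq V] {k : ℕ} {M : Finset (Finset V)}
    {S : Finset V} : S ∈ shadow k M ↔ S.card = k - 1 ∧ Under M S := by
  unfold shadow Under
  simp only [mem_biUnion, mem_powersetCard]
  constructor
  · rintro ⟨m, hm, h1, h2⟩
    exact ⟨h2, m, hm, h1⟩
  · rintro ⟨h2, m, hm, h1⟩
    exact ⟨m, hm, h1, h2⟩

theorem first (hM : StMain) (hC : StCap) (hH : StHub) : StFirst := by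
  intro V _ k a b H M F θ δ T hk ha hab hHk hMax hF htyp hθ0 hθ1 hδ0 hδ1 hT hpar hk4 hδa
  set Λ : ℝ := 4 * b * δ / θ ^ (b - 1) with hΛ
  have hb2 : 2 ≤ b := ha.trans hab
  have hbr : (2 : ℝ) ≤ b := by exact_mod_cast hb2
  have hb0 : (0 : ℝ) < b := by linarith
  have hkr : (2 : ℝ) ≤ k := by exact_mod_cast hk
  have hk0 : (0 : ℝ) < k := by linarith
  have hθp : 0 < θ ^ (b - 1) := pow_pos hθ0 _
  have hθp1 : θ ^ (b - 1) ≤ 1 := pow_le_one₀ hθ0.le hθ1
  have hΛ0 : 0 < Λ := by positivity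
  have hΛδ : 2 * δ ≤ Λ := by
    rw [hΛ, le_div_iff₀ hθp]
    nlinarith
  obtain ⟨G, hGF, hload, hviol⟩ := hC V k M F δ (fun R => if Under M R then Λ else T) hδ0.le
    (fun R => by
      by_cases h : Under M R
      · simp only [if_pos h]; exact hΛ0.le
      · simp only [if_neg h]; exact hT.le)
  have hloadU : ∀ R : Finset V, R.card = k - 1 → Under M R → load k M G δ R ≤ Λ := by
    intro R hR hU
    have h1 := hload R hR
    simp only [if_pos hU] at h1
    exact h1
  have hloadN : ∀ R : Finset V, R.card = k - 1 → ¬ Under M R → load k M G δ R ≤ T := by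
    intro R hR hU
    have h1 := hload R hR
    simp only [if_neg hU] at h1
    exact h1
  have hwt := hM V k a b H M G θ δ T hk ha hab hHk hMax (hGF.trans hF)
    (fun f hf => htyp f (hGF hf)) hθ0 hθ1 hδ0 hδ1 hT hpar hk4 hδa hloadN hloadU
  have hMk : ∀ m ∈ M, m.card = k := fun m hm => hHk m (hMax.1.1 hm)
  have hGin : ∀ f ∈ G, f.card = k ∧ f ∉ M ∧ typ k M f ≤ b := by
    intro f hf
    have h1 := mem_sdiff.1 (hF (hGF hf))
    exact ⟨hHk f h1.1, h1.2, (htyp f (hGF hf)).2⟩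
  have hδtyp : ∀ f ∈ F, δ ^ typ k M f ≤ δ ∧ δ ^ typ k M f ≤ T / 2 := by
    intro f hf
    have h1 := (htyp f hf).1
    constructor
    · calc δ ^ typ k M f ≤ δ ^ 1 := pow_le_pow_of_le_one hδ0.le hδ1 (by omega)
        _ = δ := pow_one δ
    · have h2 : δ ^ typ k M f ≤ δ ^ (a - 1) := pow_le_pow_of_le_one hδ0.le hδ1 (by omega)
      have h3 : (1 : ℝ) ≤ 4 ^ b := one_le_pow₀ (by norm_num)
      have h4 : 0 ≤ δ ^ (a - 1) := pow_nonneg hδ0.le _
      have h5 : T * θ ≤ T := by nlinarith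
      have h6 : δ ^ (a - 1) ≤ 4 ^ b * δ ^ (a - 1) := by nlinarith
      nlinarith
  have hload0 : ∀ R : Finset V, 0 < load k M G δ R → ∃ g ∈ G, R ⊆ g := by
    intro R hR
    by_contra hno
    push Not at hno
    have h1 : G.filter (fun f => R ⊆ f) = ∅ := by
      rw [filter_eq_empty_iff]
      intro f hf
      exact hno f hf
    unfold load at hR
    rw [h1, sum_empty] at hR
    exact lt_irrefl _ hR
  have hkT : k * T * θ ^ b = 160 * (b : ℝ) ^ 2 * 4 ^ b := by
    have h1 : (4 : ℝ) ^ b = 2 ^ b * 2 ^ b := by rw [← mul_pow]; norm_num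
    have h2 : (2 : ℝ) ^ b ≠ 0 := by positivity
    have h3 : (b : ℝ) ≠ 0 := hb0.ne'
    field_simp at hpar
    rw [h1]
    nlinarith
  have hθb : θ ^ b = θ ^ (b - 1) * θ := by
    rw [← pow_succ]
    congr 1
    omega
  let U : Finset (Finset V) := (shadow k M).filter (fun S => Λ / 2 ≤ load k M G δ S)
  let C : Finset (Finset V) :=
    (G.biUnion (fun f => f.powersetCard (k - 1))).filter (fun R => T / 2 ≤ load k M G δ R)
  have hUmem : ∀ S, S ∈ U ↔ (S.card = k - 1 ∧ Under M S) ∧ Λ / 2 ≤ load k M G δ S := by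
    intro S
    simp only [U, mem_filter, first_mem_shadow]
  have hCmem : ∀ R, R ∈ C ↔ (∃ g ∈ G, R ⊆ g ∧ R.card = k - 1) ∧ T / 2 ≤ load k M G δ R := by
    intro R
    simp only [C, mem_filter, mem_biUnion, mem_powersetCard]
  refine ⟨G, hGF, U, C, filter_subset _ _, ?_, ?_, hloadN, ?_, ?_⟩
  · intro R hR
    obtain ⟨⟨g, -, -, h1⟩, -⟩ := (hCmem R).1 hR
    exact h1
  · intro f hf hfG
    obtain ⟨R, hRf, hRk, hR⟩ := hviol f hf hfG
    obtain ⟨h1, h2⟩ := hδtyp f hf
    by_cases hU : Under M R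
    · simp only [if_pos hU] at hR
      exact Or.inl ⟨R, (hUmem R).2 ⟨⟨hRk, hU⟩, by linarith⟩, hRf⟩
    · simp only [if_neg hU] at hR
      obtain ⟨g, hg, hRg⟩ := hload0 R (by linarith)
      exact Or.inr ⟨R, (hCmem R).2 ⟨⟨g, hg, hRg, hRk⟩, by linarith⟩, hRf⟩
  · have h1 := (hH V k b M G U δ (Λ / 2) hk hδ0.le hMk hMax.1.2 hGin
      (fun S hS => ⟨((hUmem S).1 hS).1.1, ((hUmem S).1 hS).2⟩)).2
      (fun S hS => ((hUmem S).1 hS).1.2)
    have h2 : (U.card : ℝ) * (Λ / 2) ≤ 128 * δ * k * T * θ * M.card := by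
      refine h1.trans ?_
      have h3 := mul_le_mul_of_nonneg_left hwt hb0.le
      refine h3.trans (le_of_eq ?_)
      have h4 : (b : ℝ) ≠ 0 := hb0.ne'
      field_simp
    have h3 : Λ / 2 = 2 * b * δ / θ ^ (b - 1) := by rw [hΛ]; ring
    have h4 : (U.card : ℝ) * (2 * b * δ) ≤
        128 * δ * k * T * θ * M.card * θ ^ (b - 1) := by
      rw [h3] at h2
      have h5 := mul_le_mul_of_nonneg_right h2 hθp.le
      have h6 : (U.card : ℝ) * (2 * b * δ / θ ^ (b - 1)) * θ ^ (b - 1) =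
          (U.card : ℝ) * (2 * b * δ) := by
        field_simp
      rw [h6] at h5
      exact h5
    have h5 : 128 * δ * k * T * θ * M.card * θ ^ (b - 1) =
        (10240 * b * 4 ^ b * M.card) * (2 * b * δ) := by
      have h6 : 128 * δ * k * T * θ * M.card * θ ^ (b - 1) =
          128 * δ * M.card * (k * T * θ ^ b) := by
        rw [hθb]; ring
      rw [h6, hkT]
      ring
    rw [h5] at h4
    exact le_of_mul_le_mul_right h4 (by positivity)
  · have h1 := (hH V k b M G C δ (T / 2) hk hδ0.le hMk hMax.1.2 hGin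
      (fun S hS => ⟨by
        obtain ⟨⟨g, -, -, h1⟩, -⟩ := (hCmem S).1 hS
        exact h1, ((hCmem S).1 hS).2⟩)).1
    have h2 : (C.card : ℝ) * (T / 2) ≤ (k * (256 / b * δ * k * θ * M.card)) * (T / 2) := by
      refine h1.trans ?_
      have h3 := mul_le_mul_of_nonneg_left hwt hk0.le
      refine h3.trans (le_of_eq ?_)
      ring
    exact le_of_mul_le_mul_right h2 (by positivity)

end Pool.Agent.Helper60.GT
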