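import Pool.Agent.Helper60.GT.Defs
import Pool.Agent.Helper60.GT.Geo

/-!
# Module HU: double counting of loads

`|U| L ≤ ∑ S ∈ U, load S = ∑ f ∈ F, δ^(typ f) * |{S ∈ U : S ⊆ f}|`, and `f` has `k` ridges, at
most `typ f ≤ b` of them under `M` (`card_tr`).
-/

set_option autoImplicit false

open Finset

namespace Pool.Agent.Helper60.GT

private theorem hub_sum {V : Type} [DecidableEq V] (k : ℕ) (M F U : Finset (Finset V)) (δ : ℝ) :
    ∑ S ∈ U, load k M F δ S =
      ∑ f ∈ F, ((U.filter (fun S => S ⊆ f)).card : ℝ) * δ ^ typ k M f := by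
  unfold load
  simp_rw [Finset.sum_filter]
  rw [Finset.sum_comm]
  refine Finset.sum_congr rfl fun f _ => ?_
  rw [← Finset.sum_filter, Finset.sum_const, nsmul_eq_mul]

private theorem hub_bound {V : Type} [DecidableEq V] (k : ℕ) (M F U : Finset (Finset V))
    (δ L : ℝ) (hδ : 0 ≤ δ) (hU : ∀ S ∈ U, L ≤ load k M F δ S) (c : ℕ)
    (hc : ∀ f ∈ F, (U.filter (fun S => S ⊆ f)).card ≤ c) :
    (U.card : ℝ) * L ≤ c * wt k M F δ := by
  calc (U.card : ℝ) * L = ∑ _S ∈ U, L := by rw [Finset.sum_const, nsmul_eq_mul]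
    _ ≤ ∑ S ∈ U, load k M F δ S := Finset.sum_le_sum hU
    _ = ∑ f ∈ F, ((U.filter (fun S => S ⊆ f)).card : ℝ) * δ ^ typ k M f := hub_sum k M F U δ
    _ ≤ ∑ f ∈ F, (c : ℝ) * δ ^ typ k M f := by
        refine Finset.sum_le_sum fun f hf => ?_
        exact mul_le_mul_of_nonneg_right (by exact_mod_cast hc f hf) (pow_nonneg hδ _)
    _ = c * wt k M F δ := by rw [wt, Finset.mul_sum]

theorem hub : StHub := by
  intro V _ k b M F U δ L hk hδ hM hP hF hU
  constructor
  · refine hub_bound k M F U δ L hδ (fun S hS => (hU S hS).2) k fun f hf => ?_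
    have hsub : U.filter (fun S => S ⊆ f) ⊆ f.powersetCard (k - 1) := by
      intro S hS
      rw [Finset.mem_filter] at hS
      exact Finset.mem_powersetCard.2 ⟨hS.2, (hU S hS.1).1⟩
    refine (Finset.card_le_card hsub).trans ?_
    rw [Finset.card_powersetCard, (hF f hf).1]
    have e : k.choose (k - 1) = k := by
      have h1 := Nat.choose_symm (n := k) (k := 1) (by omega)
      rw [h1, Nat.choose_one_right]
    exact e.le
  · intro hUnd
    refine hub_bound k M F U δ L hδ (fun S hS => (hU S hS).2) b fun f hf => ?_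
    have hsub : U.filter (fun S => S ⊆ f) ⊆ tr k M f := by
      intro S hS
      rw [Finset.mem_filter] at hS
      exact Finset.mem_filter.2
        ⟨Finset.mem_powersetCard.2 ⟨hS.2, (hU S hS.1).1⟩, hUnd S hS.1⟩
    refine (Finset.card_le_card hsub).trans ?_
    rw [card_tr (by omega) hM hP (hF f hf).1 (hF f hf).2.1]
    exact (hF f hf).2.2

end Pool.Agent.Helper60.GT
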