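import Pool.Agent.Helper60.GT.Defs

/-!
# Module SA: the sampling lemma

A small library of Bernoulli expectations: for `p : ι → ℝ`, `X : Finset ι`, `φ : Finset ι → ℝ`
`bern p X φ = ∑ Y ∈ X.powerset, (∏ i ∈ Y, p i) * (∏ i ∈ X \ Y, (1 - p i)) * φ Y`;
it is linear, monotone for `p` with values in `[0,1]`, `bern p X 1 = 1` (`Finset.prod_add`), and
`bern p X (fun Y => if A ⊆ Y then 1 else 0) = ∏ i ∈ A, p i` for `A ⊆ X` (induction on `X`, or
`Finset.prod_add` with the weights `p i` and `if i ∈ A then 0 else 1 - p i`).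

Choose `M₀ ⊆ M` with `p = q` and `Y ⊆ F` with `p = x`, `H₀ = {f ∈ Y : N f ⊆ M₀}`. For each outcome
the hypothesis `StAks` gives an independent `P ⊆ H₀`, and `P.card ≤ M₀.card` by the exchange
hypothesis. Take expectations of
`b/(32*2^b) * (|H₀| - t(H₀) - e(H₀)/(4*2^b)) ≤ |M₀|`, where `|H₀| = ∑ f, [f ∈ Y][N f ⊆ M₀]`, `e`
= sum over ordered pairs, `t` = sum over ordered triples (distinct by irreflexivity):
`E|M₀| = q |M|`, `E|H₀| = ∑ f, x f * q^|N f| =: n̄`,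
`E e = ∑ f, ∑ g ∈ F.filter (A f), x f * x g * q^|N f ∪ N g| = ∑ f, x f q^|N f| * (degree sum)
 ≤ 2*2^b * n̄`,
`E t = ∑ f, x f q^|N f| ∑ g, (x g q^|N g|/q^|N f ∩ N g|) ∑ h, (x h q^|N h|/q^|N h ∩ (N f ∪ N g)|)
 ≤ n̄ * (2*2^b) * (1/(8*2^b)) = n̄/4`.
So `b/(32*2^b) * n̄ * (1 - 1/4 - 1/2) ≤ q |M|`.
-/

set_option autoImplicit false

open Finset

namespace Pool.Agent.Helper60.GT

/-- weight of the outcome `Y` -/
private noncomputable def bw {α : Type} [DecidableEq α] (X : Finset α) (p : α → ℝ)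
    (Y : Finset α) : ℝ := (∏ i ∈ Y, p i) * ∏ i ∈ X \ Y, (1 - p i)

private theorem bw_nonneg {α : Type} [DecidableEq α] (X : Finset α) (p : α → ℝ)
    (hp : ∀ i ∈ X, 0 ≤ p i ∧ p i ≤ 1) {Y : Finset α} (hY : Y ⊆ X) : 0 ≤ bw X p Y := by
  unfold bw
  refine mul_nonneg (prod_nonneg fun i hi => (hp i (hY hi)).1) (prod_nonneg fun i hi => ?_)
  have := (hp i (mem_sdiff.1 hi).1).2
  linarith

private theorem bw_incl {α : Type} [DecidableEq α] (X : Finset α) (p : α → ℝ)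
    {S : Finset α} (hS : S ⊆ X) :
    ∑ Y ∈ X.powerset, bw X p Y * (if S ⊆ Y then (1 : ℝ) else 0) = ∏ i ∈ S, p i := by
  have h1 := prod_add p (fun i => if i ∈ S then (0 : ℝ) else 1 - p i) X
  have h2 : ∏ i ∈ X, (p i + (if i ∈ S then (0 : ℝ) else 1 - p i)) = ∏ i ∈ S, p i := by
    rw [← prod_subset hS]
    · refine prod_congr rfl fun i hi => ?_
      rw [if_pos hi, add_zero]
    · intro i _ hi
      rw [if_neg hi]
      ring
  rw [← h2, h1]
  refine sum_congr rfl fun Y hY => ?_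
  unfold bw
  by_cases h : S ⊆ Y
  · rw [if_pos h, mul_one]
    congr 1
    refine prod_congr rfl fun i hi => ?_
    rw [if_neg fun h3 => (mem_sdiff.1 hi).2 (h h3)]
  · rw [if_neg h, mul_zero]
    obtain ⟨i, hi, hiY⟩ := not_subset.1 h
    have h4 : ∏ i ∈ X \ Y, (if i ∈ S then (0 : ℝ) else 1 - p i) = 0 :=
      prod_eq_zero (mem_sdiff.2 ⟨hS hi, hiY⟩) (if_pos hi)
    rw [h4, mul_zero]

/-- expectation -/
private noncomputable def ex {ι μ : Type} [DecidableEq ι] [DecidableEq μ] (F : Finset ι)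
    (M : Finset μ) (q : ℝ) (x : ι → ℝ) (φ : Finset μ → Finset ι → ℝ) : ℝ :=
  ∑ M₀ ∈ M.powerset, ∑ Y ∈ F.powerset, bw M (fun _ => q) M₀ * bw F x Y * φ M₀ Y

section

variable {ι μ : Type} [DecidableEq ι] [DecidableEq μ] {F : Finset ι} {M : Finset μ} {q : ℝ}
  {x : ι → ℝ}

private theorem ex_incl {B : Finset μ} {S : Finset ι} (hB : B ⊆ M) (hS : S ⊆ F) :
    ex F M q x (fun M₀ Y => (if B ⊆ M₀ then (1 : ℝ) else 0) * (if S ⊆ Y then (1 : ℝ) else 0)) =
      q ^ B.card * ∏ i ∈ S, x i := by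
  unfold ex
  have h1 := bw_incl M (fun _ => q) hB
  rw [prod_const] at h1
  rw [← h1, ← bw_incl F x hS, sum_mul_sum]
  refine sum_congr rfl fun M₀ _ => sum_congr rfl fun Y _ => ?_
  ring

private theorem ex_sum {σ : Type} (T : Finset σ) (φ : σ → Finset μ → Finset ι → ℝ) :
    ex F M q x (fun M₀ Y => ∑ t ∈ T, φ t M₀ Y) = ∑ t ∈ T, ex F M q x (φ t) := by
  unfold ex
  simp_rw [mul_sum]
  have h1 : ∀ M₀ ∈ M.powerset, ∑ Y ∈ F.powerset, ∑ t ∈ T,
      bw M (fun _ => q) M₀ * bw F x Y * φ t M₀ Y = ∑ t ∈ T, ∑ Y ∈ F.powerset,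
      bw M (fun _ => q) M₀ * bw F x Y * φ t M₀ Y := fun M₀ _ => sum_comm
  rw [sum_congr rfl h1, sum_comm]

private theorem ex_mono (hq : 0 < q) (hq1 : q ≤ 1) (hx : ∀ f ∈ F, 0 ≤ x f ∧ x f ≤ 1)
    {φ ψ : Finset μ → Finset ι → ℝ} (h : ∀ M₀ ⊆ M, ∀ Y ⊆ F, φ M₀ Y ≤ ψ M₀ Y) :
    ex F M q x φ ≤ ex F M q x ψ := by
  unfold ex
  refine sum_le_sum fun M₀ hM => sum_le_sum fun Y hY => ?_
  rw [mem_powerset] at hM hY
  exact mul_le_mul_of_nonneg_left (h M₀ hM Y hY)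
    (mul_nonneg (bw_nonneg M _ (fun _ _ => ⟨hq.le, hq1⟩) hM) (bw_nonneg F x hx hY))

private theorem ex_lin (κ c : ℝ) (φ₁ φ₂ φ₃ : Finset μ → Finset ι → ℝ) :
    ex F M q x (fun M₀ Y => κ * (φ₁ M₀ Y - φ₂ M₀ Y - φ₃ M₀ Y / c)) =
      κ * (ex F M q x φ₁ - ex F M q x φ₂ - ex F M q x φ₃ / c) := by
  unfold ex
  rw [sum_div, ← sum_sub_distrib, ← sum_sub_distrib, mul_sum]
  refine sum_congr rfl fun M₀ _ => ?_
  rw [sum_div, ← sum_sub_distrib, ← sum_sub_distrib, mul_sum]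
  refine sum_congr rfl fun Y _ => ?_
  ring

/-- expectation of a number of configurations -/
private theorem ex_count {σ : Type} [DecidableEq σ] (T : Finset σ) (B : σ → Finset μ)
    (S : σ → Finset ι) (hB : ∀ t ∈ T, B t ⊆ M) (hS : ∀ t ∈ T, S t ⊆ F)
    (Z : Finset μ → Finset ι → Finset σ)
    (hZ : ∀ M₀ ⊆ M, ∀ Y ⊆ F, Z M₀ Y = T.filter (fun t => B t ⊆ M₀ ∧ S t ⊆ Y)) :
    ex F M q x (fun M₀ Y => ((Z M₀ Y).card : ℝ)) =
      ∑ t ∈ T, q ^ (B t).card * ∏ i ∈ S t, x i := by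
  have h1 : ex F M q x (fun M₀ Y => ((Z M₀ Y).card : ℝ)) =
      ex F M q x (fun M₀ Y => ∑ t ∈ T,
        (if B t ⊆ M₀ then (1 : ℝ) else 0) * (if S t ⊆ Y then (1 : ℝ) else 0)) := by
    unfold ex
    refine sum_congr rfl fun M₀ hM => sum_congr rfl fun Y hY => ?_
    rw [mem_powerset] at hM hY
    congr 1
    change ((Z M₀ Y).card : ℝ) = ∑ t ∈ T,
        (if B t ⊆ M₀ then (1 : ℝ) else 0) * (if S t ⊆ Y then (1 : ℝ) else 0)
    rw [hZ M₀ hM Y hY, ← sum_boole]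
    refine sum_congr rfl fun t _ => ?_
    by_cases h2 : B t ⊆ M₀ <;> by_cases h3 : S t ⊆ Y <;> simp [h2, h3]
  rw [h1, ex_sum]
  exact sum_congr rfl fun t ht => ex_incl (hB t ht) (hS t ht)

end

private theorem pow_union {μ : Type} [DecidableEq μ] (q : ℝ) (hq : 0 < q) (B C : Finset μ) :
    q ^ (B ∪ C).card = q ^ B.card * (q ^ C.card / q ^ (B ∩ C).card) := by
  have h1 := card_union_add_card_inter B C
  have h2 : q ^ (B ∪ C).card * q ^ (B ∩ C).card = q ^ B.card * q ^ C.card := by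
    rw [← pow_add, ← pow_add, h1]
  have h3 : (0 : ℝ) < q ^ (B ∩ C).card := by positivity
  rw [← mul_div_assoc, eq_div_iff h3.ne', h2]

theorem samp (hA : StAks) : StSamp := by
  intro ι μ _ _ F M N A _ b q x hsym hirr hq hq1 hx hN hex hdeg hcod
  set κ : ℝ := (b : ℝ) / (32 * 2 ^ b) with hκ
  have hb2 : (0 : ℝ) < 2 ^ b := by positivity
  have hκ0 : 0 ≤ κ := by positivity
  -- the configurations
  let Z1 : Finset μ → Finset ι → Finset ι := fun M₀ Y => Y.filter (fun f => N f ⊆ M₀)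
  let Z2 : Finset μ → Finset ι → Finset (ι × ι) := fun M₀ Y =>
    ((Z1 M₀ Y) ×ˢ (Z1 M₀ Y)).filter (fun p => A p.1 p.2)
  let Z3 : Finset μ → Finset ι → Finset (ι × ι × ι) := fun M₀ Y =>
    ((Z1 M₀ Y) ×ˢ (Z1 M₀ Y) ×ˢ (Z1 M₀ Y)).filter
      (fun p => A p.1 p.2.1 ∧ A p.2.1 p.2.2 ∧ A p.1 p.2.2)
  have key : ∀ M₀ ⊆ M, ∀ Y ⊆ F,
      κ * (((Z1 M₀ Y).card : ℝ) - ((Z3 M₀ Y).card : ℝ) - ((Z2 M₀ Y).card : ℝ) / (4 * 2 ^ b)) ≤
        (M₀.card : ℝ) := by
    intro M₀ hM₀ Y hY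
    obtain ⟨P, hP, hind, hle⟩ := hA ι (Z1 M₀ Y) A b hsym hirr
    refine hle.trans ?_
    have h1 : ∀ f ∈ P, f ∈ Y ∧ N f ⊆ M₀ := fun f hf => mem_filter.1 (hP hf)
    exact_mod_cast hex M₀ hM₀ P (fun f hf => hY (h1 f hf).1) hind (fun f hf => (h1 f hf).2)
  have hE := ex_mono (x := x) hq hq1 hx key
  rw [ex_lin] at hE
  -- the expectations
  have e0 : ex F M q x (fun M₀ _ => (M₀.card : ℝ)) = q * M.card := by
    rw [ex_count (q := q) (x := x) M (fun m => {m}) (fun _ => ∅)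
      (fun m hm => singleton_subset_iff.2 hm) (fun _ _ => empty_subset _)
      (fun M₀ _ => M₀) ?_]
    · simp [mul_comm]
    · intro M₀ hM₀ Y _
      ext m
      simp only [mem_filter, singleton_subset_iff, empty_subset, and_true]
      exact ⟨fun h => ⟨hM₀ h, h⟩, fun h => h.2⟩
  have e1 : ex F M q x (fun M₀ Y => ((Z1 M₀ Y).card : ℝ)) = ∑ f ∈ F, x f * q ^ (N f).card := by
    rw [ex_count (q := q) (x := x) F N (fun f => {f}) hN
      (fun f hf => singleton_subset_iff.2 hf) Z1 ?_]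
    · refine sum_congr rfl fun f _ => ?_
      rw [prod_singleton, mul_comm]
    · intro M₀ _ Y hY
      ext f
      simp only [Z1, mem_filter, singleton_subset_iff]
      exact ⟨fun h => ⟨hY h.1, h.2, h.1⟩, fun h => ⟨h.2.2, h.2.1⟩⟩
  have e2 : ex F M q x (fun M₀ Y => ((Z2 M₀ Y).card : ℝ)) =
      ∑ f ∈ F, ∑ g ∈ F.filter (fun g => A f g), x f * x g * q ^ (N f ∪ N g).card := by
    rw [ex_count (q := q) (x := x) ((F ×ˢ F).filter (fun p => A p.1 p.2))
      (fun p => N p.1 ∪ N p.2) (fun p => {p.1, p.2}) ?_ ?_ Z2 ?_]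
    · rw [sum_filter, sum_product]
      refine sum_congr rfl fun f _ => ?_
      rw [sum_filter]
      refine sum_congr rfl fun g _ => ?_
      by_cases h : A f g
      · have hne : f ≠ g := fun h1 => hirr g (h1 ▸ h)
        rw [if_pos h, if_pos h, prod_pair hne]
        ring
      · rw [if_neg h, if_neg h]
    · intro p hp
      rw [mem_filter, mem_product] at hp
      exact union_subset (hN _ hp.1.1) (hN _ hp.1.2)
    · intro p hp
      rw [mem_filter, mem_product] at hp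
      exact insert_subset hp.1.1 (singleton_subset_iff.2 hp.1.2)
    · intro M₀ _ Y hY
      ext p
      simp only [Z2, Z1, mem_filter, mem_product, union_subset_iff, insert_subset_iff,
        singleton_subset_iff]
      constructor
      · rintro ⟨⟨⟨h1, h2⟩, h3, h4⟩, h5⟩
        exact ⟨⟨⟨hY h1, hY h3⟩, h5⟩, ⟨h2, h4⟩, h1, h3⟩
      · rintro ⟨⟨_, h5⟩, ⟨h2, h4⟩, h1, h3⟩
        exact ⟨⟨⟨h1, h2⟩, h3, h4⟩, h5⟩
  have e3 : ex F M q x (fun M₀ Y => ((Z3 M₀ Y).card : ℝ)) =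
      ∑ f ∈ F, ∑ g ∈ F.filter (fun g => A f g), ∑ h ∈ F.filter (fun h => A f h ∧ A g h),
        x f * x g * x h * q ^ (N f ∪ N g ∪ N h).card := by
    rw [ex_count (q := q) (x := x)
      ((F ×ˢ F ×ˢ F).filter (fun p => A p.1 p.2.1 ∧ A p.2.1 p.2.2 ∧ A p.1 p.2.2))
      (fun p => N p.1 ∪ N p.2.1 ∪ N p.2.2) (fun p => {p.1, p.2.1, p.2.2}) ?_ ?_ Z3 ?_]
    · rw [sum_filter, sum_product]
      refine sum_congr rfl fun f _ => ?_
      rw [sum_product, sum_filter]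
      refine sum_congr rfl fun g _ => ?_
      by_cases hfg : A f g
      · rw [if_pos hfg, sum_filter]
        refine sum_congr rfl fun h _ => ?_
        by_cases hh : A f h ∧ A g h
        · have h1 : f ≠ g := fun h1 => hirr g (h1 ▸ hfg)
          have h2 : f ≠ h := fun h1 => hirr h (h1 ▸ hh.1)
          have h3 : g ≠ h := fun h1 => hirr h (h1 ▸ hh.2)
          rw [if_pos hh, if_pos ⟨hfg, hh.2, hh.1⟩, prod_insert, prod_pair h3]
          · ring
          · simp only [mem_insert, mem_singleton, not_or]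
            exact ⟨h1, h2⟩
        · rw [if_neg hh, if_neg fun h4 => hh ⟨h4.2.2, h4.2.1⟩]
      · rw [if_neg hfg]
        refine sum_eq_zero fun h _ => ?_
        rw [if_neg fun h4 => hfg h4.1]
    · intro p hp
      rw [mem_filter, mem_product, mem_product] at hp
      exact union_subset (union_subset (hN _ hp.1.1) (hN _ hp.1.2.1)) (hN _ hp.1.2.2)
    · intro p hp
      rw [mem_filter, mem_product, mem_product] at hp
      exact insert_subset hp.1.1 (insert_subset hp.1.2.1 (singleton_subset_iff.2 hp.1.2.2))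
    · intro M₀ _ Y hY
      ext p
      simp only [Z3, Z1, mem_filter, mem_product, union_subset_iff, insert_subset_iff,
        singleton_subset_iff]
      constructor
      · rintro ⟨⟨⟨h1, h2⟩, ⟨h3, h4⟩, h5, h6⟩, h7⟩
        exact ⟨⟨⟨hY h1, hY h3, hY h5⟩, h7⟩, ⟨⟨h2, h4⟩, h6⟩, h1, h3, h5⟩
      · rintro ⟨⟨_, h7⟩, ⟨⟨h2, h4⟩, h6⟩, h1, h3, h5⟩
        exact ⟨⟨⟨h1, h2⟩, ⟨h3, h4⟩, h5, h6⟩, h7⟩
  -- the estimates
  set n : ℝ := ∑ f ∈ F, x f * q ^ (N f).card with hn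
  set E2 : ℝ := ∑ f ∈ F, ∑ g ∈ F.filter (fun g => A f g), x f * x g * q ^ (N f ∪ N g).card
    with hE2
  have b2 : E2 ≤ 2 * 2 ^ b * n := by
    rw [hE2, hn, mul_sum]
    refine sum_le_sum fun f hf => ?_
    have h1 : ∑ g ∈ F.filter (fun g => A f g), x f * x g * q ^ (N f ∪ N g).card =
        x f * q ^ (N f).card * ∑ g ∈ F.filter (fun g => A f g),
          x g * q ^ (N g).card / q ^ (N f ∩ N g).card := by
      rw [mul_sum]
      refine sum_congr rfl fun g _ => ?_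
      rw [pow_union q hq (N f) (N g)]
      ring
    rw [h1]
    have h2 : 0 ≤ x f * q ^ (N f).card := mul_nonneg (hx f hf).1 (by positivity)
    calc x f * q ^ (N f).card * ∑ g ∈ F.filter (fun g => A f g),
          x g * q ^ (N g).card / q ^ (N f ∩ N g).card
        ≤ x f * q ^ (N f).card * (2 * 2 ^ b) := mul_le_mul_of_nonneg_left (hdeg f hf) h2
      _ = 2 * 2 ^ b * (x f * q ^ (N f).card) := by ring
  have b3 : ∑ f ∈ F, ∑ g ∈ F.filter (fun g => A f g), ∑ h ∈ F.filter (fun h => A f h ∧ A g h),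
        x f * x g * x h * q ^ (N f ∪ N g ∪ N h).card ≤ 1 / (8 * 2 ^ b) * E2 := by
    rw [hE2, mul_sum]
    refine sum_le_sum fun f hf => ?_
    rw [mul_sum]
    refine sum_le_sum fun g hg => ?_
    rw [mem_filter] at hg
    have h1 : ∑ h ∈ F.filter (fun h => A f h ∧ A g h),
        x f * x g * x h * q ^ (N f ∪ N g ∪ N h).card =
        x f * x g * q ^ (N f ∪ N g).card * ∑ h ∈ F.filter (fun h => A f h ∧ A g h),
          x h * q ^ (N h).card / q ^ (N h ∩ (N f ∪ N g)).card := by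
      rw [mul_sum]
      refine sum_congr rfl fun h _ => ?_
      rw [pow_union q hq (N f ∪ N g) (N h), inter_comm (N h)]
      ring
    rw [h1]
    have h2 : 0 ≤ x f * x g * q ^ (N f ∪ N g).card :=
      mul_nonneg (mul_nonneg (hx f hf).1 (hx g hg.1).1) (by positivity)
    calc x f * x g * q ^ (N f ∪ N g).card * ∑ h ∈ F.filter (fun h => A f h ∧ A g h),
          x h * q ^ (N h).card / q ^ (N h ∩ (N f ∪ N g)).card
        ≤ x f * x g * q ^ (N f ∪ N g).card * (1 / (8 * 2 ^ b)) :=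
          mul_le_mul_of_nonneg_left (hcod f hf g hg.1 hg.2) h2
      _ = 1 / (8 * 2 ^ b) * (x f * x g * q ^ (N f ∪ N g).card) := by ring
  have hfin : κ * (n / 4) ≤ q * M.card := by
    rw [← e0]
    refine le_trans ?_ hE
    refine mul_le_mul_of_nonneg_left ?_ hκ0
    rw [e1, e2, e3]
    have c1 : E2 / (4 * 2 ^ b) ≤ n / 2 := by
      rw [div_le_iff₀ (by positivity)]
      calc E2 ≤ 2 * 2 ^ b * n := b2
        _ = n / 2 * (4 * 2 ^ b) := by ring
    have c2 : 1 / (8 * 2 ^ b) * E2 ≤ n / 4 := by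
      rw [one_div_mul_eq_div, div_le_iff₀ (by positivity)]
      calc E2 ≤ 2 * 2 ^ b * n := b2
        _ = n / 4 * (8 * 2 ^ b) := by ring
    linarith
  calc (b : ℝ) / (128 * 2 ^ b) * n = κ * (n / 4) := by
        rw [hκ]
        field_simp
        ring
    _ ≤ q * M.card := hfin

end Pool.Agent.Helper60.GT
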