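import Pool.Agent.Helper60.GT.Defs
import Pool.Agent.Helper60.GT.Geo

/-!
# Modules SI, PA: singles and pairing

SI: two distinct singles `f, g` of `m` (`nbr f = nbr g = {m}`) are adjacent: otherwise
`exchange` with `M₀ = {m}`, `P = {f, g}` fails. `f = insert x (m.erase c)`,
`g = insert y (m.erase d)`; if `c ≠ d` adjacency forces `x = y`
(`f ∩ g ⊆ m.erase c ∩ m.erase d ∪ ({x} ∩ {y})`, and the first part has `k-2` elements). If all
singles have the same trace `S = f ∩ m`: first alternative (no single: any ridge of `m`). Otherwise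
`Q = insert x m`.
PA: induction on `|L|`: two elements `c, c'` are served by `Q \ {c, c'}`.
-/

set_option autoImplicit false

open Finset

namespace Pool.Agent.Helper60.GT

/-- two singles with different missing points have the same new point -/
private theorem single_key {V : Type} [DecidableEq V] {k : ℕ} {H M : Finset (Finset V)}
    (hk : 2 ≤ k) (hH : ∀ e ∈ H, e.card = k) (hMax : MaxPack k H M) {m : Finset V} (hm : m ∈ M)
    {f g : Finset V} (hf : f ∈ H \ M) (hg : g ∈ H \ M) (hnf : nbr k M f = {m})
    (hng : nbr k M g = {m}) {c d x y : V} (hc : c ∈ m) (hd : d ∈ m) (hx : x ∉ m) (hy : y ∉ m)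
    (ef : f = insert x (m.erase c)) (eg : g = insert y (m.erase d)) (hcd : c ≠ d) : x = y := by
  by_contra hxy
  have hmk : m.card = k := hH m (hMax.1.1 hm)
  have hne : f ≠ g := by
    intro e
    have h1 : c ∈ g := by
      rw [eg]
      exact mem_insert_of_mem (mem_erase.2 ⟨hcd, hc⟩)
    rw [← e, ef, mem_insert, mem_erase] at h1
    rcases h1 with h1 | h1
    · exact hx (h1 ▸ hc)
    · exact h1.1 rfl
  have hadj : Adj k f g := by
    by_contra hna
    have hP : ({f, g} : Finset (Finset V)) ⊆ H \ M := by
      intro e he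
      rw [mem_insert, mem_singleton] at he
      rcases he with rfl | rfl
      · exact hf
      · exact hg
    have hind : ∀ e ∈ ({f, g} : Finset (Finset V)), ∀ e' ∈ ({f, g} : Finset (Finset V)),
        ¬ Adj k e e' := by
      intro e he e' he' h
      rw [mem_insert, mem_singleton] at he he'
      rcases he with rfl | rfl <;> rcases he' with rfl | rfl
      · exact Adj.irrefl _ h
      · exact hna h
      · exact hna h.symm
      · exact Adj.irrefl _ h
    have hN : ∀ e ∈ ({f, g} : Finset (Finset V)), nbr k M e ⊆ {m} := by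
      intro e he
      rw [mem_insert, mem_singleton] at he
      rcases he with rfl | rfl
      · rw [hnf]
      · rw [hng]
    have h2 := exchange hMax (singleton_subset_iff.2 hm) hP hind hN
    rw [card_pair hne, card_singleton] at h2
    omega
  have hsub : f ∩ g ⊆ (m.erase c).erase d := by
    intro z hz
    rw [mem_inter, ef, eg, mem_insert, mem_insert, mem_erase, mem_erase] at hz
    rw [mem_erase, mem_erase]
    obtain ⟨h1, h2⟩ := hz
    rcases h1 with h1 | h1
    · rcases h2 with h2 | h2
      · exact absurd (h1.symm.trans h2) hxy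
      · exact absurd (h1 ▸ h2.2) hx
    · rcases h2 with h2 | h2
      · exact absurd (h2 ▸ h1.2) hy
      · exact ⟨h2.1, h1.1, h1.2⟩
  have h3 := card_le_card hsub
  rw [card_erase_of_mem (mem_erase.2 ⟨hcd.symm, hd⟩), card_erase_of_mem hc, hmk] at h3
  have h4 := hadj.2
  omega

private theorem single_rep {V : Type} [DecidableEq V] {k : ℕ} {H M : Finset (Finset V)}
    (hk : 2 ≤ k) (hH : ∀ e ∈ H, e.card = k) (hMax : MaxPack k H M) {m : Finset V} (hm : m ∈ M)
    {f : Finset V} (hf : f ∈ H \ M) (hnf : nbr k M f = {m}) :
    ∃ c ∈ m, ∃ x, x ∉ m ∧ f = insert x (m.erase c) := by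
  have hmk : m.card = k := hH m (hMax.1.1 hm)
  have hfk : f.card = k := hH f (mem_sdiff.1 hf).1
  have h1 : m ∈ nbr k M f := by
    rw [hnf]
    exact mem_singleton_self m
  have h2 : Adj k m f := (adj_of_mem_nbr (mem_sdiff.1 hf).2 h1).symm
  obtain ⟨c, hc, x, hx, _, _, h⟩ := adj_exists (by omega) hmk hfk h2
  exact ⟨c, hc, x, hx, h⟩

theorem single : StSingle := by
  intro V _ k H M hk hH hMax m hm
  have hmk : m.card = k := hH m (hMax.1.1 hm)
  by_cases hB : ∃ f ∈ H \ M, nbr k M f = {m} ∧ ∃ g ∈ H \ M, nbr k M g = {m} ∧
      ∃ c ∈ m, ∃ d ∈ m, c ≠ d ∧ ∃ x, x ∉ m ∧ ∃ y, y ∉ m ∧ f = insert x (m.erase c) ∧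
        g = insert y (m.erase d)
  · right
    obtain ⟨f, hf, hnf, g, hg, hng, c, hc, d, hd, hcd, x, hx, y, hy, ef, eg⟩ := hB
    have hxy : x = y := single_key hk hH hMax hm hf hg hnf hng hc hd hx hy ef eg hcd
    refine ⟨insert x m, subset_insert _ _, by rw [card_insert_of_notMem hx, hmk], ?_⟩
    intro h hh hnh
    obtain ⟨e, he, z, hz, eh⟩ := single_rep hk hH hMax hm hh hnh
    have hzx : z = x := by
      by_cases hec : e = c
      · have hed : e ≠ d := by
          rw [hec]
          exact hcd
        have h1 := single_key hk hH hMax hm hh hg hnh hng he hd hz hy eh eg hed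
        rw [h1, hxy]
      · exact single_key hk hH hMax hm hh hf hnh hnf he hc hz hx eh ef hec
    rw [eh, hzx]
    exact insert_subset_insert _ (erase_subset _ _)
  · left
    by_cases hE : ∃ f ∈ H \ M, nbr k M f = {m}
    · obtain ⟨f, hf, hnf⟩ := hE
      obtain ⟨c, hc, x, hx, ef⟩ := single_rep hk hH hMax hm hf hnf
      refine ⟨m.erase c, erase_subset _ _, by rw [card_erase_of_mem hc, hmk], ?_⟩
      intro g hg hng
      obtain ⟨d, hd, y, hy, eg⟩ := single_rep hk hH hMax hm hg hng
      have hcd : c = d := by
        by_contra hne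
        exact hB ⟨f, hf, hnf, g, hg, hng, c, hc, d, hd, hne, x, hx, y, hy, ef, eg⟩
      rw [hcd, eg]
      exact subset_insert _ _
    · have hne : m.Nonempty := by
        rw [← card_pos]
        omega
      obtain ⟨c, hc⟩ := hne
      refine ⟨m.erase c, erase_subset _ _, by rw [card_erase_of_mem hc, hmk], ?_⟩
      intro g hg hng
      exact absurd ⟨g, hg, hng⟩ hE

theorem pair : StPair := by
  intro V _ k Q L hk hQ hL
  induction hn : L.card using Nat.strong_induction_on generalizing L with
  | _ n ih =>
    by_cases h0 : L.card = 0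
    · refine ⟨∅, fun S hS => absurd hS (notMem_empty S), by simp, ?_⟩
      intro c hc
      rw [card_eq_zero] at h0
      rw [h0] at hc
      exact absurd hc (notMem_empty c)
    · by_cases h1 : L.card = 1
      · obtain ⟨c, hc⟩ := card_eq_one.1 h1
        have hcQ : c ∈ Q := hL (by rw [hc]; exact mem_singleton_self c)
        have h2 : k - 1 ≤ (Q.erase c).card := by
          rw [card_erase_of_mem hcQ, hQ]
          omega
        obtain ⟨S, hS, hSk⟩ := exists_subset_card_eq h2
        refine ⟨{S}, ?_, by rw [card_singleton]; omega, ?_⟩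
        · intro T hT
          rw [mem_singleton.1 hT, hSk]
        · intro d hd
          rw [hc, mem_singleton] at hd
          exact ⟨S, mem_singleton_self S, by rw [hd]; exact hS⟩
      · have h2 : 1 < L.card := by omega
        obtain ⟨c, hc, d, hd, hcd⟩ := one_lt_card.1 h2
        have hdL : d ∈ L.erase c := mem_erase.2 ⟨hcd.symm, hd⟩
        have hcard : ((L.erase c).erase d).card = L.card - 1 - 1 := by
          rw [card_erase_of_mem hdL, card_erase_of_mem hc]
        obtain ⟨D, hD1, hD2, hD3⟩ := ih ((L.erase c).erase d).card (by omega)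
          ((L.erase c).erase d) ((erase_subset _ _).trans ((erase_subset _ _).trans hL)) rfl
        have hSk : ((Q.erase c).erase d).card = k - 1 := by
          rw [card_erase_of_mem (mem_erase.2 ⟨hcd.symm, hL hd⟩), card_erase_of_mem (hL hc), hQ]
          omega
        refine ⟨insert ((Q.erase c).erase d) D, ?_, ?_, ?_⟩
        · intro T hT
          rcases mem_insert.1 hT with rfl | hT
          · exact hSk
          · exact hD1 T hT
        · have h3 := card_insert_le ((Q.erase c).erase d) D
          omega
        · intro e he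
          by_cases hec : e = c
          · exact ⟨_, mem_insert_self _ _, by rw [hec]; exact erase_subset _ _⟩
          · by_cases hed : e = d
            · refine ⟨_, mem_insert_self _ _, ?_⟩
              rw [hed]
              exact erase_subset_erase _ (erase_subset _ _)
            · obtain ⟨S, hS, hSQ⟩ := hD3 e (mem_erase.2 ⟨hed, mem_erase.2 ⟨hec, he⟩⟩)
              exact ⟨S, mem_insert_of_mem hS, hSQ⟩

end Pool.Agent.Helper60.GT
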