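import Pool.Agent.Helper60.GT.Alon
import Pool.Agent.Helper60.GT.Aks
import Pool.Agent.Helper60.GT.Samp
import Pool.Agent.Helper60.GT.Deg
import Pool.Agent.Helper60.GT.Cod
import Pool.Agent.Helper60.GT.Main
import Pool.Agent.Helper60.GT.Cap
import Pool.Agent.Helper60.GT.Hub
import Pool.Agent.Helper60.GT.Step
import Pool.Agent.Helper60.GT.First
import Pool.Agent.Helper60.GT.Window
import Pool.Agent.Helper60.GT.Types
import Pool.Agent.Helper60.GT.Single
import Pool.Agent.Helper60.GT.Sel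
import Pool.Agent.Helper60.GT.Cover
import Pool.Agent.Helper60.GT.Count
import Pool.Agent.Helper60.GT.FinA
import Pool.Agent.Helper60.GT.FinB

/-!
# Assembly of the two bounds
-/

set_option autoImplicit false

open Finset

namespace Pool.Agent.Helper60.GT

theorem stTypes : StTypes := by
  have hm : StMain := main (samp (aks alon)) deg cod
  exact types (window (step hm cap greedy hub) (first hm cap hub))

theorem stCover : StCover := cover single pair sel

theorem stFinA : StFinA := finA stTypes stCover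

theorem stFinB : StFinB := finB stTypes stCover count

theorem exists_maxPack {V : Type} [DecidableEq V] (k : ℕ) (H : Finset (Finset V)) :
    ∃ M, MaxPack k H M := by
  classical
  have hne : (H.powerset.filter (fun M => Pack k H M)).Nonempty :=
    ⟨∅, by simp [Pack]⟩
  obtain ⟨M, hM, hmax⟩ := exists_max_image _ (fun M => M.card) hne
  rw [mem_filter] at hM
  exact ⟨M, hM.2, fun M' hM' => hmax M' (mem_filter.2 ⟨mem_powerset.2 hM'.1, hM'⟩)⟩

/-- The combined bound. -/
theorem combined : ∃ c C : ℝ, 0 < c ∧ 0 < C ∧ ∃ k₀ : ℕ, ∀ k : ℕ, k₀ ≤ k →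
    ∀ (n : ℕ) (H : Finset (Finset (Fin n))), (∀ e ∈ H, e.card = k) →
    ∀ N : ℕ, 2 ≤ N →
    (∀ S : Finset (Fin n), S.card = k - 1 → (H.filter (fun e => S ⊆ e)).card ≤ N) →
    ∃ M D : Finset (Finset (Fin n)), Pack k H M ∧
      ((∀ S ∈ D, S.card = k - 1) ∧ ∀ e ∈ H, ∃ S ∈ D, S ⊆ e) ∧
      (D.card : ℝ) ≤ (k - c * max (Real.log k)
        (k * Real.exp (-(C * Real.log N / Real.log k)))) * M.card := by
  obtain ⟨c₁, hc₁, k₁, h₁⟩ := stFinA
  obtain ⟨c₂, C, hc₂, hC, k₂, h₂⟩ := stFinB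
  refine ⟨min c₁ c₂, C, lt_min hc₁ hc₂, hC, max (max k₁ k₂) 1, fun k hk n H hH N hN hdeg => ?_⟩
  have hk1 : k₁ ≤ k := (le_max_left _ _).trans ((le_max_left _ _).trans hk)
  have hk2 : k₂ ≤ k := (le_max_right _ _).trans ((le_max_left _ _).trans hk)
  have hk3 : 1 ≤ k := (le_max_right _ _).trans hk
  obtain ⟨M, hM⟩ := exists_maxPack k H
  have hlog : 0 ≤ Real.log k := Real.log_natCast_nonneg k
  rcases le_total (Real.log k) (k * Real.exp (-(C * Real.log N / Real.log k))) with h | h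
  · obtain ⟨D, hD1, hD2, hD3⟩ := h₂ k hk2 N hN h (Fin n) H M hH hM hdeg
    refine ⟨M, D, hM.1, ⟨hD1, hD2⟩, hD3.trans ?_⟩
    rw [max_eq_right h]
    refine mul_le_mul_of_nonneg_right ?_ (Nat.cast_nonneg _)
    have := mul_le_mul_of_nonneg_right (min_le_right c₁ c₂) (hlog.trans h)
    linarith
  · obtain ⟨D, hD1, hD2, hD3⟩ := h₁ k hk1 (Fin n) H M hH hM
    refine ⟨M, D, hM.1, ⟨hD1, hD2⟩, hD3.trans ?_⟩
    rw [max_eq_left h]
    refine mul_le_mul_of_nonneg_right ?_ (Nat.cast_nonneg _)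
    have := mul_le_mul_of_nonneg_right (min_le_left c₁ c₂) hlog
    linarith

end Pool.Agent.Helper60.GT
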