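import Pool.Agent.Helper60.GT.Defs

/-!
# Module AL: independent sets in triangle-free graphs (Alon's proof)

Let `D = 2^(b+2)`. Let `𝓘` be the finset of all independent subsets `I` of `F`
(`F.powerset.filter`). For `v ∈ F` and `I ∈ 𝓘` put `X v I = D * [v ∈ I] + |N(v) ∩ I|`, `N(v)` the
neighbours of `v` in `F`.

Claim: `∑ I ∈ 𝓘, X v I ≥ (b/4) * |𝓘|` for every `v ∈ F`. Partition `𝓘` by `J = I \ ({v} ∪ N(v))`
(`Finset.sum_fiberwise` or a bijection). For fixed `J` let `U` be the set of neighbours of `v`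
without neighbour in `J`, `x = |U|`. The members of the fibre are exactly `J ∪ {v}` and `J ∪ S`,
`S ⊆ U` (every `S ⊆ U` is independent: the graph is triangle-free): `2^x + 1` sets, and
`∑ X = D + ∑_{S ⊆ U} |S| = D + x 2^(x-1)`. Numerical inequality
`D + x 2^(x-1) ≥ (b/4) (2^x + 1)`: if `2x ≥ b` then `x 2^(x-1) ≥ (b/4) 2^x` and `D ≥ b/4`; if
`2x < b` then `(b/4)(2^x+1) ≤ (b/2) 2^(b/2) ≤ 2^b`.

Hence `∑ I ∈ 𝓘, ∑ v ∈ F, X v I ≥ (b/4) |F| |𝓘|`; and `∑ v ∈ F, X v I ≤ D |I| + ∑_{u ∈ I} deg u
≤ 2 D |I|`. So some `I` has `2 D |I| ≥ (b/4)|F|`, i.e. `|I| ≥ b |F| / (32 * 2^b)`.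
-/

set_option autoImplicit false

open Finset

namespace Pool.Agent.Helper60.GT

/-- `2 ∑_{S ⊆ U} |S| = |U| 2^|U|` -/
lemma alon_sum_card {ι : Type} [DecidableEq ι] (U : Finset ι) :
    2 * ∑ S ∈ U.powerset, S.card = U.card * 2 ^ U.card := by
  induction U using Finset.induction_on with
  | empty => simp
  | insert a s ha ih =>
    rw [Finset.sum_powerset_insert ha, Finset.card_insert_of_notMem ha]
    have h : ∑ t ∈ s.powerset, (insert a t).card = ∑ t ∈ s.powerset, (t.card + 1) := by
      apply Finset.sum_congr rfl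
      intro t ht
      rw [Finset.card_insert_of_notMem]
      exact fun h => ha (Finset.mem_powerset.1 ht h)
    rw [h, Finset.sum_add_distrib]
    simp only [Finset.sum_const, Finset.card_powerset, smul_eq_mul, mul_one]
    rw [pow_succ]
    linarith

/-- the numerical inequality -/
lemma alon_num (b x : ℕ) : (b : ℝ) / 2 * (2 ^ x + 1) ≤ 2 * 2 ^ (b + 2) + x * 2 ^ x := by
  have hb : (b : ℝ) ≤ 2 ^ b := by exact_mod_cast (Nat.lt_two_pow_self (n := b)).le
  have h2 : (2 : ℝ) ^ (b + 2) = 4 * 2 ^ b := by rw [pow_add]; norm_num; ring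
  have hx1 : (1 : ℝ) ≤ 2 ^ x := one_le_pow₀ (by norm_num)
  have hb1 : (1 : ℝ) ≤ 2 ^ b := one_le_pow₀ (by norm_num)
  rw [h2]
  by_cases hbx : b ≤ 2 * x
  · have h3 : (b : ℝ) / 2 ≤ x := by
      have : (b : ℝ) ≤ 2 * x := by exact_mod_cast hbx
      linarith
    nlinarith [mul_le_mul_of_nonneg_right h3 (le_trans zero_le_one hx1)]
  · push Not at hbx
    obtain ⟨y, rfl⟩ : ∃ y, b = x + y := ⟨b - x, by omega⟩
    have hxy : x ≤ y := by omega
    have hy : (y : ℝ) ≤ 2 ^ y := by exact_mod_cast (Nat.lt_two_pow_self (n := y)).le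
    have hxy' : (x : ℝ) ≤ y := by exact_mod_cast hxy
    have e : (2 : ℝ) ^ (x + y) = 2 ^ x * 2 ^ y := by rw [pow_add]
    rw [e]
    push_cast
    have h4 : ((x : ℝ) + y) / 2 ≤ 2 ^ y := by linarith
    have h5 : (0 : ℝ) ≤ ((x : ℝ) + y) / 2 := by positivity
    calc ((x : ℝ) + y) / 2 * (2 ^ x + 1) ≤ 2 ^ y * (2 ^ x + 1) := by
          apply mul_le_mul_of_nonneg_right h4; positivity
      _ ≤ 2 ^ y * (2 ^ x + 2 ^ x) := by
          apply mul_le_mul_of_nonneg_left _ (by positivity); linarith
      _ ≤ 2 * (4 * (2 ^ x * 2 ^ y)) + x * 2 ^ x := by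
          have : (0 : ℝ) ≤ (x : ℝ) * 2 ^ x := by positivity
          have : (0 : ℝ) ≤ 2 ^ x * 2 ^ y := by positivity
          nlinarith

/-- the fibre inequality -/
lemma alon_fibre {ι : Type} [DecidableEq ι] (F : Finset ι) (A : ι → ι → Prop) [DecidableRel A]
    (b : ℕ) (hs : ∀ x y, A x y → A y x) (hi : ∀ x, ¬ A x x)
    (ht : ∀ x ∈ F, ∀ y ∈ F, ∀ z ∈ F, A x y → A y z → A x z → False)
    (v : ι) (hv : v ∈ F) (J : Finset ι)
    (hJ : J ⊆ F) (hJi : ∀ x ∈ J, ∀ y ∈ J, ¬ A x y) (hvJ : v ∉ J) (hNJ : ∀ x ∈ J, ¬ A v x) :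
    (b : ℝ) / 4 * (((F.powerset.filter (fun I => ∀ x ∈ I, ∀ y ∈ I, ¬ A x y)).filter
        (fun I => I \ insert v (F.filter (fun u => A v u)) = J)).card : ℝ) ≤
      ∑ I ∈ (F.powerset.filter (fun I => ∀ x ∈ I, ∀ y ∈ I, ¬ A x y)).filter
        (fun I => I \ insert v (F.filter (fun u => A v u)) = J),
        ((if v ∈ I then (2 : ℝ) ^ (b + 2) else 0) +
          (((F.filter (fun u => A v u)) ∩ I).card : ℝ)) := by
  set N : Finset ι := F.filter (fun u => A v u) with hN
  set U : Finset ι := N.filter (fun u => ∀ y ∈ J, ¬ A u y) with hU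
  have hvN : v ∉ N := by
    intro h
    exact hi v (Finset.mem_filter.1 h).2
  have hUN : U ⊆ N := Finset.filter_subset _ _
  have hJN : ∀ x ∈ J, x ∉ N := fun x hx h => hNJ x hx (Finset.mem_filter.1 h).2
  have key : (F.powerset.filter (fun I => ∀ x ∈ I, ∀ y ∈ I, ¬ A x y)).filter
      (fun I => I \ insert v N = J) = insert (insert v J) (U.powerset.image (fun S => J ∪ S)) := by
    ext I
    simp only [Finset.mem_filter, Finset.mem_powerset, Finset.mem_insert, Finset.mem_image]
    constructor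
    · rintro ⟨⟨hIF, hI⟩, hIJ⟩
      by_cases hvI : v ∈ I
      · left
        ext z
        rw [← hIJ]
        simp only [Finset.mem_insert, Finset.mem_sdiff]
        constructor
        · intro hz
          by_cases hzv : z = v
          · exact Or.inl hzv
          · right
            refine ⟨hz, ?_⟩
            rintro (h | h)
            · exact hzv h
            · exact hI v hvI z hz (Finset.mem_filter.1 h).2
        · rintro (h | h)
          · rw [h]; exact hvI
          · exact h.1
      · right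
        refine ⟨I ∩ N, ?_, ?_⟩
        · intro z hz
          rw [Finset.mem_inter] at hz
          rw [hU, Finset.mem_filter]
          refine ⟨hz.2, ?_⟩
          intro y hy
          rw [← hIJ, Finset.mem_sdiff] at hy
          exact hI z hz.1 y hy.1
        · ext z
          rw [← hIJ]
          simp only [Finset.mem_union, Finset.mem_inter, Finset.mem_sdiff, Finset.mem_insert]
          constructor
          · rintro (h | h)
            · exact h.1
            · exact h.1
          · intro hz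
            by_cases hzN : z ∈ N
            · exact Or.inr ⟨hz, hzN⟩
            · left
              refine ⟨hz, ?_⟩
              rintro (h | h)
              · exact hvI (h ▸ hz)
              · exact hzN h
    · rintro (h | ⟨S, hS, h⟩)
      · subst h
        refine ⟨⟨?_, ?_⟩, ?_⟩
        · intro z hz
          rcases Finset.mem_insert.1 hz with h | h
          · rw [h]; exact hv
          · exact hJ h
        · intro x hx y hy hxy
          rcases Finset.mem_insert.1 hx with h | h
          · rcases Finset.mem_insert.1 hy with h' | h'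
            · rw [h, h'] at hxy; exact hi v hxy
            · rw [h] at hxy; exact hNJ y h' hxy
          · rcases Finset.mem_insert.1 hy with h' | h'
            · rw [h'] at hxy; exact hNJ x h (hs _ _ hxy)
            · exact hJi x h y h' hxy
        · ext z
          simp only [Finset.mem_sdiff, Finset.mem_insert]
          constructor
          · rintro ⟨h | h, h'⟩
            · exact absurd (Or.inl h) h'
            · exact h
          · intro hz
            refine ⟨Or.inr hz, ?_⟩
            rintro (h | h)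
            · exact hvJ (h ▸ hz)
            · exact hJN z hz h
      · subst h
        have hSN : S ⊆ N := hS.trans hUN
        refine ⟨⟨?_, ?_⟩, ?_⟩
        · intro z hz
          rcases Finset.mem_union.1 hz with h | h
          · exact hJ h
          · exact (Finset.mem_filter.1 (hSN h)).1
        · intro x hx y hy hxy
          rcases Finset.mem_union.1 hx with h | h
          · rcases Finset.mem_union.1 hy with h' | h'
            · exact hJi x h y h' hxy
            · have := (Finset.mem_filter.1 (hS h')).2 x h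
              exact this (hs _ _ hxy)
          · rcases Finset.mem_union.1 hy with h' | h'
            · exact (Finset.mem_filter.1 (hS h)).2 y h' hxy
            · have h1 := Finset.mem_filter.1 (hSN h)
              have h2 := Finset.mem_filter.1 (hSN h')
              exact ht v hv x h1.1 y h2.1 h1.2 hxy h2.2
        · ext z
          simp only [Finset.mem_sdiff, Finset.mem_insert, Finset.mem_union]
          constructor
          · rintro ⟨h | h, h'⟩
            · exact h
            · exact absurd (Or.inr (hSN h)) h'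
          · intro hz
            refine ⟨Or.inl hz, ?_⟩
            rintro (h | h)
            · exact hvJ (h ▸ hz)
            · exact hJN z hz h
  have hnot : insert v J ∉ U.powerset.image (fun S => J ∪ S) := by
    intro h
    obtain ⟨S, hS, h⟩ := Finset.mem_image.1 h
    have hv' : v ∈ J ∪ S := by rw [h]; exact Finset.mem_insert_self _ _
    rcases Finset.mem_union.1 hv' with h' | h'
    · exact hvJ h'
    · exact hvN (hUN (Finset.mem_powerset.1 hS h'))
  have hinj : Set.InjOn (fun S => J ∪ S) (U.powerset : Set (Finset ι)) := by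
    intro S hS T hT h
    have hS' : S ⊆ N := (Finset.mem_powerset.1 (Finset.mem_coe.1 hS)).trans hUN
    have hT' : T ⊆ N := (Finset.mem_powerset.1 (Finset.mem_coe.1 hT)).trans hUN
    have h0 : J ∪ S = J ∪ T := h
    ext z
    constructor
    · intro hz
      have : z ∈ J ∪ T := by rw [← h0]; exact Finset.mem_union_right _ hz
      rcases Finset.mem_union.1 this with h1 | h1
      · exact absurd (hS' hz) (hJN z h1)
      · exact h1
    · intro hz
      have : z ∈ J ∪ S := by rw [h0]; exact Finset.mem_union_right _ hz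
      rcases Finset.mem_union.1 this with h1 | h1
      · exact absurd (hT' hz) (hJN z h1)
      · exact h1
  rw [key, Finset.card_insert_of_notMem hnot, Finset.card_image_of_injOn hinj,
    Finset.card_powerset, Finset.sum_insert hnot, Finset.sum_image hinj]
  have h1 : (if v ∈ insert v J then (2 : ℝ) ^ (b + 2) else 0) = 2 ^ (b + 2) :=
    if_pos (Finset.mem_insert_self _ _)
  have h2 : ∀ S ∈ U.powerset, ((if v ∈ J ∪ S then (2 : ℝ) ^ (b + 2) else 0) +
      ((N ∩ (J ∪ S)).card : ℝ)) = (S.card : ℝ) := by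
    intro S hS
    have hSN : S ⊆ N := (Finset.mem_powerset.1 hS).trans hUN
    have h3 : v ∉ J ∪ S := by
      intro h
      rcases Finset.mem_union.1 h with h' | h'
      · exact hvJ h'
      · exact hvN (hSN h')
    have h4 : N ∩ (J ∪ S) = S := by
      ext z
      simp only [Finset.mem_inter, Finset.mem_union]
      constructor
      · rintro ⟨hz, h | h⟩
        · exact absurd hz (hJN z h)
        · exact h
      · intro hz
        exact ⟨hSN hz, Or.inr hz⟩
    rw [if_neg h3, h4, zero_add]
  rw [Finset.sum_congr rfl h2, h1]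
  have h5 : (2 : ℝ) * ∑ S ∈ U.powerset, (S.card : ℝ) = U.card * 2 ^ U.card := by
    exact_mod_cast alon_sum_card U
  have h6 := alon_num b U.card
  have h7 : (0 : ℝ) ≤ ((N ∩ insert v J).card : ℝ) := by positivity
  push_cast
  nlinarith

/-- the sum for one vertex -/
lemma alon_vertex {ι : Type} [DecidableEq ι] (F : Finset ι) (A : ι → ι → Prop) [DecidableRel A]
    (b : ℕ) (hs : ∀ x y, A x y → A y x) (hi : ∀ x, ¬ A x x)
    (ht : ∀ x ∈ F, ∀ y ∈ F, ∀ z ∈ F, A x y → A y z → A x z → False)
    (v : ι) (hv : v ∈ F) :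
    (b : ℝ) / 4 * ((F.powerset.filter (fun I => ∀ x ∈ I, ∀ y ∈ I, ¬ A x y)).card : ℝ) ≤
      ∑ I ∈ F.powerset.filter (fun I => ∀ x ∈ I, ∀ y ∈ I, ¬ A x y),
        ((if v ∈ I then (2 : ℝ) ^ (b + 2) else 0) +
          (((F.filter (fun u => A v u)) ∩ I).card : ℝ)) := by
  set 𝓘 := F.powerset.filter (fun I => ∀ x ∈ I, ∀ y ∈ I, ¬ A x y) with h𝓘
  set g : Finset ι → Finset ι := fun I => I \ insert v (F.filter (fun u => A v u)) with hg
  have hmaps : ∀ I ∈ 𝓘, g I ∈ 𝓘.image g := fun I hI => Finset.mem_image_of_mem g hI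
  rw [← Finset.sum_fiberwise_of_maps_to hmaps, Finset.card_eq_sum_card_fiberwise hmaps]
  push_cast
  rw [Finset.mul_sum]
  apply Finset.sum_le_sum
  intro J hJ
  obtain ⟨I, hI, rfl⟩ := Finset.mem_image.1 hJ
  rw [h𝓘, Finset.mem_filter, Finset.mem_powerset] at hI
  have := alon_fibre F A b hs hi ht v hv (g I) (Finset.sdiff_subset.trans hI.1)
    (fun x hx y hy => hI.2 x (Finset.sdiff_subset hx) y (Finset.sdiff_subset hy))
    (fun h => (Finset.mem_sdiff.1 h).2 (Finset.mem_insert_self _ _))
    (fun x hx hvx => (Finset.mem_sdiff.1 hx).2 (Finset.mem_insert_of_mem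
      (Finset.mem_filter.2 ⟨hI.1 (Finset.sdiff_subset hx), hvx⟩)))
  exact this

/-- the sum for one independent set -/
lemma alon_set {ι : Type} [DecidableEq ι] (F : Finset ι) (A : ι → ι → Prop) [DecidableRel A]
    (b : ℕ) (hs : ∀ x y, A x y → A y x)
    (hd : ∀ v ∈ F, (F.filter (fun u => A v u)).card ≤ 2 ^ (b + 2))
    (I : Finset ι) (hI : I ⊆ F) :
    ∑ v ∈ F, ((if v ∈ I then (2 : ℝ) ^ (b + 2) else 0) +
      (((F.filter (fun u => A v u)) ∩ I).card : ℝ)) ≤ 2 * 2 ^ (b + 2) * I.card := by
  rw [Finset.sum_add_distrib]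
  have h1 : ∑ v ∈ F, (if v ∈ I then (2 : ℝ) ^ (b + 2) else 0) = 2 ^ (b + 2) * I.card := by
    rw [← Finset.sum_filter, Finset.filter_mem_eq_inter, Finset.inter_eq_right.2 hI,
      Finset.sum_const, nsmul_eq_mul, mul_comm]
  have h2 : ∑ v ∈ F, (((F.filter (fun u => A v u)) ∩ I).card : ℝ) ≤ 2 ^ (b + 2) * I.card := by
    have h3 : ∀ v ∈ F, (((F.filter (fun u => A v u)) ∩ I).card : ℝ) =
        ∑ u ∈ I, (if A v u then (1 : ℝ) else 0) := by
      intro v _
      rw [← Finset.sum_filter, Finset.sum_const, nsmul_eq_mul, mul_one]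
      congr 2
      ext z
      simp only [Finset.mem_inter, Finset.mem_filter]
      constructor
      · rintro ⟨⟨_, h⟩, h'⟩
        exact ⟨h', h⟩
      · rintro ⟨h, h'⟩
        exact ⟨⟨hI h, h'⟩, h⟩
    rw [Finset.sum_congr rfl h3, Finset.sum_comm]
    calc ∑ u ∈ I, ∑ v ∈ F, (if A v u then (1 : ℝ) else 0)
        ≤ ∑ u ∈ I, (2 : ℝ) ^ (b + 2) := by
          apply Finset.sum_le_sum
          intro u hu
          rw [← Finset.sum_filter, Finset.sum_const, nsmul_eq_mul, mul_one]
          have h4 : F.filter (fun v => A v u) = F.filter (fun v => A u v) := by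
            apply Finset.filter_congr
            intro v _
            exact ⟨hs _ _, hs _ _⟩
          rw [h4]
          exact_mod_cast hd u (hI hu)
      _ = 2 ^ (b + 2) * I.card := by
          rw [Finset.sum_const, nsmul_eq_mul, mul_comm]
  rw [h1]
  linarith

theorem alon : StAlon := by
  intro ι _ F A _ b hs hi hd ht
  set 𝓘 := F.powerset.filter (fun I => ∀ x ∈ I, ∀ y ∈ I, ¬ A x y) with h𝓘
  have hne : 𝓘.Nonempty := ⟨∅, by
    rw [h𝓘, Finset.mem_filter, Finset.mem_powerset]
    exact ⟨Finset.empty_subset _, by simp⟩⟩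
  have hsum : ∑ I ∈ 𝓘, ((b : ℝ) / 4 * F.card) ≤ ∑ I ∈ 𝓘, 2 * 2 ^ (b + 2) * (I.card : ℝ) := by
    calc ∑ I ∈ 𝓘, ((b : ℝ) / 4 * F.card) = ∑ v ∈ F, (b : ℝ) / 4 * (𝓘.card : ℝ) := by
          rw [Finset.sum_const, Finset.sum_const, nsmul_eq_mul, nsmul_eq_mul]; ring
      _ ≤ ∑ v ∈ F, ∑ I ∈ 𝓘, ((if v ∈ I then (2 : ℝ) ^ (b + 2) else 0) +
            (((F.filter (fun u => A v u)) ∩ I).card : ℝ)) :=
          Finset.sum_le_sum (fun v hv => alon_vertex F A b hs hi ht v hv)
      _ = ∑ I ∈ 𝓘, ∑ v ∈ F, ((if v ∈ I then (2 : ℝ) ^ (b + 2) else 0) +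
            (((F.filter (fun u => A v u)) ∩ I).card : ℝ)) := Finset.sum_comm
      _ ≤ ∑ I ∈ 𝓘, 2 * 2 ^ (b + 2) * (I.card : ℝ) := by
          apply Finset.sum_le_sum
          intro I hI
          rw [h𝓘, Finset.mem_filter, Finset.mem_powerset] at hI
          exact alon_set F A b hs hd I hI.1
  obtain ⟨I, hI, hle⟩ := Finset.exists_le_of_sum_le hne hsum
  rw [h𝓘, Finset.mem_filter, Finset.mem_powerset] at hI
  refine ⟨I, hI.1, hI.2, ?_⟩
  have h2 : (2 : ℝ) ^ (b + 2) = 4 * 2 ^ b := by rw [pow_add]; norm_num; ring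
  rw [h2] at hle
  have hpos : (0 : ℝ) < 32 * 2 ^ b := by positivity
  rw [div_mul_eq_mul_div, div_le_iff₀ hpos]
  nlinarith

end Pool.Agent.Helper60.GT
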