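import Mathlib

/-!
# Project GT: covering and packing of `(k-1)`-sets (Aharoni-Zerbib), definitions and statements

All edges are members of `Finset (Finset V)`. Paper proof: helper60_GT_Proof.md.
-/

set_option autoImplicit false

open Finset

namespace Pool.Agent.Helper60.GT

section Defs

variable {V : Type} [DecidableEq V]

/-- `M` is a packing in `H`. -/
def Pack (k : ℕ) (H M : Finset (Finset V)) : Prop :=
  M ⊆ H ∧ ∀ e ∈ M, ∀ f ∈ M, e ≠ f → (e ∩ f).card < k - 1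

/-- `M` is a packing of maximum size in `H`. -/
def MaxPack (k : ℕ) (H M : Finset (Finset V)) : Prop :=
  Pack k H M ∧ ∀ M' : Finset (Finset V), Pack k H M' → M'.card ≤ M.card

/-- adjacency (conflict) of two sets -/
def Adj (k : ℕ) (f g : Finset V) : Prop := f ≠ g ∧ k - 1 ≤ (f ∩ g).card

instance (k : ℕ) : DecidableRel (Adj k : Finset V → Finset V → Prop) :=
  fun f g => inferInstanceAs (Decidable (f ≠ g ∧ k - 1 ≤ (f ∩ g).card))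

/-- the members of `M` adjacent to `f` (for `f ∉ M`) -/
def nbr (k : ℕ) (M : Finset (Finset V)) (f : Finset V) : Finset (Finset V) :=
  M.filter (fun m => k - 1 ≤ (f ∩ m).card)

/-- the type of `f` -/
def typ (k : ℕ) (M : Finset (Finset V)) (f : Finset V) : ℕ := (nbr k M f).card

/-- `S` lies under `M` -/
def Under (M : Finset (Finset V)) (S : Finset V) : Prop := ∃ m ∈ M, S ⊆ m

instance (M : Finset (Finset V)) (S : Finset V) : Decidable (Under M S) :=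
  inferInstanceAs (Decidable (∃ m ∈ M, S ⊆ m))

/-- the ridges under `M` -/
def shadow (k : ℕ) (M : Finset (Finset V)) : Finset (Finset V) :=
  M.biUnion (fun m => m.powersetCard (k - 1))

/-- the load of a ridge -/
noncomputable def load (k : ℕ) (M F : Finset (Finset V)) (δ : ℝ) (S : Finset V) : ℝ :=
  ∑ f ∈ F.filter (fun f => S ⊆ f), δ ^ typ k M f

/-- the total weight of a family -/
noncomputable def wt (k : ℕ) (M F : Finset (Finset V)) (δ : ℝ) : ℝ :=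
  ∑ f ∈ F, δ ^ typ k M f

end Defs

/-! ### Independent sets -/

/-- AL. Ajtai-Komlos-Szemeredi for triangle-free graphs of bounded degree (Alon's proof). -/
def StAlon : Prop :=
  ∀ (ι : Type) [DecidableEq ι] (F : Finset ι) (A : ι → ι → Prop) [DecidableRel A] (b : ℕ),
    (∀ x y, A x y → A y x) → (∀ x, ¬ A x x) →
    (∀ v ∈ F, (F.filter (fun u => A v u)).card ≤ 2 ^ (b + 2)) →
    (∀ x ∈ F, ∀ y ∈ F, ∀ z ∈ F, A x y → A y z → A x z → False) →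
    ∃ P ⊆ F, (∀ x ∈ P, ∀ y ∈ P, ¬ A x y) ∧ (b : ℝ) / (32 * 2 ^ b) * F.card ≤ P.card

/-- AK. Linear form of the bound for arbitrary graphs. -/
def StAks : Prop :=
  ∀ (ι : Type) [DecidableEq ι] (F : Finset ι) (A : ι → ι → Prop) [DecidableRel A] (b : ℕ),
    (∀ x y, A x y → A y x) → (∀ x, ¬ A x x) →
    ∃ P ⊆ F, (∀ x ∈ P, ∀ y ∈ P, ¬ A x y) ∧
      (b : ℝ) / (32 * 2 ^ b) * ((F.card : ℝ)
        - (((F ×ˢ F ×ˢ F).filter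
            (fun p => A p.1 p.2.1 ∧ A p.2.1 p.2.2 ∧ A p.1 p.2.2)).card : ℝ)
        - (((F ×ˢ F).filter (fun p => A p.1 p.2)).card : ℝ) / (4 * 2 ^ b)) ≤ P.card

/-- SA. The sampling lemma. -/
def StSamp : Prop :=
  ∀ (ι μ : Type) [DecidableEq ι] [DecidableEq μ] (F : Finset ι) (M : Finset μ)
    (N : ι → Finset μ) (A : ι → ι → Prop) [DecidableRel A] (b : ℕ) (q : ℝ) (x : ι → ℝ),
    (∀ f g, A f g → A g f) → (∀ f, ¬ A f f) → 0 < q → q ≤ 1 →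
    (∀ f ∈ F, 0 ≤ x f ∧ x f ≤ 1) → (∀ f ∈ F, N f ⊆ M) →
    (∀ M₀ ⊆ M, ∀ P ⊆ F, (∀ f ∈ P, ∀ g ∈ P, ¬ A f g) → (∀ f ∈ P, N f ⊆ M₀) →
      P.card ≤ M₀.card) →
    (∀ f ∈ F, ∑ g ∈ F.filter (fun g => A f g),
      x g * q ^ (N g).card / q ^ (N f ∩ N g).card ≤ 2 * 2 ^ b) →
    (∀ f ∈ F, ∀ g ∈ F, A f g → ∑ h ∈ F.filter (fun h => A f h ∧ A g h),
      x h * q ^ (N h).card / q ^ (N h ∩ (N f ∪ N g)).card ≤ 1 / (8 * 2 ^ b)) →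
    (b : ℝ) / (128 * 2 ^ b) * ∑ f ∈ F, x f * q ^ (N f).card ≤ q * M.card

/-! ### The conflict graph -/

/-- DG. The degree sum. -/
def StDeg : Prop :=
  ∀ (V : Type) [DecidableEq V] (k a b : ℕ) (M F : Finset (Finset V)) (ξ θ δ T Λ : ℝ),
    2 ≤ k → 2 ≤ a → a ≤ b → (∀ m ∈ M, m.card = k) →
    (∀ m ∈ M, ∀ m' ∈ M, m ≠ m' → (m ∩ m').card < k - 1) →
    (∀ f ∈ F, f.card = k ∧ f ∉ M ∧ a ≤ typ k M f ∧ typ k M f ≤ b) →
    0 < ξ → 0 < θ → θ ≤ 1 → 0 < δ → δ ≤ 1 → 0 ≤ T → 0 ≤ Λ →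
    (∀ R : Finset V, R.card = k - 1 → ¬ Under M R → load k M F δ R ≤ T) →
    (∀ R : Finset V, R.card = k - 1 → Under M R → load k M F δ R ≤ Λ) →
    ∀ f ∈ F, ∑ g ∈ F.filter (fun g => Adj k f g),
      ξ * θ ^ b * δ ^ typ k M g / (θ * δ) ^ (nbr k M f ∩ nbr k M g).card ≤
        k * (ξ * θ ^ b * T) + b * (ξ * θ ^ (b - 1) * Λ / δ) +
          b * k * (ξ * θ ^ (b - 1) * δ ^ (a - 1)) + (b : ℝ) ^ 2 * ξ

/-- CO. The codegree sum. -/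
def StCod : Prop :=
  ∀ (V : Type) [DecidableEq V] (k a b : ℕ) (M F : Finset (Finset V)) (ξ θ δ T Λ : ℝ),
    2 ≤ k → 2 ≤ a → a ≤ b → (∀ m ∈ M, m.card = k) →
    (∀ m ∈ M, ∀ m' ∈ M, m ≠ m' → (m ∩ m').card < k - 1) →
    (∀ f ∈ F, f.card = k ∧ f ∉ M ∧ a ≤ typ k M f ∧ typ k M f ≤ b) →
    0 < ξ → 0 < θ → θ ≤ 1 → 0 < δ → δ ≤ 1 → 0 ≤ T → 0 ≤ Λ →
    (∀ R : Finset V, R.card = k - 1 → ¬ Under M R → load k M F δ R ≤ T) →
    (∀ R : Finset V, R.card = k - 1 → Under M R → load k M F δ R ≤ Λ) →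
    ∀ f ∈ F, ∀ g ∈ F, Adj k f g → ∑ h ∈ F.filter (fun h => Adj k f h ∧ Adj k g h),
      ξ * θ ^ b * δ ^ typ k M h / (θ * δ) ^ (nbr k M h ∩ (nbr k M f ∪ nbr k M g)).card ≤
        ξ * θ ^ b * T + ξ * θ ^ (b - 1) * Λ / δ + k * (ξ * θ ^ b * δ ^ a) +
          k * (ξ * θ ^ (b - 1) * δ ^ (a - 1)) + 4 * b * ξ

/-- MA. The main lemma. -/
def StMain : Prop :=
  ∀ (V : Type) [DecidableEq V] (k a b : ℕ) (H M F : Finset (Finset V)) (θ δ T : ℝ),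
    2 ≤ k → 2 ≤ a → a ≤ b → (∀ e ∈ H, e.card = k) → MaxPack k H M → F ⊆ H \ M →
    (∀ f ∈ F, a ≤ typ k M f ∧ typ k M f ≤ b) →
    0 < θ → θ ≤ 1 → 0 < δ → δ ≤ 1 → 0 < T →
    k * (1 / (160 * (b : ℝ) ^ 2 * 2 ^ b)) * T * θ ^ b = 2 ^ b →
    (40 : ℝ) * 4 ^ b ≤ k → 40 * 4 ^ b * δ ^ (a - 1) ≤ T * θ →
    (∀ R : Finset V, R.card = k - 1 → ¬ Under M R → load k M F δ R ≤ T) →
    (∀ R : Finset V, R.card = k - 1 → Under M R →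
      load k M F δ R ≤ 4 * b * δ / θ ^ (b - 1)) →
    wt k M F δ ≤ 128 / b * δ * k * T * θ * M.card

/-! ### Scales -/

/-- CA. A maximal subfamily under capacities. -/
def StCap : Prop :=
  ∀ (V : Type) [DecidableEq V] (k : ℕ) (M F : Finset (Finset V)) (δ : ℝ) (cap : Finset V → ℝ),
    0 ≤ δ → (∀ R, 0 ≤ cap R) →
    ∃ G ⊆ F, (∀ R : Finset V, R.card = k - 1 → load k M G δ R ≤ cap R) ∧
      ∀ f ∈ F, f ∉ G → ∃ R ⊆ f, R.card = k - 1 ∧ cap R < load k M G δ R + δ ^ typ k M f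

/-- GR. The greedy cover by ridges of large load which are not under `M`. -/
def StGreedy : Prop :=
  ∀ (V : Type) [DecidableEq V] (k : ℕ) (M F : Finset (Finset V)) (δ T : ℝ),
    0 ≤ δ → 0 < T →
    ∃ G ⊆ F, ∃ C : Finset (Finset V), (∀ R ∈ C, R.card = k - 1) ∧
      (∀ R : Finset V, R.card = k - 1 → ¬ Under M R → load k M G δ R ≤ T) ∧
      (∀ f ∈ F, f ∉ G → ∃ R ∈ C, R ⊆ f) ∧ (C.card : ℝ) * T ≤ wt k M F δ

/-- HU. Double counting of loads. -/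
def StHub : Prop :=
  ∀ (V : Type) [DecidableEq V] (k b : ℕ) (M F U : Finset (Finset V)) (δ L : ℝ),
    2 ≤ k → 0 ≤ δ → (∀ m ∈ M, m.card = k) →
    (∀ m ∈ M, ∀ m' ∈ M, m ≠ m' → (m ∩ m').card < k - 1) →
    (∀ f ∈ F, f.card = k ∧ f ∉ M ∧ typ k M f ≤ b) →
    (∀ S ∈ U, S.card = k - 1 ∧ L ≤ load k M F δ S) →
    (U.card : ℝ) * L ≤ k * wt k M F δ ∧
      ((∀ S ∈ U, Under M S) → (U.card : ℝ) * L ≤ b * wt k M F δ)

/-- ST. One scale. -/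
def StStep : Prop :=
  ∀ (V : Type) [DecidableEq V] (k a b : ℕ) (H M F : Finset (Finset V)) (θ δ T : ℝ),
    2 ≤ k → 2 ≤ a → a ≤ b → (∀ e ∈ H, e.card = k) → MaxPack k H M → F ⊆ H \ M →
    (∀ f ∈ F, a ≤ typ k M f ∧ typ k M f ≤ b) →
    0 < θ → θ ≤ 1 → 0 < δ → δ ≤ 1 → 0 < T →
    k * (1 / (160 * (b : ℝ) ^ 2 * 2 ^ b)) * T * θ ^ b = 2 ^ b →
    (40 : ℝ) * 4 ^ b ≤ k → 40 * 4 ^ b * δ ^ (a - 1) ≤ T * θ →
    (∀ R : Finset V, R.card = k - 1 → ¬ Under M R → load k M F δ R ≤ T) →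
    ∃ G ⊆ F, ∃ U C : Finset (Finset V), U ⊆ shadow k M ∧ (∀ R ∈ C, R.card = k - 1) ∧
      (∀ f ∈ F, f ∉ G → (∃ S ∈ U, S ⊆ f) ∨ (∃ R ∈ C, R ⊆ f)) ∧
      (∀ R : Finset V, R.card = k - 1 → ¬ Under M R → load k M G δ R ≤ T / 2) ∧
      wt k M G δ ≤ 128 / b * δ * k * T * θ * M.card ∧
      (U.card : ℝ) ≤ 10240 * b * 4 ^ b * M.card ∧
      (C.card : ℝ) ≤ 256 / b * δ * k * θ * M.card

/-- FS. The first step: no bound on the loads of `F`. -/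
def StFirst : Prop :=
  ∀ (V : Type) [DecidableEq V] (k a b : ℕ) (H M F : Finset (Finset V)) (θ δ T : ℝ),
    2 ≤ k → 2 ≤ a → a ≤ b → (∀ e ∈ H, e.card = k) → MaxPack k H M → F ⊆ H \ M →
    (∀ f ∈ F, a ≤ typ k M f ∧ typ k M f ≤ b) →
    0 < θ → θ ≤ 1 → 0 < δ → δ ≤ 1 → 0 < T →
    k * (1 / (160 * (b : ℝ) ^ 2 * 2 ^ b)) * T * θ ^ b = 2 ^ b →
    (40 : ℝ) * 4 ^ b ≤ k → 40 * 4 ^ b * δ ^ (a - 1) ≤ T * θ →
    ∃ G ⊆ F, ∃ U C : Finset (Finset V), U ⊆ shadow k M ∧ (∀ R ∈ C, R.card = k - 1) ∧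
      (∀ f ∈ F, f ∉ G → (∃ S ∈ U, S ⊆ f) ∨ (∃ R ∈ C, R ⊆ f)) ∧
      (∀ R : Finset V, R.card = k - 1 → ¬ Under M R → load k M G δ R ≤ T) ∧
      (U.card : ℝ) ≤ 10240 * b * 4 ^ b * M.card ∧
      (C.card : ℝ) ≤ k * (256 / b * δ * k * θ * M.card)

/-- WI. A window of types. -/
def StWindow : Prop :=
  ∀ (V : Type) [DecidableEq V] (k a b : ℕ) (H M : Finset (Finset V)) (δ η θ₀ : ℝ),
    2 ≤ k → 3 ≤ b → 2 ≤ a → a ≤ b → (∀ e ∈ H, e.card = k) → MaxPack k H M →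
    0 < δ → δ ≤ 1 → 0 < η → 0 < θ₀ → θ₀ ≤ 1 →
    η * k * θ₀ ^ (b - 1) = 160 * (b : ℝ) ^ 2 * 8 ^ b →
    (40 : ℝ) * 4 ^ b ≤ k → 40 * 8 ^ b * δ ^ (a - 1) ≤ η →
    ∃ U C : Finset (Finset V), U ⊆ shadow k M ∧ (∀ R ∈ C, R.card = k - 1) ∧
      (U.card : ℝ) ≤ (b * (Nat.clog 2 (256 * k) : ℝ) + 2) * (10240 * b * 4 ^ b) * M.card ∧
      (C.card : ℝ) ≤ 513 * δ * k * θ₀ * M.card ∧
      wt k M ((H \ M).filter (fun f => (a ≤ typ k M f ∧ typ k M f ≤ b) ∧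
        (∀ S ∈ U, ¬ S ⊆ f) ∧ ∀ R ∈ C, ¬ R ⊆ f)) δ ≤
          128 / b * (η / 2 ^ b) * δ * k * M.card

/-- TY. All types between `2` and `J`. -/
def StTypes : Prop :=
  ∃ k₀ : ℕ, ∀ k : ℕ, k₀ ≤ k → ∀ J : ℕ, (J : ℝ) ≤ Real.log k / 210000 →
    ∀ δ : ℝ, 0 < δ → δ ≤ 1 / (3 * 10 ^ 7) →
    ∀ (V : Type) [DecidableEq V] (H M : Finset (Finset V)), (∀ e ∈ H, e.card = k) →
      MaxPack k H M →
      ∃ U C : Finset (Finset V), U ⊆ shadow k M ∧ (∀ R ∈ C, R.card = k - 1) ∧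
        (U.card : ℝ) ≤ k / 10 * M.card ∧ (C.card : ℝ) ≤ 1 / 50 * δ * k * M.card ∧
        wt k M ((H \ M).filter (fun f => (2 ≤ typ k M f ∧ typ k M f ≤ J) ∧
          (∀ S ∈ U, ¬ S ⊆ f) ∧ ∀ R ∈ C, ¬ R ⊆ f)) δ ≤ 1 / 100 * δ * k * M.card

/-! ### Singles, selection, cover -/

/-- SI. Structure of the singles of a member of `M`. -/
def StSingle : Prop :=
  ∀ (V : Type) [DecidableEq V] (k : ℕ) (H M : Finset (Finset V)), 2 ≤ k →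
    (∀ e ∈ H, e.card = k) → MaxPack k H M → ∀ m ∈ M,
    (∃ S ⊆ m, S.card = k - 1 ∧ ∀ f ∈ H \ M, nbr k M f = {m} → S ⊆ f) ∨
      ∃ Q : Finset V, m ⊆ Q ∧ Q.card = k + 1 ∧ ∀ f ∈ H \ M, nbr k M f = {m} → f ⊆ Q

/-- PA. Pairing. -/
def StPair : Prop :=
  ∀ (V : Type) [DecidableEq V] (k : ℕ) (Q L : Finset V), 1 ≤ k → Q.card = k + 1 → L ⊆ Q →
    ∃ D : Finset (Finset V), (∀ S ∈ D, S.card = k - 1) ∧ 2 * D.card ≤ L.card + 1 ∧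
      ∀ c ∈ L, ∃ S ∈ D, S ⊆ Q.erase c

/-- SE. Selection of a sparse family of ridges by a random colouring. -/
def StSel : Prop :=
  ∀ (V : Type) [Fintype V] [DecidableEq V] (k K J : ℕ) (E F : Finset (Finset V))
    (tr : Finset V → Finset (Finset V)),
    2 ≤ k → 1 ≤ K → 1 ≤ J → (∀ S ∈ E, S.card = k - 1) → (∀ f ∈ F, f.card = k) →
    (∀ f ∈ F, (tr f).Nonempty ∧ ∀ S ∈ tr f, S ⊆ f ∧ S.card = k - 1) →
    ∃ I ⊆ E, (∀ f : Finset V, f.card = k → (I.filter (fun S => S ⊆ f)).card ≤ J) ∧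
      1 / (2 * (K : ℝ)) * (1 - K * (k.choose J : ℝ) / K ^ J) * E.card
        - ∑ f ∈ F, (1 / (K : ℝ)) ^ (tr f).card ≤
      (I.card : ℝ) / 2 - ((F.filter (fun f => tr f ⊆ I)).card : ℝ)

/-- FL. The cover. -/
def StCover : Prop :=
  ∀ (V : Type) [Fintype V] [DecidableEq V] (k K J : ℕ) (H M U C : Finset (Finset V)),
    2 ≤ k → 1 ≤ K → 1 ≤ J → (K : ℝ) * (k.choose J : ℝ) ≤ K ^ J →
    (∀ e ∈ H, e.card = k) → MaxPack k H M → U ⊆ shadow k M → (∀ R ∈ C, R.card = k - 1) →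
    ∃ D : Finset (Finset V), (∀ S ∈ D, S.card = k - 1) ∧ (∀ e ∈ H, ∃ S ∈ D, S ⊆ e) ∧
      (D.card : ℝ) ≤ k * M.card + C.card + M.card / 2
        - 1 / (2 * (K : ℝ)) * (1 - K * (k.choose J : ℝ) / K ^ J)
          * (((k : ℝ) - 1) * M.card - U.card)
        + wt k M ((H \ M).filter (fun f => (2 ≤ typ k M f ∧ typ k M f ≤ J) ∧
          (∀ S ∈ U, ¬ S ⊆ f) ∧ ∀ R ∈ C, ¬ R ⊆ f)) (1 / (K : ℝ))

/-- CH. The trivial bound on the number of edges. -/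
def StCount : Prop :=
  ∀ (V : Type) [DecidableEq V] (k D : ℕ) (H M : Finset (Finset V)), 2 ≤ k →
    (∀ e ∈ H, e.card = k) → MaxPack k H M →
    (∀ S : Finset V, S.card = k - 1 → (H.filter (fun e => S ⊆ e)).card ≤ D) →
    H.card ≤ k * M.card * D

/-! ### The two bounds -/

/-- FA. Every hypergraph. -/
def StFinA : Prop :=
  ∃ c : ℝ, 0 < c ∧ ∃ k₀ : ℕ, ∀ k : ℕ, k₀ ≤ k →
    ∀ (V : Type) [Fintype V] [DecidableEq V] (H M : Finset (Finset V)),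
      (∀ e ∈ H, e.card = k) → MaxPack k H M →
      ∃ D : Finset (Finset V), (∀ S ∈ D, S.card = k - 1) ∧ (∀ e ∈ H, ∃ S ∈ D, S ⊆ e) ∧
        (D.card : ℝ) ≤ (k - c * Real.log k) * M.card

/-- FB. Bounded degrees of the ridges. -/
def StFinB : Prop :=
  ∃ c C : ℝ, 0 < c ∧ 0 < C ∧ ∃ k₀ : ℕ, ∀ k : ℕ, k₀ ≤ k → ∀ N : ℕ, 2 ≤ N →
    Real.log k ≤ k * Real.exp (-(C * Real.log N / Real.log k)) →
    ∀ (V : Type) [Fintype V] [DecidableEq V] (H M : Finset (Finset V)),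
      (∀ e ∈ H, e.card = k) → MaxPack k H M →
      (∀ S : Finset V, S.card = k - 1 → (H.filter (fun e => S ⊆ e)).card ≤ N) →
      ∃ D : Finset (Finset V), (∀ S ∈ D, S.card = k - 1) ∧ (∀ e ∈ H, ∃ S ∈ D, S ⊆ e) ∧
        (D.card : ℝ) ≤
          (k - c * (k * Real.exp (-(C * Real.log N / Real.log k)))) * M.card

end Pool.Agent.Helper60.GT
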