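import Pool.Agent.Helper60.GT.Defs

/-!
# Module SE: selection by a random colouring

Colourings `χ : V → ZMod K` (`NeZero K`) or `V → Fin K`, `r : ZMod K`;
`I (χ,r) = {S ∈ E : ∑ v ∈ S, χ v = r ∧ ∀ c, |{v ∈ S : χ v = c}| < J}`.
(i) If `f` is a `k`-set and `S = f.erase a`, `S' = f.erase a'` are in `I` then `χ a' = χ a`
(`= ∑_f χ - r`), so `a' ∈ S` has the colour of `a`: at most `J - 1` choices of `a' ≠ a`.
(ii) `#{(χ,r) : S ∈ I} = #{χ : S bounded} ≥ K^n (1 - K C(k-1,J)/K^J)`, `n = card V`: union bound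
over the colour `c` and the `J`-subsets `A ⊆ S`, `#{χ : χ = c on A} = K^(n-J)`.
(iii) `#{(χ,r) : tr f ⊆ I} ≤ #{χ : χ constant on A} = K^(n-|A|+1)`, where
`tr f = {f.erase a : a ∈ A}`, `|A| = |tr f| ≥ 1`.
Average `(|I|)/2 - |{f ∈ F : tr f ⊆ I}|` over the `K^n * K` pairs `(χ,r)`.
-/

set_option autoImplicit false

open Finset

namespace Pool.Agent.Helper60.GT

namespace SelAux

variable {V : Type} [Fintype V] [DecidableEq V] {K : ℕ} [NeZero K]

theorem cnt (A : Finset V) (c : ZMod K) :
    ((univ.filter (fun χ : V → ZMod K => ∀ a ∈ A, χ a = c)).card : ℝ) * (K : ℝ) ^ A.card =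
      (K : ℝ) ^ Fintype.card V := by
  have h1 : univ.filter (fun χ : V → ZMod K => ∀ a ∈ A, χ a = c) =
      Fintype.piFinset (fun v => if v ∈ A then ({c} : Finset (ZMod K)) else univ) := by
    ext χ
    simp only [mem_filter, mem_univ, true_and, Fintype.mem_piFinset]
    constructor
    · intro h v
      split_ifs with hv
      · rw [mem_singleton]
        exact h v hv
      · exact mem_univ _
    · intro h v hv
      have := h v
      rw [if_pos hv, mem_singleton] at this
      exact this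
  have h2 : (Fintype.piFinset (fun v => if v ∈ A then ({c} : Finset (ZMod K)) else univ)).card =
      K ^ (univ.filter (fun v => v ∉ A)).card := by
    rw [Fintype.card_piFinset]
    have h3 : ∀ v : V, (if v ∈ A then ({c} : Finset (ZMod K)) else univ).card =
        if v ∈ A then 1 else K := by
      intro v
      split_ifs
      · rfl
      · rw [card_univ, ZMod.card]
    rw [prod_congr rfl fun v _ => h3 v, prod_ite, prod_const_one, one_mul, prod_const]
  have h4 : (univ.filter (fun v => v ∉ A)).card + A.card = Fintype.card V := by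
    have h5 := card_filter_add_card_filter_not (s := (univ : Finset V)) (fun v => v ∈ A)
    have h6 : univ.filter (fun v => v ∈ A) = A := by
      ext v
      simp
    rw [h6, card_univ] at h5
    omega
  rw [h1, h2, ← h4, pow_add]
  push_cast
  rfl

/-- the selected family -/
def II (J : ℕ) (E : Finset (Finset V)) (ω : (V → ZMod K) × ZMod K) : Finset (Finset V) :=
  E.filter (fun S => ∑ v ∈ S, ω.1 v = ω.2 ∧ ∀ c, (S.filter (fun v => ω.1 v = c)).card < J)

omit [Fintype V] in
theorem exists_erase {k : ℕ} {f S : Finset V} (hk : 1 ≤ k) (hf : f.card = k)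
    (hS : S.card = k - 1) (h : S ⊆ f) : ∃ a ∈ f, S = f.erase a := by
  have h1 : (f \ S).card = 1 := by
    rw [card_sdiff_of_subset h]
    omega
  obtain ⟨a, ha⟩ := card_eq_one.1 h1
  have ha' : a ∈ f \ S := by
    rw [ha]
    exact mem_singleton_self a
  refine ⟨a, (mem_sdiff.1 ha').1, ?_⟩
  ext x
  rw [mem_erase]
  constructor
  · intro hx
    refine ⟨?_, h hx⟩
    rintro rfl
    exact (mem_sdiff.1 ha').2 hx
  · rintro ⟨hx, hxf⟩
    by_contra hxS
    have : x ∈ f \ S := mem_sdiff.2 ⟨hxf, hxS⟩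
    rw [ha, mem_singleton] at this
    exact hx this

omit [Fintype V] in
theorem II_bound {k J : ℕ} (hk : 1 ≤ k) (hJ : 1 ≤ J) {E : Finset (Finset V)}
    (hE : ∀ S ∈ E, S.card = k - 1) (ω : (V → ZMod K) × ZMod K) {f : Finset V}
    (hf : f.card = k) : ((II J E ω).filter (fun S => S ⊆ f)).card ≤ J := by
  by_cases hne : ((II J E ω).filter (fun S => S ⊆ f)).Nonempty
  · obtain ⟨S, hS⟩ := hne
    rw [mem_filter] at hS
    unfold II at hS
    rw [mem_filter] at hS
    obtain ⟨⟨hSE, hSr, hSc⟩, hSf⟩ := hS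
    obtain ⟨a, haf, rfl⟩ := exists_erase hk hf (hE S hSE) hSf
    have hsub : (II J E ω).filter (fun S => S ⊆ f) ⊆
        (f.filter (fun v => ω.1 v = ω.1 a)).image (fun v => f.erase v) := by
      intro S' hS'
      rw [mem_filter] at hS'
      unfold II at hS'
      rw [mem_filter] at hS'
      obtain ⟨⟨hSE', hSr', -⟩, hSf'⟩ := hS'
      obtain ⟨a', haf', rfl⟩ := exists_erase hk hf (hE S' hSE') hSf'
      rw [mem_image]
      refine ⟨a', ?_, rfl⟩
      rw [mem_filter]
      refine ⟨haf', ?_⟩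
      have h1 := sum_erase_add f ω.1 haf
      have h2 := sum_erase_add f ω.1 haf'
      rw [hSr] at h1
      rw [hSr'] at h2
      have h3 := h1.trans h2.symm
      exact (add_left_cancel h3).symm
    refine (card_le_card hsub).trans (card_image_le.trans ?_)
    have h4 : f.filter (fun v => ω.1 v = ω.1 a) ⊆
        insert a ((f.erase a).filter (fun v => ω.1 v = ω.1 a)) := by
      intro v hv
      rw [mem_filter] at hv
      rw [mem_insert, mem_filter, mem_erase]
      by_cases h : v = a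
      · exact Or.inl h
      · exact Or.inr ⟨⟨h, hv.1⟩, hv.2⟩
    have h5 := (card_le_card h4).trans (card_insert_le _ _)
    have h6 := hSc (ω.1 a)
    omega
  · rw [not_nonempty_iff_eq_empty.1 hne, card_empty]
    omega

theorem lowS {k J : ℕ} (hk : 2 ≤ k) {E : Finset (Finset V)}
    (hE : ∀ S ∈ E, S.card = k - 1) {S : Finset V} (hS : S ∈ E) :
    (K : ℝ) ^ Fintype.card V * (1 - K * (k.choose J : ℝ) / (K : ℝ) ^ J) ≤
      ((univ.filter (fun ω : (V → ZMod K) × ZMod K => S ∈ II J E ω)).card : ℝ) := by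
  have hK : (0 : ℝ) < K := by exact_mod_cast NeZero.pos K
  set good : Finset (V → ZMod K) :=
    univ.filter (fun χ => ∀ c, (S.filter (fun v => χ v = c)).card < J) with hgood
  have h1 : good.card ≤ (univ.filter (fun ω : (V → ZMod K) × ZMod K => S ∈ II J E ω)).card := by
    apply card_le_card_of_injOn (fun χ => (χ, ∑ v ∈ S, χ v))
    · intro χ hχ
      rw [mem_coe, hgood, mem_filter] at hχ
      rw [mem_coe, mem_filter]
      refine ⟨mem_univ _, ?_⟩
      unfold II
      rw [mem_filter]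
      exact ⟨hS, rfl, hχ.2⟩
    · intro χ _ χ' _ h
      exact congrArg Prod.fst h
  have h2 : good.card + (univ.filter (fun χ : V → ZMod K =>
      ¬ ∀ c, (S.filter (fun v => χ v = c)).card < J)).card = K ^ Fintype.card V := by
    rw [hgood, card_filter_add_card_filter_not, card_univ, Fintype.card_fun, ZMod.card]
  have h3 : (univ.filter (fun χ : V → ZMod K =>
      ¬ ∀ c, (S.filter (fun v => χ v = c)).card < J)) ⊆
      (univ : Finset (ZMod K)).biUnion (fun c => (S.powersetCard J).biUnion (fun A =>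
        univ.filter (fun χ : V → ZMod K => ∀ a ∈ A, χ a = c))) := by
    intro χ hχ
    rw [mem_filter] at hχ
    obtain ⟨-, hχ⟩ := hχ
    push Not at hχ
    obtain ⟨c, hc⟩ := hχ
    obtain ⟨A, hA, hAc⟩ := exists_subset_card_eq hc
    rw [mem_biUnion]
    refine ⟨c, mem_univ _, ?_⟩
    rw [mem_biUnion]
    refine ⟨A, mem_powersetCard.2 ⟨hA.trans (filter_subset _ _), hAc⟩, ?_⟩
    rw [mem_filter]
    exact ⟨mem_univ _, fun a ha => (mem_filter.1 (hA ha)).2⟩
  have h4 : ((univ.filter (fun χ : V → ZMod K =>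
      ¬ ∀ c, (S.filter (fun v => χ v = c)).card < J)).card : ℝ) ≤
      K * (k.choose J : ℝ) * ((K : ℝ) ^ Fintype.card V / (K : ℝ) ^ J) := by
    have h5 : ((univ.filter (fun χ : V → ZMod K =>
        ¬ ∀ c, (S.filter (fun v => χ v = c)).card < J)).card : ℝ) ≤
        ∑ c : ZMod K, ∑ A ∈ S.powersetCard J,
          ((univ.filter (fun χ : V → ZMod K => ∀ a ∈ A, χ a = c)).card : ℝ) := by
      have h6 := (card_le_card h3).trans (card_biUnion_le)
      have h7 : ∑ c : ZMod K, ((S.powersetCard J).biUnion (fun A =>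
          univ.filter (fun χ : V → ZMod K => ∀ a ∈ A, χ a = c))).card ≤
          ∑ c : ZMod K, ∑ A ∈ S.powersetCard J,
            (univ.filter (fun χ : V → ZMod K => ∀ a ∈ A, χ a = c)).card :=
        sum_le_sum fun c _ => card_biUnion_le
      exact_mod_cast h6.trans h7
    refine h5.trans ?_
    have h8 : ∀ c : ZMod K, ∀ A ∈ S.powersetCard J,
        ((univ.filter (fun χ : V → ZMod K => ∀ a ∈ A, χ a = c)).card : ℝ) =
          (K : ℝ) ^ Fintype.card V / (K : ℝ) ^ J := by
      intro c A hA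
      have h9 := cnt (K := K) A c
      rw [(mem_powersetCard.1 hA).2] at h9
      rw [eq_div_iff (by positivity)]
      exact h9
    rw [sum_congr rfl fun c _ => sum_congr rfl (h8 c)]
    simp only [sum_const, card_powersetCard, card_univ, ZMod.card, nsmul_eq_mul]
    rw [hE S hS, ← mul_assoc]
    have h10 : ((k - 1).choose J : ℝ) ≤ (k.choose J : ℝ) := by
      exact_mod_cast Nat.choose_le_choose J (by omega)
    gcongr
  have h11 : ((good.card : ℕ) : ℝ) + ((univ.filter (fun χ : V → ZMod K =>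
      ¬ ∀ c, (S.filter (fun v => χ v = c)).card < J)).card : ℝ) = (K : ℝ) ^ Fintype.card V := by
    exact_mod_cast h2
  have h12 : ((good.card : ℕ) : ℝ) ≤
      ((univ.filter (fun ω : (V → ZMod K) × ZMod K => S ∈ II J E ω)).card : ℝ) := by
    exact_mod_cast h1
  have h13 : (K : ℝ) ^ Fintype.card V * (1 - K * (k.choose J : ℝ) / (K : ℝ) ^ J) =
      (K : ℝ) ^ Fintype.card V -
        K * (k.choose J : ℝ) * ((K : ℝ) ^ Fintype.card V / (K : ℝ) ^ J) := by
    ring
  rw [h13]
  linarith

theorem upF {k J : ℕ} (hk : 2 ≤ k) {E : Finset (Finset V)} {f : Finset V} (hf : f.card = k)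
    {T : Finset (Finset V)} (hT : T.Nonempty) (hTf : ∀ S ∈ T, S ⊆ f ∧ S.card = k - 1) :
    ((univ.filter (fun ω : (V → ZMod K) × ZMod K => T ⊆ II J E ω)).card : ℝ) ≤
      (K : ℝ) ^ (Fintype.card V + 1) * (1 / (K : ℝ)) ^ T.card := by
  have hK : (0 : ℝ) < K := by exact_mod_cast NeZero.pos K
  set A : Finset V := f.filter (fun a => f.erase a ∈ T) with hA
  have hAT : A.card = T.card := by
    have h1 : A.image (fun a => f.erase a) = T := by
      ext S
      rw [mem_image]
      constructor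
      · rintro ⟨a, ha, rfl⟩
        exact (mem_filter.1 ha).2
      · intro hS
        obtain ⟨a, ha, rfl⟩ := exists_erase (by omega) hf (hTf S hS).2 (hTf S hS).1
        exact ⟨a, mem_filter.2 ⟨ha, hS⟩, rfl⟩
    rw [← h1]
    refine (card_image_of_injOn ?_).symm
    intro a ha a' ha' haa
    have haf : a ∈ f := (mem_filter.1 ha).1
    have haf' : a' ∈ f := (mem_filter.1 ha').1
    by_contra hne
    have h2 : a ∈ f.erase a' := mem_erase.2 ⟨hne, haf⟩
    have h3 : f.erase a = f.erase a' := haa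
    rw [← h3] at h2
    exact (mem_erase.1 h2).1 rfl
  have hAne : A.Nonempty := by
    rw [← card_pos, hAT]
    exact card_pos.2 hT
  obtain ⟨a₀, ha₀⟩ := hAne
  have h1 : (univ.filter (fun ω : (V → ZMod K) × ZMod K => T ⊆ II J E ω)).card ≤
      ((univ : Finset (ZMod K)).biUnion (fun c =>
        univ.filter (fun χ : V → ZMod K => ∀ a ∈ A, χ a = c))).card := by
    have hkey : ∀ ω : (V → ZMod K) × ZMod K, T ⊆ II J E ω → ∀ a ∈ A,
        ω.2 + ω.1 a = ∑ v ∈ f, ω.1 v := by
      intro ω hω a ha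
      have h2 := hω (mem_filter.1 ha).2
      unfold II at h2
      rw [mem_filter] at h2
      rw [← h2.2.1]
      exact sum_erase_add f ω.1 (mem_filter.1 ha).1
    apply card_le_card_of_injOn (fun ω => ω.1)
    · intro ω hω
      rw [mem_coe, mem_filter] at hω
      rw [mem_coe, mem_biUnion]
      refine ⟨ω.1 a₀, mem_univ _, ?_⟩
      rw [mem_filter]
      refine ⟨mem_univ _, fun a ha => ?_⟩
      have h3 := hkey ω hω.2 a ha
      have h4 := hkey ω hω.2 a₀ ha₀
      exact add_left_cancel (h3.trans h4.symm)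
    · intro ω hω ω' hω' h
      rw [mem_coe, mem_filter] at hω hω'
      have h' : ω.1 = ω'.1 := h
      have h3 := hkey ω hω.2 a₀ ha₀
      have h4 := hkey ω' hω'.2 a₀ ha₀
      rw [← h'] at h4
      exact Prod.ext h' (add_right_cancel (h3.trans h4.symm))
  have h5 : (((univ : Finset (ZMod K)).biUnion (fun c =>
      univ.filter (fun χ : V → ZMod K => ∀ a ∈ A, χ a = c))).card : ℝ) ≤
      ∑ c : ZMod K, ((univ.filter (fun χ : V → ZMod K => ∀ a ∈ A, χ a = c)).card : ℝ) := by
    exact_mod_cast card_biUnion_le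
  have h6 : ∀ c : ZMod K, ((univ.filter (fun χ : V → ZMod K => ∀ a ∈ A, χ a = c)).card : ℝ) =
      (K : ℝ) ^ Fintype.card V * (1 / (K : ℝ)) ^ T.card := by
    intro c
    have h7 := cnt (K := K) A c
    rw [hAT] at h7
    rw [one_div, inv_pow, ← div_eq_mul_inv, eq_div_iff (by positivity)]
    exact h7
  rw [sum_congr rfl fun c _ => h6 c] at h5
  simp only [sum_const, card_univ, ZMod.card, nsmul_eq_mul] at h5
  have h8 : ((univ.filter (fun ω : (V → ZMod K) × ZMod K => T ⊆ II J E ω)).card : ℝ) ≤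
      (((univ : Finset (ZMod K)).biUnion (fun c =>
        univ.filter (fun χ : V → ZMod K => ∀ a ∈ A, χ a = c))).card : ℝ) := by
    exact_mod_cast h1
  refine (h8.trans h5).trans (le_of_eq ?_)
  rw [pow_succ]
  ring

end SelAux

theorem sel : StSel := by
  intro V _ _ k K J E F tr hk hK1 hJ hE hF htr
  haveI : NeZero K := ⟨by omega⟩
  have hK : (0 : ℝ) < K := by exact_mod_cast NeZero.pos K
  set n := Fintype.card V with hn
  set L : ℝ := 1 / (2 * (K : ℝ)) * (1 - K * (k.choose J : ℝ) / (K : ℝ) ^ J) * E.card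
        - ∑ f ∈ F, (1 / (K : ℝ)) ^ (tr f).card with hL
  -- averaging
  have hcardΩ : ((univ : Finset ((V → ZMod K) × ZMod K)).card : ℝ) = (K : ℝ) ^ (n + 1) := by
    rw [card_univ, Fintype.card_prod, Fintype.card_fun, ZMod.card, pow_succ]
    push_cast
    rfl
  have hsum1 : ∑ ω : (V → ZMod K) × ZMod K, ((SelAux.II J E ω).card : ℝ) =
      ∑ S ∈ E, ((univ.filter (fun ω : (V → ZMod K) × ZMod K => S ∈ SelAux.II J E ω)).card : ℝ) := by
    have h1 : ∀ ω : (V → ZMod K) × ZMod K, ((SelAux.II J E ω).card : ℝ) =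
        ∑ S ∈ E, (if S ∈ SelAux.II J E ω then (1 : ℝ) else 0) := by
      intro ω
      rw [sum_boole]
      congr 2
      ext S
      rw [mem_filter]
      constructor
      · intro h
        exact ⟨(mem_filter.1 h).1, h⟩
      · intro h
        exact h.2
    rw [sum_congr rfl fun ω _ => h1 ω, sum_comm]
    refine sum_congr rfl fun S _ => ?_
    rw [sum_boole]
  have hsum2 : ∑ ω : (V → ZMod K) × ZMod K,
      ((F.filter (fun f => tr f ⊆ SelAux.II J E ω)).card : ℝ) =
      ∑ f ∈ F, ((univ.filter (fun ω : (V → ZMod K) × ZMod K =>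
        tr f ⊆ SelAux.II J E ω)).card : ℝ) := by
    have h1 : ∀ ω : (V → ZMod K) × ZMod K,
        ((F.filter (fun f => tr f ⊆ SelAux.II J E ω)).card : ℝ) =
        ∑ f ∈ F, (if tr f ⊆ SelAux.II J E ω then (1 : ℝ) else 0) := by
      intro ω
      rw [sum_boole]
    rw [sum_congr rfl fun ω _ => h1 ω, sum_comm]
    refine sum_congr rfl fun S _ => ?_
    rw [sum_boole]
  have hlow : (E.card : ℝ) * ((K : ℝ) ^ n * (1 - K * (k.choose J : ℝ) / (K : ℝ) ^ J)) ≤
      ∑ ω : (V → ZMod K) × ZMod K, ((SelAux.II J E ω).card : ℝ) := by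
    rw [hsum1, ← nsmul_eq_mul]
    exact card_nsmul_le_sum _ _ _ fun S hS => SelAux.lowS hk hE hS
  have hup : ∑ ω : (V → ZMod K) × ZMod K,
      ((F.filter (fun f => tr f ⊆ SelAux.II J E ω)).card : ℝ) ≤
      ∑ f ∈ F, (K : ℝ) ^ (n + 1) * (1 / (K : ℝ)) ^ (tr f).card := by
    rw [hsum2]
    exact sum_le_sum fun f hf => SelAux.upF hk (hF f hf) (htr f hf).1 (htr f hf).2
  have htot : ∑ _ω : (V → ZMod K) × ZMod K, L ≤ ∑ ω : (V → ZMod K) × ZMod K,
      (((SelAux.II J E ω).card : ℝ) / 2 -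
        ((F.filter (fun f => tr f ⊆ SelAux.II J E ω)).card : ℝ)) := by
    rw [sum_const, nsmul_eq_mul, hcardΩ, sum_sub_distrib, ← sum_div]
    rw [← mul_sum] at hup
    have h2 : (K : ℝ) ^ (n + 1) * L =
        (E.card : ℝ) * ((K : ℝ) ^ n * (1 - K * (k.choose J : ℝ) / (K : ℝ) ^ J)) / 2 -
          (K : ℝ) ^ (n + 1) * ∑ f ∈ F, (1 / (K : ℝ)) ^ (tr f).card := by
      rw [hL, mul_sub]
      congr 1
      rw [pow_succ]
      field_simp
    rw [h2]
    linarith
  obtain ⟨ω, -, hω⟩ := exists_le_of_sum_le (s := (univ : Finset ((V → ZMod K) × ZMod K)))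
    ⟨(fun _ => 0, 0), mem_univ _⟩ htot
  refine ⟨SelAux.II J E ω, filter_subset _ _, fun f hf => SelAux.II_bound (by omega) hJ hE ω hf, hω⟩

end Pool.Agent.Helper60.GT
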